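import Pool.Agent.H.MP_df7994_gt.Basic

/-!
# Closed forms of small dilatation on the four-torus: definitions (MP_df7994_gt, SD)

Page: /team-store/h89_df7994_dilatation.md
-/

set_option autoImplicit false

namespace Pool.Agent.H.MP_df7994_gt.SD

open Set Topology MeasureTheory Metric

/-- partial derivative -/
noncomputable def D (i : Fin 4) (f : V4 → ℝ) (x : V4) : ℝ := fderiv ℝ f x (Pi.single i 1)

/-- smooth functions -/
def Sm (f : V4 → ℝ) : Prop := ContDiff ℝ ((⊤ : ℕ∞) : WithTop ℕ∞) f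

/-- smooth functions all of whose derivatives are bounded -/
structure Nice (g : V4 → ℝ) : Prop where
  sm : Sm g
  bd : ∀ n : ℕ, ∃ C : ℝ, ∀ x, ‖iteratedFDeriv ℝ n g x‖ ≤ C

/-- the Laplace operator -/
noncomputable def lap (f : V4 → ℝ) (x : V4) : ℝ := ∑ i, D i (D i f) x

/-- the coefficients of the operator `T` -/
def tau : Fin 3 → Fin 3 → Matrix (Fin 4) (Fin 4) ℝ :=
  ![![!![1, 0, 0, 0; 0, 1, 0, 0; 0, 0, -1, 0; 0, 0, 0, -1],
      !![0, 0, 0, -2; 0, 0, 2, 0; 0, 0, 0, 0; 0, 0, 0, 0],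
      !![0, 0, 2, 0; 0, 0, 0, 2; 0, 0, 0, 0; 0, 0, 0, 0]],
    ![!![0, 0, 0, 2; 0, 0, 2, 0; 0, 0, 0, 0; 0, 0, 0, 0],
      !![1, 0, 0, 0; 0, -1, 0, 0; 0, 0, 1, 0; 0, 0, 0, -1],
      !![0, -2, 0, 0; 0, 0, 0, 0; 0, 0, 0, 2; 0, 0, 0, 0]],
    ![!![0, 0, -2, 0; 0, 0, 0, 2; 0, 0, 0, 0; 0, 0, 0, 0],
      !![0, 2, 0, 0; 0, 0, 0, 0; 0, 0, 0, 2; 0, 0, 0, 0],
      !![1, 0, 0, 0; 0, -1, 0, 0; 0, 0, -1, 0; 0, 0, 0, 1]]]

/-- the second order operator `T` with constant coefficients -/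
noncomputable def TT (q : Fin 3 → V4 → ℝ) (i : Fin 3) (x : V4) : ℝ :=
  ∑ j, ∑ a, ∑ b, tau i j a b * D a (D b (q j)) x

/-- smooth weights supported in the closed unit ball of the sup norm -/
structure Wf (m : V4 → ℝ) : Prop where
  sm : Sm m
  supp : ∀ w, 1 < ‖w‖ → m w = 0

/-- the weighted average of `g` at scale `r` around `y` -/
noncomputable def av (m : V4 → ℝ) (r : ℝ) (g : V4 → ℝ) (y : V4) : ℝ := ∫ w, m w * g (y + r • w)

/-- the pair of radial weights: `∇ h = - 2 φ w` -/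
structure Wt (h φ : V4 → ℝ) : Prop where
  hf : Wf h
  φf : Wf φ
  φ0 : ∀ w, 0 ≤ φ w
  grad : ∀ i w, D i h w = -2 * φ w * w i
  pos : 0 < ∫ w, φ w

/-- the square mean of `g` on the cube of half side `r` around `y` (not normalised) -/
noncomputable def Mr (g : Fin 3 → V4 → ℝ) (r : ℝ) (y : V4) : ℝ :=
  Real.sqrt ((∫ z in closedBall y r, ∑ j, g j z ^ 2) / r ^ 4)

/-- the hypotheses on the pair (self-dual part, anti-self-dual part) -/
structure Pair (p q : Fin 3 → V4 → ℝ) : Prop where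
  pn : ∀ i, Nice (p i)
  qn : ∀ i, Nice (q i)
  eq : ∀ i x, lap (p i) x = TT q i x

/-- the pinching -/
def Pinch (k : ℝ) (p q : Fin 3 → V4 → ℝ) : Prop := ∀ x, ∑ j, q j x ^ 2 ≤ k ^ 2 * ∑ j, p j x ^ 2

/-- `L` is relatively dense -/
def RDense (L : Set V4) : Prop := ∃ d : ℝ, ∀ x : V4, ∃ l ∈ L, ‖x - l‖ ≤ d

end Pool.Agent.H.MP_df7994_gt.SD
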