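import Pool.Agent.H.MP_df7994_gt.Main
import Pool.Agent.H.MP_df7994_gt.SD.Defs

/-!
SD / Join: constant forms of the same sign are homotopic; two forms homotopic to constant forms of the
same sign are homotopic.
-/

set_option autoImplicit false

namespace Pool.Agent.H.MP_df7994_gt.SD

open Set Topology

theorem const_ref {m : M4} (hm : ∀ i j, m i j = - m j i) {s : ℝ} (hs : s = 1 ∨ s = -1)
    (hp : 0 < s * pf m) : Hom (fun _ => m) (ref s) := by
  have hpf : pf m ≠ 0 := by
    intro h
    rw [h, mul_zero] at hp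
    exact lt_irrefl _ hp
  have hd : ∀ x : V4, ((fun _ : V4 => m) x).det ≠ 0 := fun x => by
    show m.det ≠ 0
    rw [det_skew hm]
    exact pow_ne_zero 2 hpf
  have hv0 : (Pi.single 0 1 : V4) ≠ 0 := by
    intro h
    have := congrFun h 0
    simp at this
  have hvv := (sq_pos_of_ne hv0).ne'
  refine hom_ref hs continuous_const (fun _ => hm) (fun _ _ => rfl) hd (fun _ => hp)
    (Pi.single 0 1) (Pi.single 0 1) ?_ (contr (fun _ => m) (Pi.single 0 1)) ?_ (fun _ _ => rfl)
    ?_ ?_
  · have h2 : ∑ i, (Pi.single 0 1 : V4) i * (Pi.single 0 1 : V4) i =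
        ∑ i, (Pi.single 0 1 : V4) i ^ 2 := Finset.sum_congr rfl fun i _ => by ring
    rwa [h2]
  · intro i
    exact contDiff_const
  · intro x i j
    have h1 : ∀ k, fderiv ℝ (fun y : V4 => contr (fun _ => m) (Pi.single 0 1) y k) x = 0 :=
      fun k => by
        show fderiv ℝ (fun _ : V4 => ∑ i, (Pi.single 0 1 : V4) i * m i k) x = 0
        rw [fderiv_fun_const]
        rfl
    rw [h1, h1]
    rfl
  · intro x l hl c
    by_contra hcon
    push Not at hcon
    have h0 : ∀ j, (1 + l) * contr (fun _ => m) (Pi.single 0 1) x j =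
        c * (Pi.single 0 1 : V4) j := by
      intro j
      have := hcon j
      linarith
    have h1 := contr_orth (α := fun _ => m) (fun _ => hm) (Pi.single 0 1) x
    have h2 : c * ∑ j, (Pi.single 0 1 : V4) j ^ 2 =
        (1 + l) * ∑ j, contr (fun _ => m) (Pi.single 0 1) x j * (Pi.single 0 1 : V4) j := by
      rw [Finset.mul_sum, Finset.mul_sum]
      refine Finset.sum_congr rfl fun j _ => ?_
      linear_combination -((Pi.single 0 1 : V4) j) * h0 j
    rw [h1, mul_zero] at h2
    have h3 : c = 0 := (mul_eq_zero.1 h2).resolve_right hvv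
    apply contr_ne (α := fun _ => m) (fun _ => hm) hd hv0 x
    funext j
    have h4 := h0 j
    rw [h3, zero_mul] at h4
    exact (mul_eq_zero.1 h4).resolve_left (by linarith)

/-- the sign of the Pfaffian of a nondegenerate form is constant -/
theorem sign_const {α : V4 → M4} (hc : Continuous α) (hne : ∀ x, pf (α x) ≠ 0) :
    ∃ s : ℝ, (s = 1 ∨ s = -1) ∧ ∀ x, 0 < s * pf (α x) := by
  have hcα : Continuous fun x => pf (α x) := by
    have he : ∀ i j, Continuous fun x => α x i j := fun i j => hc.matrix_elem i j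
    unfold pf
    exact (((he 0 1).mul (he 2 3)).sub ((he 0 2).mul (he 1 3))).add ((he 0 3).mul (he 1 2))
  rcases lt_or_gt_of_ne (hne 0) with h0 | h0
  · refine ⟨-1, Or.inr rfl, fun x => ?_⟩
    by_contra hx
    have h1 : 0 < pf (α x) := lt_of_le_of_ne (by linarith) (hne x).symm
    obtain ⟨z, hz⟩ := mem_range_of_exists_le_of_exists_ge hcα ⟨0, h0.le⟩ ⟨x, h1.le⟩
    exact hne z hz
  · refine ⟨1, Or.inl rfl, fun x => ?_⟩
    by_contra hx
    have h1 : pf (α x) < 0 := lt_of_le_of_ne (by linarith) (hne x)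
    obtain ⟨z, hz⟩ := mem_range_of_exists_le_of_exists_ge hcα ⟨x, h1.le⟩ ⟨0, h0.le⟩
    exact hne z hz

/-- along a path of nondegenerate skew forms the sign of the Pfaffian is constant -/
theorem sign_path {H : ℝ → V4 → M4} (hc : Continuous fun z : ℝ × V4 => H z.1 z.2)
    (hk : ∀ t ∈ Icc (0 : ℝ) 1, ∀ x i j, H t x i j = - H t x j i)
    (hd : ∀ t ∈ Icc (0 : ℝ) 1, ∀ x, (H t x).det ≠ 0) {s : ℝ} (x : V4) (h0 : 0 < s * pf (H 0 x)) :
    0 < s * pf (H 1 x) := by
  have hc1 : ContinuousOn (fun t => s * pf (H t x)) (Icc 0 1) := by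
    have he : ∀ i j, Continuous fun t : ℝ => H t x i j := fun i j =>
      (hc.comp (continuous_id.prodMk continuous_const)).matrix_elem i j
    have : Continuous fun t => s * pf (H t x) := by
      unfold pf
      exact continuous_const.mul
        ((((he 0 1).mul (he 2 3)).sub ((he 0 2).mul (he 1 3))).add ((he 0 3).mul (he 1 2)))
    exact this.continuousOn
  have hs : s ≠ 0 := by
    rintro rfl
    rw [zero_mul] at h0
    exact lt_irrefl _ h0
  by_contra hx
  obtain ⟨t, ht, h1⟩ := intermediate_value_Icc' (zero_le_one' ℝ) hc1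
    (show (0 : ℝ) ∈ Icc (s * pf (H 1 x)) (s * pf (H 0 x)) from ⟨not_lt.1 hx, h0.le⟩)
  have h2 : pf (H t x) = 0 := (mul_eq_zero.1 h1).resolve_left hs
  apply hd t ht x
  rw [det_skew (hk t ht x), h2]
  norm_num

end Pool.Agent.H.MP_df7994_gt.SD
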