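import Pool.Agent.H.MP_df7994_gt.SD.NiceL

/-!
SD / Alg: the two parts of a skew matrix, small dilatation gives the pinching.
-/

set_option autoImplicit false

namespace Pool.Agent.H.MP_df7994_gt.SD

open Set Topology MeasureTheory Metric

/-- self-dual part -/
def P3 (B : M4) : Fin 3 → ℝ := ![B 0 1 + B 2 3, B 0 2 - B 1 3, B 0 3 + B 1 2]

/-- anti-self-dual part -/
def Q3 (B : M4) : Fin 3 → ℝ := ![B 0 1 - B 2 3, B 0 2 + B 1 3, B 0 3 - B 1 2]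

theorem sum_sq {B : M4} (h : ∀ i j, B i j = - B j i) :
    ∑ i, ∑ j, B i j ^ 2 = ∑ i, P3 B i ^ 2 + ∑ i, Q3 B i ^ 2 := by
  have h0 : ∀ i, B i i = 0 := fun i => by linarith [h i i]
  simp only [Fin.sum_univ_four, Fin.sum_univ_three, P3, Q3, Matrix.cons_val_zero, Matrix.cons_val_one,
    Matrix.cons_val_two, Matrix.head_cons, Matrix.tail_cons, Matrix.cons_val]
  rw [h0 0, h0 1, h0 2, h0 3, h 1 0, h 2 0, h 3 0, h 2 1, h 3 1, h 3 2]
  ring

theorem four_pf (B : M4) : 4 * pf B = ∑ i, P3 B i ^ 2 - ∑ i, Q3 B i ^ 2 := by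
  simp only [Fin.sum_univ_three, P3, Q3, Matrix.cons_val_zero, Matrix.cons_val_one,
    Matrix.cons_val_two, Matrix.head_cons, Matrix.tail_cons, Matrix.cons_val, pf]
  ring

/-- small dilatation gives the pinching -/
theorem pinch_of {B : M4} (h : ∀ i j, B i j = - B j i) {k : ℝ} (hpf : 0 < pf B)
    (hd : ∑ i, ∑ j, B i j ^ 2 ≤ (4 + 8 * k ^ 2) * |pf B|) :
    ∑ i, Q3 B i ^ 2 ≤ k ^ 2 * ∑ i, P3 B i ^ 2 := by
  rw [sum_sq h, abs_of_pos hpf] at hd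
  have h4 := four_pf B
  have hQ : 0 ≤ ∑ i, Q3 B i ^ 2 := Finset.sum_nonneg fun i _ => sq_nonneg _
  have hP : 0 ≤ ∑ i, P3 B i ^ 2 := Finset.sum_nonneg fun i _ => sq_nonneg _
  generalize ∑ i, Q3 B i ^ 2 = b at *
  generalize ∑ i, P3 B i ^ 2 = a at *
  have hk : 0 ≤ k ^ 2 * b := mul_nonneg (sq_nonneg k) hQ
  have h5 : (4 + 8 * k ^ 2) * pf B = (1 + 2 * k ^ 2) * (a - b) := by
    rw [← h4]
    ring
  rw [h5] at hd
  nlinarith [hd, hk]

/-- closed 2-forms -/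
def Cl (W : V4 → M4) : Prop := ∀ x i j k,
  D i (fun y => W y j k) x + D j (fun y => W y k i) x + D k (fun y => W y i j) x = 0

end Pool.Agent.H.MP_df7994_gt.SD
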