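import Pool.Agent.H.MP_df7994_gt.SD.Alg

/-!
SD / AlgB: the second order equation of a closed form.
`lap_eq`: with `E = (W01, W02, W03)`, `S = (W23, -W13, W12)`, closedness says `D1 S1 + D2 S2 + D3 S3 = 0` (triple
1,2,3) and `D 0 S = curl E` (triples 0,i,j); differentiate these four equations once more and combine
(page, section 0: `T (E - S) = Δ (E + S)`).
-/

set_option autoImplicit false

namespace Pool.Agent.H.MP_df7994_gt.SD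

open Set Topology MeasureTheory Metric

private theorem AT0 (Z : Fin 3 → V4 → ℝ) (x : V4) : TT Z 0 x =
      (((1 : ℝ) * D 0 (D 0 (Z 0)) x + (0 : ℝ) * D 0 (D 1 (Z 0)) x + (0 : ℝ) * D 0 (D 2 (Z 0)) x + (0 : ℝ) * D 0 (D 3 (Z 0)) x) +
      ((0 : ℝ) * D 1 (D 0 (Z 0)) x + (1 : ℝ) * D 1 (D 1 (Z 0)) x + (0 : ℝ) * D 1 (D 2 (Z 0)) x + (0 : ℝ) * D 1 (D 3 (Z 0)) x) +
      ((0 : ℝ) * D 2 (D 0 (Z 0)) x + (0 : ℝ) * D 2 (D 1 (Z 0)) x + (-1 : ℝ) * D 2 (D 2 (Z 0)) x + (0 : ℝ) * D 2 (D 3 (Z 0)) x) +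
      ((0 : ℝ) * D 3 (D 0 (Z 0)) x + (0 : ℝ) * D 3 (D 1 (Z 0)) x + (0 : ℝ) * D 3 (D 2 (Z 0)) x + (-1 : ℝ) * D 3 (D 3 (Z 0)) x)) +
      (((0 : ℝ) * D 0 (D 0 (Z 1)) x + (0 : ℝ) * D 0 (D 1 (Z 1)) x + (0 : ℝ) * D 0 (D 2 (Z 1)) x + (-2 : ℝ) * D 0 (D 3 (Z 1)) x) +
      ((0 : ℝ) * D 1 (D 0 (Z 1)) x + (0 : ℝ) * D 1 (D 1 (Z 1)) x + (2 : ℝ) * D 1 (D 2 (Z 1)) x + (0 : ℝ) * D 1 (D 3 (Z 1)) x) +
      ((0 : ℝ) * D 2 (D 0 (Z 1)) x + (0 : ℝ) * D 2 (D 1 (Z 1)) x + (0 : ℝ) * D 2 (D 2 (Z 1)) x + (0 : ℝ) * D 2 (D 3 (Z 1)) x) +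
      ((0 : ℝ) * D 3 (D 0 (Z 1)) x + (0 : ℝ) * D 3 (D 1 (Z 1)) x + (0 : ℝ) * D 3 (D 2 (Z 1)) x + (0 : ℝ) * D 3 (D 3 (Z 1)) x)) +
      (((0 : ℝ) * D 0 (D 0 (Z 2)) x + (0 : ℝ) * D 0 (D 1 (Z 2)) x + (2 : ℝ) * D 0 (D 2 (Z 2)) x + (0 : ℝ) * D 0 (D 3 (Z 2)) x) +
      ((0 : ℝ) * D 1 (D 0 (Z 2)) x + (0 : ℝ) * D 1 (D 1 (Z 2)) x + (0 : ℝ) * D 1 (D 2 (Z 2)) x + (2 : ℝ) * D 1 (D 3 (Z 2)) x) +
      ((0 : ℝ) * D 2 (D 0 (Z 2)) x + (0 : ℝ) * D 2 (D 1 (Z 2)) x + (0 : ℝ) * D 2 (D 2 (Z 2)) x + (0 : ℝ) * D 2 (D 3 (Z 2)) x) +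
      ((0 : ℝ) * D 3 (D 0 (Z 2)) x + (0 : ℝ) * D 3 (D 1 (Z 2)) x + (0 : ℝ) * D 3 (D 2 (Z 2)) x + (0 : ℝ) * D 3 (D 3 (Z 2)) x)) := by
  simp only [TT, Fin.sum_univ_three, Fin.sum_univ_four]
  rfl

private theorem AT1 (Z : Fin 3 → V4 → ℝ) (x : V4) : TT Z 1 x =
      (((0 : ℝ) * D 0 (D 0 (Z 0)) x + (0 : ℝ) * D 0 (D 1 (Z 0)) x + (0 : ℝ) * D 0 (D 2 (Z 0)) x + (2 : ℝ) * D 0 (D 3 (Z 0)) x) +
      ((0 : ℝ) * D 1 (D 0 (Z 0)) x + (0 : ℝ) * D 1 (D 1 (Z 0)) x + (2 : ℝ) * D 1 (D 2 (Z 0)) x + (0 : ℝ) * D 1 (D 3 (Z 0)) x) +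
      ((0 : ℝ) * D 2 (D 0 (Z 0)) x + (0 : ℝ) * D 2 (D 1 (Z 0)) x + (0 : ℝ) * D 2 (D 2 (Z 0)) x + (0 : ℝ) * D 2 (D 3 (Z 0)) x) +
      ((0 : ℝ) * D 3 (D 0 (Z 0)) x + (0 : ℝ) * D 3 (D 1 (Z 0)) x + (0 : ℝ) * D 3 (D 2 (Z 0)) x + (0 : ℝ) * D 3 (D 3 (Z 0)) x)) +
      (((1 : ℝ) * D 0 (D 0 (Z 1)) x + (0 : ℝ) * D 0 (D 1 (Z 1)) x + (0 : ℝ) * D 0 (D 2 (Z 1)) x + (0 : ℝ) * D 0 (D 3 (Z 1)) x) +
      ((0 : ℝ) * D 1 (D 0 (Z 1)) x + (-1 : ℝ) * D 1 (D 1 (Z 1)) x + (0 : ℝ) * D 1 (D 2 (Z 1)) x + (0 : ℝ) * D 1 (D 3 (Z 1)) x) +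
      ((0 : ℝ) * D 2 (D 0 (Z 1)) x + (0 : ℝ) * D 2 (D 1 (Z 1)) x + (1 : ℝ) * D 2 (D 2 (Z 1)) x + (0 : ℝ) * D 2 (D 3 (Z 1)) x) +
      ((0 : ℝ) * D 3 (D 0 (Z 1)) x + (0 : ℝ) * D 3 (D 1 (Z 1)) x + (0 : ℝ) * D 3 (D 2 (Z 1)) x + (-1 : ℝ) * D 3 (D 3 (Z 1)) x)) +
      (((0 : ℝ) * D 0 (D 0 (Z 2)) x + (-2 : ℝ) * D 0 (D 1 (Z 2)) x + (0 : ℝ) * D 0 (D 2 (Z 2)) x + (0 : ℝ) * D 0 (D 3 (Z 2)) x) +
      ((0 : ℝ) * D 1 (D 0 (Z 2)) x + (0 : ℝ) * D 1 (D 1 (Z 2)) x + (0 : ℝ) * D 1 (D 2 (Z 2)) x + (0 : ℝ) * D 1 (D 3 (Z 2)) x) +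
      ((0 : ℝ) * D 2 (D 0 (Z 2)) x + (0 : ℝ) * D 2 (D 1 (Z 2)) x + (0 : ℝ) * D 2 (D 2 (Z 2)) x + (2 : ℝ) * D 2 (D 3 (Z 2)) x) +
      ((0 : ℝ) * D 3 (D 0 (Z 2)) x + (0 : ℝ) * D 3 (D 1 (Z 2)) x + (0 : ℝ) * D 3 (D 2 (Z 2)) x + (0 : ℝ) * D 3 (D 3 (Z 2)) x)) := by
  simp only [TT, Fin.sum_univ_three, Fin.sum_univ_four]
  rfl

private theorem AT2 (Z : Fin 3 → V4 → ℝ) (x : V4) : TT Z 2 x =
      (((0 : ℝ) * D 0 (D 0 (Z 0)) x + (0 : ℝ) * D 0 (D 1 (Z 0)) x + (-2 : ℝ) * D 0 (D 2 (Z 0)) x + (0 : ℝ) * D 0 (D 3 (Z 0)) x) +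
      ((0 : ℝ) * D 1 (D 0 (Z 0)) x + (0 : ℝ) * D 1 (D 1 (Z 0)) x + (0 : ℝ) * D 1 (D 2 (Z 0)) x + (2 : ℝ) * D 1 (D 3 (Z 0)) x) +
      ((0 : ℝ) * D 2 (D 0 (Z 0)) x + (0 : ℝ) * D 2 (D 1 (Z 0)) x + (0 : ℝ) * D 2 (D 2 (Z 0)) x + (0 : ℝ) * D 2 (D 3 (Z 0)) x) +
      ((0 : ℝ) * D 3 (D 0 (Z 0)) x + (0 : ℝ) * D 3 (D 1 (Z 0)) x + (0 : ℝ) * D 3 (D 2 (Z 0)) x + (0 : ℝ) * D 3 (D 3 (Z 0)) x)) +
      (((0 : ℝ) * D 0 (D 0 (Z 1)) x + (2 : ℝ) * D 0 (D 1 (Z 1)) x + (0 : ℝ) * D 0 (D 2 (Z 1)) x + (0 : ℝ) * D 0 (D 3 (Z 1)) x) +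
      ((0 : ℝ) * D 1 (D 0 (Z 1)) x + (0 : ℝ) * D 1 (D 1 (Z 1)) x + (0 : ℝ) * D 1 (D 2 (Z 1)) x + (0 : ℝ) * D 1 (D 3 (Z 1)) x) +
      ((0 : ℝ) * D 2 (D 0 (Z 1)) x + (0 : ℝ) * D 2 (D 1 (Z 1)) x + (0 : ℝ) * D 2 (D 2 (Z 1)) x + (2 : ℝ) * D 2 (D 3 (Z 1)) x) +
      ((0 : ℝ) * D 3 (D 0 (Z 1)) x + (0 : ℝ) * D 3 (D 1 (Z 1)) x + (0 : ℝ) * D 3 (D 2 (Z 1)) x + (0 : ℝ) * D 3 (D 3 (Z 1)) x)) +
      (((1 : ℝ) * D 0 (D 0 (Z 2)) x + (0 : ℝ) * D 0 (D 1 (Z 2)) x + (0 : ℝ) * D 0 (D 2 (Z 2)) x + (0 : ℝ) * D 0 (D 3 (Z 2)) x) +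
      ((0 : ℝ) * D 1 (D 0 (Z 2)) x + (-1 : ℝ) * D 1 (D 1 (Z 2)) x + (0 : ℝ) * D 1 (D 2 (Z 2)) x + (0 : ℝ) * D 1 (D 3 (Z 2)) x) +
      ((0 : ℝ) * D 2 (D 0 (Z 2)) x + (0 : ℝ) * D 2 (D 1 (Z 2)) x + (-1 : ℝ) * D 2 (D 2 (Z 2)) x + (0 : ℝ) * D 2 (D 3 (Z 2)) x) +
      ((0 : ℝ) * D 3 (D 0 (Z 2)) x + (0 : ℝ) * D 3 (D 1 (Z 2)) x + (0 : ℝ) * D 3 (D 2 (Z 2)) x + (1 : ℝ) * D 3 (D 3 (Z 2)) x)) := by
  simp only [TT, Fin.sum_univ_three, Fin.sum_univ_four]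
  rfl

private theorem DDa {f g : V4 → ℝ} (hf : Sm f) (hg : Sm g) (a b : Fin 4) (x : V4) :
    D a (D b (fun x => f x + g x)) x = D a (D b f) x + D a (D b g) x := by
  have h : D b (fun x => f x + g x) = fun x => D b f x + D b g x := funext fun x => D_add hf hg b x
  rw [h, D_add (hf.D b) (hg.D b)]

private theorem DDs {f g : V4 → ℝ} (hf : Sm f) (hg : Sm g) (a b : Fin 4) (x : V4) :
    D a (D b (fun x => f x - g x)) x = D a (D b f) x - D a (D b g) x := by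
  have h : D b (fun x => f x - g x) = fun x => D b f x - D b g x := funext fun x => D_sub hf hg b x
  rw [h, D_sub (hf.D b) (hg.D b)]

/-- the derivative of the sum of three functions with sum zero -/
private theorem D3z {f g h : V4 → ℝ} (hf : Sm f) (hg : Sm g) (hh : Sm h)
    (h0 : ∀ x, f x + g x + h x = 0) (a : Fin 4) (x : V4) : D a f x + D a g x + D a h x = 0 := by
  have e : (fun x => f x + g x + h x) = fun _ : V4 => (0 : ℝ) := funext h0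
  have h1 : D a (fun x => f x + g x + h x) x = 0 := by
    rw [e]
    simp [D]
  rw [D_add (hf.add hg) hh, D_add hf hg] at h1
  exact h1

/-- the equation in terms of the entries above the diagonal -/
private theorem AC {W : V4 → M4} (hs : ∀ i j, Sm fun x => W x i j) (hc : Cl W) (i j k a : Fin 4)
    (x : V4) : D a (D i (fun y => W y j k)) x + D a (D j (fun y => W y k i)) x +
      D a (D k (fun y => W y i j)) x = 0 :=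
  D3z ((hs j k).D i) ((hs k i).D j) ((hs i j).D k) (fun x => hc x i j k) a x

private theorem Aneg {W : V4 → M4} (hk : ∀ x i j, W x i j = - W x j i) (i j a b : Fin 4) (x : V4) :
    D a (D b (fun y => W y i j)) x = - D a (D b (fun y => W y j i)) x := by
  have e : (fun y => W y i j) = fun y => - W y j i := funext fun y => hk y i j
  have e2 : D b (fun y => - W y j i) = fun y => - D b (fun y => W y j i) y :=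
    funext fun y => D_neg b y
  rw [e, e2, D_neg]

theorem lap_eq {W : V4 → M4} (hs : ∀ i j, Sm fun x => W x i j) (hk : ∀ x i j, W x i j = - W x j i)
    (hc : Cl W) (i : Fin 3) (x : V4) :
    lap (fun y => P3 (W y) i) x = TT (fun j y => Q3 (W y) j) i x := by
  have K123 := fun a => AC hs hc 1 2 3 a x
  have K012 := fun a => AC hs hc 0 1 2 a x
  have K013 := fun a => AC hs hc 0 1 3 a x
  have K023 := fun a => AC hs hc 0 2 3 a x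
  have n31 := fun a b => Aneg hk 3 1 a b x
  have n20 := fun a b => Aneg hk 2 0 a b x
  have n30 := fun a b => Aneg hk 3 0 a b x
  have p0 : ∀ a b, D a (D b fun y => P3 (W y) 0) x =
      D a (D b fun y => W y 0 1) x + D a (D b fun y => W y 2 3) x := fun a b =>
    DDa (hs 0 1) (hs 2 3) a b x
  have p1 : ∀ a b, D a (D b fun y => P3 (W y) 1) x =
      D a (D b fun y => W y 0 2) x - D a (D b fun y => W y 1 3) x := fun a b =>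
    DDs (hs 0 2) (hs 1 3) a b x
  have p2 : ∀ a b, D a (D b fun y => P3 (W y) 2) x =
      D a (D b fun y => W y 0 3) x + D a (D b fun y => W y 1 2) x := fun a b =>
    DDa (hs 0 3) (hs 1 2) a b x
  have q0 : ∀ a b, D a (D b fun y => Q3 (W y) 0) x =
      D a (D b fun y => W y 0 1) x - D a (D b fun y => W y 2 3) x := fun a b =>
    DDs (hs 0 1) (hs 2 3) a b x
  have q1 : ∀ a b, D a (D b fun y => Q3 (W y) 1) x =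
      D a (D b fun y => W y 0 2) x + D a (D b fun y => W y 1 3) x := fun a b =>
    DDa (hs 0 2) (hs 1 3) a b x
  have q2 : ∀ a b, D a (D b fun y => Q3 (W y) 2) x =
      D a (D b fun y => W y 0 3) x - D a (D b fun y => W y 1 2) x := fun a b =>
    DDs (hs 0 3) (hs 1 2) a b x
  have cm : ∀ (j k a b : Fin 4), D a (D b fun y => W y j k) x = D b (D a fun y => W y j k) x :=
    fun j k a b => D_comm (hs j k) a b x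
  have c10 := fun j k => cm j k 1 0
  have c20 := fun j k => cm j k 2 0
  have c30 := fun j k => cm j k 3 0
  have c21 := fun j k => cm j k 2 1
  have c31 := fun j k => cm j k 3 1
  have c32 := fun j k => cm j k 3 2
  fin_cases i
  · have h1 := K123 1
    have h2 := K023 0
    have h3 := K012 2
    have h4 := K013 3
    show lap (fun y => P3 (W y) 0) x = TT (fun j y => Q3 (W y) j) 0 x
    rw [AT0]
    simp only [lap, Fin.sum_univ_four, p0, q0, q1, q2]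
    simp only [n31, n20, n30, c10, c20, c30, c21, c31, c32] at h1 h2 h3 h4 ⊢
    linear_combination 2 * h1 + 2 * h2 + 2 * h3 + 2 * h4
  · have h1 := K123 2
    have h2 := K013 0
    have h3 := K023 3
    have h4 := K012 1
    show lap (fun y => P3 (W y) 1) x = TT (fun j y => Q3 (W y) j) 1 x
    rw [AT1]
    simp only [lap, Fin.sum_univ_four, p1, q0, q1, q2]
    simp only [n31, n20, n30, c10, c20, c30, c21, c31, c32] at h1 h2 h3 h4 ⊢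
    linear_combination 2 * h1 - 2 * h2 + 2 * h3 - 2 * h4
  · have h1 := K123 3
    have h2 := K012 0
    have h3 := K013 1
    have h4 := K023 2
    show lap (fun y => P3 (W y) 2) x = TT (fun j y => Q3 (W y) j) 2 x
    rw [AT2]
    simp only [lap, Fin.sum_univ_four, p2, q0, q1, q2]
    simp only [n31, n20, n30, c10, c20, c30, c21, c31, c32] at h1 h2 h3 h4 ⊢
    linear_combination 2 * h1 + 2 * h2 - 2 * h3 - 2 * h4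

end Pool.Agent.H.MP_df7994_gt.SD
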