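import Pool.Agent.H.MP_df7994_gt.SD.Defs

/-!
SD / Boot: the two abstract arguments on all scales (page, section 3). No analysis.

`boot`: let `κ = 20 k / c`. Show: if `∀ t ≥ 2 r, ∀ y, c M t y ≤ 20 ‖u t y‖` then the same for all `s ≥ r`; then
induction `r = R0 / 2 ^ n`. For `t ≥ r`: (a) `‖u (2t) y - u t y‖ ≤ C1 κ ‖u (2t) y‖`, so `‖u (2t) y‖ ≤ 3/2 ‖u t y‖`;
(b) by induction on `N`: `G t y ≤ 6 C2 κ / t * ‖u t y‖ + G (2 ^ N t) y`, and `G (2 ^ N t) y ≤ Cg / (2 ^ N t) → 0`,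
so `G t y ≤ 6 C2 κ / t * ‖u t y‖`; (c) the maximum `S` of `‖u s z‖` on the compact ball `closedBall y s`:
`S ≤ ‖u s y‖ + 6 C2 κ S ≤ ‖u s y‖ + S / 4`, so `S ≤ 4/3 ‖u s y‖`; (d) `c M s y ≤ 10 S + C3 k M (4s) y ≤
40/3 ‖u s y‖ + C3 κ ‖u (4s) y‖ ≤ (40/3 + 9/4) ‖u s y‖`.
-/

set_option autoImplicit false

namespace Pool.Agent.H.MP_df7994_gt.SD

open Set Topology Metric

variable {u : ℝ → V4 → (Fin 3 → ℝ)} {M G : ℝ → V4 → ℝ} {c k C1 C2 C3 : ℝ}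

private theorem Boot_step (hc : 0 < c) (hk : 0 ≤ k) (hC1 : 0 ≤ C1) (hC2 : 0 ≤ C2) (hC3 : 0 ≤ C3)
    (hcont : ∀ s, 0 < s → Continuous (u s))
    (h1 : ∀ s y, 0 < s → ‖u (2 * s) y - u s y‖ ≤ C1 * k * M (2 * s) y)
    (hg0 : ∀ s, 0 < s → ∀ (y : V4) (B : ℝ), 0 ≤ B → (∀ z ∈ closedBall y s, G s z ≤ B) →
      ∀ z ∈ closedBall y s, ‖u s z - u s y‖ ≤ B * s)
    (hg1 : ∀ s y, 0 < s → G s y ≤ G (2 * s) y + C2 * k * M (2 * s) y / s)
    (hg2 : ∃ C : ℝ, ∀ s y, 0 < s → G s y ≤ C / s)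
    (h3 : ∀ s y S, 0 < s → 0 ≤ S → (∀ z ∈ closedBall y s, ‖u s z‖ ≤ S) →
      c * M s y ≤ 10 * S + C3 * k * M (4 * s) y)
    (k1 : C1 * (20 * k / c) ≤ 1 / 3) (k2 : 6 * C2 * (20 * k / c) ≤ 1 / 4)
    (k3 : C3 * (20 * k / c) ≤ 1) {r : ℝ} (hr : 0 < r)
    (hP : ∀ s ≥ 2 * r, ∀ y, c * M s y ≤ 20 * ‖u s y‖) :
    ∀ s ≥ r, ∀ y, c * M s y ≤ 20 * ‖u s y‖ := by
  have hκ : 0 ≤ 20 * k / c := by positivity
  set κ : ℝ := 20 * k / c with hκd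
  have hkM : ∀ s ≥ 2 * r, ∀ y, k * M s y ≤ κ * ‖u s y‖ := by
    intro s hs y
    have h := mul_le_mul_of_nonneg_left (hP s hs y) hk
    rw [hκd, div_mul_eq_mul_div, le_div_iff₀ hc]
    linarith
  have ha : ∀ s ≥ r, ∀ y, ‖u (2 * s) y‖ ≤ 3 / 2 * ‖u s y‖ := by
    intro s hs y
    have h := h1 s y (hr.trans_le hs)
    have h2 := hkM (2 * s) (by linarith) y
    have h3' : C1 * k * M (2 * s) y ≤ 1 / 3 * ‖u (2 * s) y‖ := by
      calc C1 * k * M (2 * s) y = C1 * (k * M (2 * s) y) := by ring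
        _ ≤ C1 * (κ * ‖u (2 * s) y‖) := mul_le_mul_of_nonneg_left h2 hC1
        _ = C1 * κ * ‖u (2 * s) y‖ := by ring
        _ ≤ 1 / 3 * ‖u (2 * s) y‖ := mul_le_mul_of_nonneg_right k1 (norm_nonneg _)
    have h4 : ‖u (2 * s) y‖ ≤ ‖u s y‖ + ‖u (2 * s) y - u s y‖ := by
      have := norm_add_le (u s y) (u (2 * s) y - u s y)
      rwa [add_sub_cancel] at this
    linarith
  have hb : ∀ N : ℕ, ∀ s ≥ r, ∀ y, G s y ≤ 6 * C2 * κ / s * ‖u s y‖ + G (2 ^ N * s) y := by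
    intro N
    induction N with
    | zero =>
      intro s hs y
      have hs0 : 0 < s := hr.trans_le hs
      have : 0 ≤ 6 * C2 * κ / s * ‖u s y‖ := by positivity
      rw [pow_zero, one_mul]
      linarith
    | succ N ih =>
      intro s hs y
      have hs0 : 0 < s := hr.trans_le hs
      have e1 := hg1 s y hs0
      have e2 := ih (2 * s) (by linarith) y
      have e3 := hkM (2 * s) (by linarith) y
      have e4 := ha s hs y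
      have e5 : C2 * k * M (2 * s) y / s ≤ C2 * κ / s * (3 / 2 * ‖u s y‖) := by
        calc C2 * k * M (2 * s) y / s = C2 / s * (k * M (2 * s) y) := by ring
          _ ≤ C2 / s * (κ * ‖u (2 * s) y‖) := mul_le_mul_of_nonneg_left e3 (by positivity)
          _ = C2 * κ / s * ‖u (2 * s) y‖ := by ring
          _ ≤ C2 * κ / s * (3 / 2 * ‖u s y‖) := mul_le_mul_of_nonneg_left e4 (by positivity)
      have e6 : 6 * C2 * κ / (2 * s) * ‖u (2 * s) y‖ ≤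
          6 * C2 * κ / (2 * s) * (3 / 2 * ‖u s y‖) :=
        mul_le_mul_of_nonneg_left e4 (by positivity)
      have e7 : 6 * C2 * κ / (2 * s) * (3 / 2 * ‖u s y‖) = C2 * κ / s * (9 / 2 * ‖u s y‖) := by
        field_simp
        ring
      have e8 : 2 ^ N * (2 * s) = 2 ^ (N + 1) * s := by ring
      rw [e8] at e2
      have e9 : 6 * C2 * κ / s * ‖u s y‖ =
          C2 * κ / s * (3 / 2 * ‖u s y‖) + C2 * κ / s * (9 / 2 * ‖u s y‖) := by ring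
      linarith
  obtain ⟨Cg, hCg⟩ := hg2
  have hb' : ∀ s ≥ r, ∀ y, G s y ≤ 6 * C2 * κ / s * ‖u s y‖ := by
    intro s hs y
    have hs0 : 0 < s := hr.trans_le hs
    have hlim : Filter.Tendsto
        (fun N : ℕ => 6 * C2 * κ / s * ‖u s y‖ + Cg / s * (1 / 2 : ℝ) ^ N) Filter.atTop
        (𝓝 (6 * C2 * κ / s * ‖u s y‖ + Cg / s * 0)) :=
      ((tendsto_pow_atTop_nhds_zero_of_lt_one (by norm_num) (by norm_num)).const_mul _).const_add _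
    rw [mul_zero, add_zero] at hlim
    refine ge_of_tendsto' hlim (fun N => ?_)
    have e1 := hb N s hs y
    have e2 := hCg (2 ^ N * s) y (by positivity)
    have e3 : Cg / (2 ^ N * s) = Cg / s * (1 / 2 : ℝ) ^ N := by
      rw [one_div, inv_pow]
      field_simp
    linarith
  intro s hs y
  have hs0 : 0 < s := hr.trans_le hs
  obtain ⟨z0, hz0, hmax⟩ := (isCompact_closedBall y s).exists_isMaxOn
    ⟨y, mem_closedBall_self hs0.le⟩ (hcont s hs0).norm.continuousOn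
  have hS : ∀ z ∈ closedBall y s, ‖u s z‖ ≤ ‖u s z0‖ := fun z hz => hmax hz
  have hB : ∀ z ∈ closedBall y s, G s z ≤ 6 * C2 * κ / s * ‖u s z0‖ := fun z hz =>
    (hb' s hs z).trans (mul_le_mul_of_nonneg_left (hS z hz) (by positivity))
  have e1 := hg0 s hs0 y (6 * C2 * κ / s * ‖u s z0‖) (by positivity) hB z0 hz0
  have e2 : 6 * C2 * κ / s * ‖u s z0‖ * s = 6 * C2 * κ * ‖u s z0‖ := by
    field_simp
  have e3 : 6 * C2 * κ * ‖u s z0‖ ≤ 1 / 4 * ‖u s z0‖ :=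
    mul_le_mul_of_nonneg_right k2 (norm_nonneg _)
  have e4 : ‖u s z0‖ ≤ ‖u s y‖ + ‖u s z0 - u s y‖ := by
    have := norm_add_le (u s y) (u s z0 - u s y)
    rwa [add_sub_cancel] at this
  have e5 : ‖u s z0‖ ≤ 4 / 3 * ‖u s y‖ := by linarith
  have e6 := h3 s y ‖u s z0‖ hs0 (norm_nonneg _) hS
  have e7 : C3 * k * M (4 * s) y ≤ ‖u (4 * s) y‖ := by
    calc C3 * k * M (4 * s) y = C3 * (k * M (4 * s) y) := by ring
      _ ≤ C3 * (κ * ‖u (4 * s) y‖) :=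
        mul_le_mul_of_nonneg_left (hkM (4 * s) (by linarith) y) hC3
      _ = C3 * κ * ‖u (4 * s) y‖ := by ring
      _ ≤ 1 * ‖u (4 * s) y‖ := mul_le_mul_of_nonneg_right k3 (norm_nonneg _)
      _ = ‖u (4 * s) y‖ := one_mul _
  have e8 := ha s hs y
  have e9 := ha (2 * s) (by linarith) y
  have e10 : 2 * (2 * s) = 4 * s := by ring
  rw [e10] at e9
  have e11 := norm_nonneg (u s y)
  linarith

theorem boot (hc : 0 < c) (hk : 0 ≤ k) (hC1 : 0 ≤ C1) (hC2 : 0 ≤ C2) (hC3 : 0 ≤ C3)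
    (hM : ∀ s y, 0 ≤ M s y) (hcont : ∀ s, 0 < s → Continuous (u s))
    (h1 : ∀ s y, 0 < s → ‖u (2 * s) y - u s y‖ ≤ C1 * k * M (2 * s) y)
    (hg0 : ∀ s, 0 < s → ∀ (y : V4) (B : ℝ), 0 ≤ B → (∀ z ∈ closedBall y s, G s z ≤ B) →
      ∀ z ∈ closedBall y s, ‖u s z - u s y‖ ≤ B * s)
    (hg1 : ∀ s y, 0 < s → G s y ≤ G (2 * s) y + C2 * k * M (2 * s) y / s)
    (hg2 : ∃ C : ℝ, ∀ s y, 0 < s → G s y ≤ C / s)
    (h3 : ∀ s y S, 0 < s → 0 ≤ S → (∀ z ∈ closedBall y s, ‖u s z‖ ≤ S) →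
      c * M s y ≤ 10 * S + C3 * k * M (4 * s) y)
    (hst : ∃ R0 : ℝ, 0 < R0 ∧ ∀ s ≥ R0, ∀ y, c * M s y ≤ 20 * ‖u s y‖)
    (k1 : C1 * (20 * k / c) ≤ 1 / 3) (k2 : 6 * C2 * (20 * k / c) ≤ 1 / 4)
    (k3 : C3 * (20 * k / c) ≤ 1) :
    ∀ s, 0 < s → ∀ y, c * M s y ≤ 20 * ‖u s y‖ := by
  obtain ⟨R0, hR0, hst⟩ := hst
  have hn : ∀ n : ℕ, ∀ s ≥ R0 / 2 ^ n, ∀ y, c * M s y ≤ 20 * ‖u s y‖ := by
    intro n
    induction n with
    | zero =>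
      intro s hs
      rw [pow_zero, div_one] at hs
      exact hst s hs
    | succ n ih =>
      have e : 2 * (R0 / 2 ^ (n + 1)) = R0 / 2 ^ n := by
        rw [pow_succ]
        field_simp
      exact Boot_step hc hk hC1 hC2 hC3 hcont h1 hg0 hg1 hg2 h3 k1 k2 k3
        (by positivity) (by rw [e]; exact ih)
  intro s hs y
  obtain ⟨n, hn'⟩ : ∃ n : ℕ, R0 / 2 ^ n ≤ s := by
    obtain ⟨n, hn⟩ := exists_pow_lt_of_lt_one (show 0 < s / R0 by positivity)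
      (show (1 / 2 : ℝ) < 1 by norm_num)
    refine ⟨n, ?_⟩
    rw [one_div, inv_pow] at hn
    rw [div_eq_mul_inv]
    have h5 := (mul_lt_mul_of_pos_left hn hR0).le
    rwa [mul_div_cancel₀ _ hR0.ne'] at h5
  exact hn n s hn' y

end Pool.Agent.H.MP_df7994_gt.SD
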