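import Pool.Agent.H.MP_df7994_gt.SD.Defs

/-!
SD / CalcL: basic calculus lemmas on `D`, `Sm` and `Wf`. All are short.
-/

set_option autoImplicit false

namespace Pool.Agent.H.MP_df7994_gt.SD

open Set Topology MeasureTheory Metric

theorem Sm.D {f : V4 → ℝ} (hf : Sm f) (i : Fin 4) : Sm (SD.D i f) := by
  have h : ContDiff ℝ ((⊤ : ℕ∞) : WithTop ℕ∞) (fderiv ℝ f) :=
    ContDiff.fderiv_right hf (by simp)
  exact h.clm_apply contDiff_const

theorem Sm.diff {f : V4 → ℝ} (hf : Sm f) : Differentiable ℝ f :=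
  ContDiff.differentiable hf (by simp)

theorem Sm.cont {f : V4 → ℝ} (hf : Sm f) : Continuous f := hf.diff.continuous

theorem D_comm {f : V4 → ℝ} (hf : Sm f) (i j : Fin 4) (x : V4) : D i (D j f) x = D j (D i f) x := by
  have h : ContDiff ℝ ((⊤ : ℕ∞) : WithTop ℕ∞) (fderiv ℝ f) :=
    ContDiff.fderiv_right hf (by simp)
  have hd : DifferentiableAt ℝ (fderiv ℝ f) x := (h.differentiable (by simp)) x
  have key : ∀ i j : Fin 4, D i (D j f) x =
      fderiv ℝ (fderiv ℝ f) x (Pi.single i 1) (Pi.single j 1) := by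
    intro i j
    have h1 : HasFDerivAt (D j f) ((fderiv ℝ (fderiv ℝ f) x).flip (Pi.single j 1)) x := by
      have h2 := hd.hasFDerivAt.clm_apply (hasFDerivAt_const (Pi.single j 1 : V4) x)
      refine h2.congr_fderiv ?_
      ext v
      simp
    show fderiv ℝ (D j f) x (Pi.single i 1) = _
    rw [h1.fderiv]
    rfl
  rw [key, key]
  refine (ContDiffAt.isSymmSndFDerivAt (ContDiff.contDiffAt hf) ?_).eq _ _
  rw [minSmoothness_of_isRCLikeNormedField]
  exact WithTop.coe_le_coe.2 (le_top : (2 : ℕ∞) ≤ ⊤)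

theorem D_add {f g : V4 → ℝ} (hf : Sm f) (hg : Sm g) (i : Fin 4) (x : V4) :
    D i (fun x => f x + g x) x = D i f x + D i g x := by
  unfold D
  have h : HasFDerivAt (fun x => f x + g x) (fderiv ℝ f x + fderiv ℝ g x) x :=
    (hf.diff x).hasFDerivAt.add (hg.diff x).hasFDerivAt
  rw [h.fderiv]
  rfl

theorem D_sub {f g : V4 → ℝ} (hf : Sm f) (hg : Sm g) (i : Fin 4) (x : V4) :
    D i (fun x => f x - g x) x = D i f x - D i g x := by
  unfold D
  have h : HasFDerivAt (fun x => f x - g x) (fderiv ℝ f x - fderiv ℝ g x) x :=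
    (hf.diff x).hasFDerivAt.sub (hg.diff x).hasFDerivAt
  rw [h.fderiv]
  rfl

theorem D_neg {f : V4 → ℝ} (i : Fin 4) (x : V4) : D i (fun x => - f x) x = - D i f x := by
  unfold D
  have h : fderiv ℝ (fun x => - f x) x = - fderiv ℝ f x := fderiv_neg
  rw [h]
  rfl

theorem D_cmul {f : V4 → ℝ} (hf : Sm f) (c : ℝ) (i : Fin 4) (x : V4) :
    D i (fun x => c * f x) x = c * D i f x := by
  unfold D
  rw [((hf.diff x).hasFDerivAt.const_mul c).fderiv]
  rfl

theorem D_mul {f g : V4 → ℝ} (hf : Sm f) (hg : Sm g) (i : Fin 4) (x : V4) :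
    D i (fun x => f x * g x) x = D i f x * g x + f x * D i g x := by
  unfold D
  have h : HasFDerivAt (fun x => f x * g x) (f x • fderiv ℝ g x + g x • fderiv ℝ f x) x :=
    (hf.diff x).hasFDerivAt.mul (hg.diff x).hasFDerivAt
  rw [h.fderiv]
  show f x * fderiv ℝ g x _ + g x * fderiv ℝ f x _ = _
  ring

/-- derivatives depend only on the germ -/
theorem D_congr {f g : V4 → ℝ} {U : Set V4} (hU : IsOpen U) (h : ∀ x ∈ U, f x = g x) (i : Fin 4) :
    ∀ x ∈ U, D i f x = D i g x := by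
  intro x hx
  unfold D
  have h1 : f =ᶠ[𝓝 x] g := Filter.eventually_of_mem (hU.mem_nhds hx) h
  rw [h1.fderiv_eq]

theorem Sm.add {f g : V4 → ℝ} (hf : Sm f) (hg : Sm g) : Sm fun x => f x + g x :=
  ContDiff.add hf hg

theorem Sm.sub {f g : V4 → ℝ} (hf : Sm f) (hg : Sm g) : Sm fun x => f x - g x :=
  ContDiff.sub hf hg

theorem Sm.neg {f : V4 → ℝ} (hf : Sm f) : Sm fun x => - f x :=
  ContDiff.neg hf

theorem Sm.cmul {f : V4 → ℝ} (hf : Sm f) (c : ℝ) : Sm fun x => c * f x :=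
  ContDiff.mul contDiff_const hf

theorem Sm.mul {f g : V4 → ℝ} (hf : Sm f) (hg : Sm g) : Sm fun x => f x * g x :=
  ContDiff.mul hf hg

theorem Wf.D {m : V4 → ℝ} (hm : Wf m) (i : Fin 4) : Wf (SD.D i m) := by
  refine ⟨hm.sm.D i, fun w hw => ?_⟩
  have hU : IsOpen {w : V4 | 1 < ‖w‖} := isOpen_lt continuous_const continuous_norm
  have h := D_congr (g := fun _ => (0 : ℝ)) hU (fun x hx => hm.supp x hx) i w hw
  rw [h]
  unfold SD.D
  rw [(hasFDerivAt_const (0 : ℝ) w).fderiv]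
  rfl

theorem Wf.compact {m : V4 → ℝ} (hm : Wf m) : HasCompactSupport m := by
  refine HasCompactSupport.intro (isCompact_closedBall (0 : V4) 1) fun x hx => hm.supp x ?_
  rw [mem_closedBall_zero_iff, not_le] at hx
  exact hx

theorem Wf.bound {m : V4 → ℝ} (hm : Wf m) : ∃ C : ℝ, 0 ≤ C ∧ ∀ w, |m w| ≤ C := by
  obtain ⟨C, hC⟩ := hm.compact.exists_bound_of_continuous hm.sm.cont
  exact ⟨C, (norm_nonneg _).trans (hC 0), hC⟩

theorem Wf.integrable {m : V4 → ℝ} (hm : Wf m) : Integrable m :=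
  hm.sm.cont.integrable_of_hasCompactSupport hm.compact

end Pool.Agent.H.MP_df7994_gt.SD
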