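import Pool.Agent.H.MP_df7994_gt.SD.SizeZ

/-!
SD / SizeA: size of averages against the square mean `Mr`.
`av_size`: `|∫ m(w) g(y + t w) dw| ≤ C ∫_{‖w‖ ≤ 1} |g(y + t w)| dw ≤ C * 4 * (∫_{‖w‖ ≤ 1} g(y + t w)^2)^{1/2}`
(volume of the closed unit ball of the sup norm is `2^4 = 16`; Cauchy-Schwarz) `= 4 C (t^{-4} ∫_{closedBall y t} g^2)^{1/2}`
and `closedBall y t ⊆ closedBall y (2 s)`, `t^{-4} ≤ 16 (2 s)^{-4}` for `s ≤ t`.
-/

set_option autoImplicit false

namespace Pool.Agent.H.MP_df7994_gt.SD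

open Set Topology MeasureTheory Metric

private theorem SizeA_chg (m g : V4 → ℝ) {t : ℝ} (ht : 0 < t) (y : V4) :
    av m t g y = (t ^ 4)⁻¹ * ∫ z, m (t⁻¹ • (z - y)) * g z := by
  unfold av
  have e := MeasureTheory.Measure.integral_comp_smul (volume : Measure V4)
    (fun w => m (t⁻¹ • w) * g (y + w)) t
  have e2 : ∫ w : V4, m (t⁻¹ • w) * g (y + w) = ∫ z, m (t⁻¹ • (z - y)) * g z := by
    rw [← integral_add_left_eq_self (μ := (volume : Measure V4))
      (fun z => m (t⁻¹ • (z - y)) * g z) y]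
    simp only [add_sub_cancel_left]
  have hfr : Module.finrank ℝ V4 = 4 := Module.finrank_fin_fun ℝ
  rw [e2, hfr, abs_of_pos (inv_pos.2 (pow_pos ht 4)), smul_eq_mul] at e
  rw [← e]
  refine integral_congr_ae (Filter.Eventually.of_forall fun w => ?_)
  simp only [inv_smul_smul₀ ht.ne']

private theorem SizeA_cs {g : V4 → ℝ} (hg : Continuous g) {t : ℝ} (ht : 0 < t) (y : V4) :
    (∫ z in closedBall y t, |g z|) ^ 2 ≤ (2 * t) ^ 4 * ∫ z in closedBall y t, g z ^ 2 := by
  set A := ∫ z in closedBall y t, |g z| with hA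
  set B := ∫ z in closedBall y t, g z ^ 2 with hB
  have hV : (volume (closedBall y t)).toReal = (2 * t) ^ 4 := vol_ball y ht.le
  have hcomp : IsCompact (closedBall y t) := isCompact_closedBall y t
  have i1 : IntegrableOn (fun z => |g z|) (closedBall y t) :=
    hg.abs.continuousOn.integrableOn_compact hcomp
  have i2 : IntegrableOn (fun z => g z ^ 2) (closedBall y t) :=
    (hg.pow 2).continuousOn.integrableOn_compact hcomp
  have i0 : IntegrableOn (fun _ : V4 => A ^ 2) (closedBall y t) :=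
    continuousOn_const.integrableOn_compact hcomp
  have hpos : 0 < (2 * t) ^ 4 := pow_pos (by linarith) 4
  have h0 : 0 ≤ ∫ z in closedBall y t, ((2 * t) ^ 4 * |g z| - A) ^ 2 :=
    integral_nonneg fun z => sq_nonneg _
  have h1 : ∫ z in closedBall y t, ((2 * t) ^ 4 * |g z| - A) ^ 2 =
      ((2 * t) ^ 4) ^ 2 * B - 2 * (2 * t) ^ 4 * A * A + (2 * t) ^ 4 * A ^ 2 := by
    have e : ∀ z, ((2 * t) ^ 4 * |g z| - A) ^ 2 =
        ((2 * t) ^ 4) ^ 2 * g z ^ 2 - 2 * (2 * t) ^ 4 * A * |g z| + A ^ 2 := by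
      intro z
      rw [sub_sq, mul_pow, sq_abs]
      ring
    have i3 : IntegrableOn (fun z => ((2 * t) ^ 4) ^ 2 * g z ^ 2) (closedBall y t) :=
      i2.const_mul _
    have i4 : IntegrableOn (fun z => 2 * (2 * t) ^ 4 * A * |g z|) (closedBall y t) :=
      i1.const_mul _
    have i5 : IntegrableOn (fun z => ((2 * t) ^ 4) ^ 2 * g z ^ 2 - 2 * (2 * t) ^ 4 * A * |g z|)
      (closedBall y t) := i3.sub i4
    simp only [e]
    rw [integral_add i5 i0, integral_sub i3 i4, integral_const_mul, integral_const_mul,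
      integral_const, ← hA, ← hB, smul_eq_mul, Measure.real, Measure.restrict_apply_univ, hV]
  rw [h1] at h0
  have h3 : 0 ≤ (2 * t) ^ 4 * ((2 * t) ^ 4 * B - A ^ 2) := by nlinarith [h0]
  have h4 := nonneg_of_mul_nonneg_right h3 hpos
  linarith

theorem av_size {m : V4 → ℝ} (hm : Wf m) {C : ℝ} (hC : ∀ w, |m w| ≤ C) {p q : Fin 3 → V4 → ℝ}
    (hp : ∀ i, Continuous (p i)) (hq : ∀ i, Continuous (q i)) {k : ℝ} (hk : 0 ≤ k) (hpq : Pinch k p q)
    {s t : ℝ} (hs : 0 < s) (hst : s ≤ t) (ht : t ≤ 2 * s) (j : Fin 3) (y : V4) :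
    |av m t (q j) y| ≤ 16 * C * k * Mr p (2 * s) y := by
  have ht0 : 0 < t := lt_of_lt_of_le hs hst
  have hC0 : 0 ≤ C := (abs_nonneg _).trans (hC 0)
  have hM := Mr_nonneg p (2 * s) y
  have hMsq := Mr_sq (g := p) (r := 2 * s) (by linarith) y
  have hcomp : IsCompact (closedBall y t) := isCompact_closedBall y t
  have hsub : closedBall y t ⊆ closedBall y (2 * s) := closedBall_subset_closedBall ht
  set A := ∫ z in closedBall y t, |q j z| with hA
  have hA0 : 0 ≤ A := integral_nonneg fun z => abs_nonneg _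
  -- the bound by the mean of the absolute value
  have h2 : |∫ z, m (t⁻¹ • (z - y)) * q j z| ≤ C * A := by
    have e1 : ∫ z, m (t⁻¹ • (z - y)) * q j z =
        ∫ z in closedBall y t, m (t⁻¹ • (z - y)) * q j z := by
      refine (setIntegral_eq_integral_of_forall_compl_eq_zero fun z hz => ?_).symm
      rw [mem_closedBall, not_le, dist_eq_norm] at hz
      rw [hm.supp, zero_mul]
      rw [norm_smul, norm_inv, Real.norm_eq_abs, abs_of_pos ht0, ← div_eq_inv_mul]
      exact (one_lt_div ht0).2 hz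
    rw [e1]
    calc |∫ z in closedBall y t, m (t⁻¹ • (z - y)) * q j z|
        ≤ ∫ z in closedBall y t, |m (t⁻¹ • (z - y)) * q j z| := abs_integral_le_integral_abs
      _ ≤ ∫ z in closedBall y t, C * |q j z| := by
          refine integral_mono_of_nonneg (Filter.Eventually.of_forall fun z => abs_nonneg _)
            (((hq j).abs.continuousOn.integrableOn_compact hcomp).const_mul C)
            (Filter.Eventually.of_forall fun z => ?_)
          change |m (t⁻¹ • (z - y)) * q j z| ≤ C * |q j z|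
          rw [abs_mul]
          exact mul_le_mul_of_nonneg_right (hC _) (abs_nonneg _)
      _ = C * A := by rw [integral_const_mul]
  -- the square mean
  have iq : IntegrableOn (fun z => q j z ^ 2) (closedBall y t) :=
    ((hq j).pow 2).continuousOn.integrableOn_compact hcomp
  have hcp : Continuous fun z => ∑ i, p i z ^ 2 :=
    continuous_finsetSum _ fun i _ => (hp i).pow 2
  have ip : IntegrableOn (fun z => ∑ i, p i z ^ 2) (closedBall y (2 * s)) :=
    hcp.continuousOn.integrableOn_compact (isCompact_closedBall y (2 * s))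
  have h3 : ∫ z in closedBall y t, q j z ^ 2 ≤
      k ^ 2 * ∫ z in closedBall y (2 * s), ∑ i, p i z ^ 2 := by
    calc ∫ z in closedBall y t, q j z ^ 2
        ≤ ∫ z in closedBall y t, k ^ 2 * ∑ i, p i z ^ 2 := by
          refine integral_mono iq ((ip.mono_set hsub).const_mul _) fun z => ?_
          refine (Finset.single_le_sum (f := fun i => q i z ^ 2) (fun i _ => sq_nonneg _)
            (Finset.mem_univ j)).trans (hpq z)
      _ = k ^ 2 * ∫ z in closedBall y t, ∑ i, p i z ^ 2 := by rw [integral_const_mul]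
      _ ≤ k ^ 2 * ∫ z in closedBall y (2 * s), ∑ i, p i z ^ 2 := by
          refine mul_le_mul_of_nonneg_left ?_ (sq_nonneg k)
          exact setIntegral_mono_set ip
            (Filter.Eventually.of_forall fun z => Finset.sum_nonneg fun i _ => sq_nonneg _)
            (Filter.Eventually.of_forall hsub)
  have hI : ∫ z in closedBall y (2 * s), ∑ i, p i z ^ 2 = (2 * s) ^ 4 * Mr p (2 * s) y ^ 2 := by
    rw [hMsq]
    have : (2 * s) ^ 4 ≠ 0 := (pow_pos (by linarith) 4).ne'
    field_simp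
  have h4 : A ≤ (2 * t) ^ 2 * (2 * s) ^ 2 * k * Mr p (2 * s) y := by
    have h5 : A ^ 2 ≤ ((2 * t) ^ 2 * (2 * s) ^ 2 * k * Mr p (2 * s) y) ^ 2 := by
      calc A ^ 2 ≤ (2 * t) ^ 4 * ∫ z in closedBall y t, q j z ^ 2 := SizeA_cs (hq j) ht0 y
        _ ≤ (2 * t) ^ 4 * (k ^ 2 * ∫ z in closedBall y (2 * s), ∑ i, p i z ^ 2) :=
            mul_le_mul_of_nonneg_left h3 (pow_nonneg (by linarith) 4)
        _ = ((2 * t) ^ 2 * (2 * s) ^ 2 * k * Mr p (2 * s) y) ^ 2 := by
            rw [hI]
            ring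
    exact le_of_sq_le_sq h5 (by positivity)
  rw [SizeA_chg m (q j) ht0 y, abs_mul, abs_of_pos (inv_pos.2 (pow_pos ht0 4))]
  calc (t ^ 4)⁻¹ * |∫ z, m (t⁻¹ • (z - y)) * q j z|
      ≤ (t ^ 4)⁻¹ * (C * ((2 * t) ^ 2 * (2 * s) ^ 2 * k * Mr p (2 * s) y)) := by
        refine mul_le_mul_of_nonneg_left (h2.trans (mul_le_mul_of_nonneg_left h4 hC0)) ?_
        exact (inv_pos.2 (pow_pos ht0 4)).le
    _ = 16 * C * k * Mr p (2 * s) y * (s / t) ^ 2 := by
        field_simp
        ring
    _ ≤ 16 * C * k * Mr p (2 * s) y * 1 := by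
        refine mul_le_mul_of_nonneg_left ?_ (by positivity)
        exact pow_le_one₀ (by positivity) ((div_le_one ht0).2 hst)
    _ = 16 * C * k * Mr p (2 * s) y := mul_one _

end Pool.Agent.H.MP_df7994_gt.SD
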