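import Pool.Agent.H.MP_df7994_gt.SD.SizeZ

/-!
SD / SizeB: doubling.
`Mr_double`: the closed ball (a cube) of radius `2 s` is the union of the 16 closed balls of radius `s` around
`y + s σ`, `σ ∈ {-1, 1}^4`; so `∫_{B(y,2s)} f ≤ ∑_σ ∫_{B(y + s σ, s)} f ≤ 16 s^4 B^2`.
-/

set_option autoImplicit false

namespace Pool.Agent.H.MP_df7994_gt.SD

open Set Topology MeasureTheory Metric

theorem Mr_double {p : Fin 3 → V4 → ℝ} (hp : ∀ i, Continuous (p i)) {s : ℝ} (hs : 0 < s) {B : ℝ}
    (hB : ∀ z, Mr p s z ≤ B) (y : V4) : Mr p (2 * s) y ≤ B := by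
  classical
  have hB0 : 0 ≤ B := (Real.sqrt_nonneg _).trans (hB y)
  obtain ⟨f, hf⟩ : ∃ f : V4 → ℝ, f = fun z => ∑ j, p j z ^ 2 := ⟨_, rfl⟩
  have hfc : Continuous f := by
    rw [hf]
    exact continuous_finsetSum _ fun j _ => (hp j).pow 2
  have hf0 : ∀ z, 0 ≤ f z := by
    intro z
    rw [hf]
    exact Finset.sum_nonneg fun j _ => sq_nonneg _
  obtain ⟨c, hc⟩ : ∃ c : (Fin 4 → Bool) → V4,
      c = fun σ i => y i + (if σ i = true then s else -s) := ⟨_, rfl⟩
  have hint : ∀ (x : V4) (r : ℝ), IntegrableOn f (closedBall x r) volume := fun x r =>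
    hfc.continuousOn.integrableOn_compact (isCompact_closedBall x r)
  have hsub : closedBall y (2 * s) ⊆ ⋃ σ : Fin 4 → Bool, closedBall (c σ) s := by
    intro z hz
    rw [mem_closedBall, dist_pi_le_iff (by linarith)] at hz
    rw [mem_iUnion]
    refine ⟨fun i => decide (y i ≤ z i), ?_⟩
    rw [mem_closedBall, dist_pi_le_iff hs.le]
    intro i
    have h1 := hz i
    rw [Real.dist_eq, abs_le] at h1
    rw [Real.dist_eq, abs_le, hc]
    by_cases h2 : y i ≤ z i
    · simp only [h2, decide_true, if_true]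
      constructor <;> linarith [h1.1, h1.2]
    · simp only [h2, decide_false, Bool.false_eq_true, if_false]
      rw [not_le] at h2
      constructor <;> linarith [h1.1, h1.2]
  have hmeas : volume.restrict (closedBall y (2 * s)) ≤
      ∑ σ : Fin 4 → Bool, volume.restrict (closedBall (c σ) s) := by
    rw [← Measure.sum_fintype]
    exact (Measure.restrict_mono hsub le_rfl).trans Measure.restrict_iUnion_le
  have hintσ : Integrable f (∑ σ : Fin 4 → Bool, volume.restrict (closedBall (c σ) s)) :=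
    integrable_finsetSum_measure.2 fun σ _ => hint (c σ) s
  have h1 : ∫ z in closedBall y (2 * s), f z ≤
      ∑ σ : Fin 4 → Bool, ∫ z in closedBall (c σ) s, f z := by
    rw [← integral_finsetSum_measure fun σ _ => hint (c σ) s]
    exact integral_mono_measure hmeas (Filter.Eventually.of_forall hf0) hintσ
  have h2 : ∀ σ : Fin 4 → Bool, ∫ z in closedBall (c σ) s, f z ≤ s ^ 4 * B ^ 2 := by
    intro σ
    have h3 := (Real.sqrt_le_iff.1 (hB (c σ))).2
    rw [div_le_iff₀ (by positivity)] at h3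
    rw [hf]
    linarith
  have h4 : ∫ z in closedBall y (2 * s), f z ≤ 16 * (s ^ 4 * B ^ 2) := by
    refine h1.trans ((Finset.sum_le_sum fun σ _ => h2 σ).trans ?_)
    rw [Finset.sum_const, Finset.card_univ]
    simp
  rw [Mr, Real.sqrt_le_iff]
  refine ⟨hB0, ?_⟩
  rw [div_le_iff₀ (by positivity)]
  rw [hf] at h4
  calc ∫ z in closedBall y (2 * s), ∑ j, p j z ^ 2 ≤ 16 * (s ^ 4 * B ^ 2) := h4
    _ = B ^ 2 * (2 * s) ^ 4 := by ring

end Pool.Agent.H.MP_df7994_gt.SD
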