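import Pool.Agent.H.MP_df7994_gt.SD.Defs

/-!
SD / Start: the estimate at large scales, abstract form. No analysis.
`start`: `Ms = sup_y M s y` (bounded): `c Ms ≤ 10 (‖u s y‖ + e) + C3 k Ms` for every `y` (`h3` with
`S = ‖u s y‖ + e`, `M (4s) ≤ Ms` by `hdbl` twice), `C3 k ≤ c / 4`, `10 e ≤ c m0 / 4 ≤ c Ms / 4`.
-/

set_option autoImplicit false

namespace Pool.Agent.H.MP_df7994_gt.SD

open Set Topology Metric

variable {u : ℝ → V4 → (Fin 3 → ℝ)} {M G : ℝ → V4 → ℝ} {c k C1 C2 C3 : ℝ}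

theorem start (hc : 0 < c) (hk : 0 ≤ k) (hC3 : 0 ≤ C3)
    (h3 : ∀ s y S, 0 < s → 0 ≤ S → (∀ z ∈ closedBall y s, ‖u s z‖ ≤ S) →
      c * M s y ≤ 10 * S + C3 * k * M (4 * s) y)
    (hnear : ∀ e > 0, ∃ R0 : ℝ, 0 < R0 ∧ ∀ s ≥ R0, ∀ y z, ‖u s y - u s z‖ ≤ e)
    {m0 : ℝ} (hm0 : 0 < m0) (hlow : ∀ s y, 0 < s → m0 ≤ M s y)
    (hup : ∃ B : ℝ, ∀ s y, 0 < s → M s y ≤ B)
    (hdbl : ∀ s B, 0 < s → (∀ z, M s z ≤ B) → ∀ y, M (2 * s) y ≤ B)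
    (k3 : C3 * k ≤ c / 4) :
    ∃ R0 : ℝ, 0 < R0 ∧ ∀ s ≥ R0, ∀ y, c * M s y ≤ 20 * ‖u s y‖ := by
  have he : 0 < c * m0 / 40 := by positivity
  obtain ⟨R0, hR0, hR⟩ := hnear _ he
  obtain ⟨B, hB⟩ := hup
  refine ⟨R0, hR0, fun s hs y0 => ?_⟩
  have hs0 : 0 < s := lt_of_lt_of_le hR0 hs
  have hbdd : BddAbove (Set.range fun y => M s y) := ⟨B, by rintro _ ⟨y, rfl⟩; exact hB s y hs0⟩
  have hle : ∀ z, M s z ≤ ⨆ y, M s y := fun z => le_ciSup hbdd z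
  set Ms : ℝ := ⨆ y, M s y with hMs
  have h2 : ∀ z, M (2 * s) z ≤ Ms := hdbl s Ms hs0 hle
  have h4 : ∀ z, M (4 * s) z ≤ Ms := by
    intro z
    have h := hdbl (2 * s) Ms (by positivity) h2 z
    have e : 2 * (2 * s) = 4 * s := by ring
    rwa [e] at h
  have hm : m0 ≤ Ms := (hlow s y0 hs0).trans (hle y0)
  have hMs0 : 0 ≤ Ms := hm0.le.trans hm
  have hS : ∀ z, ‖u s z‖ ≤ ‖u s y0‖ + c * m0 / 40 := by
    intro z
    have h := norm_add_le (u s y0) (u s z - u s y0)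
    have h' := hR s hs z y0
    rw [add_sub_cancel] at h
    linarith
  have hS0 : 0 ≤ ‖u s y0‖ + c * m0 / 40 := add_nonneg (norm_nonneg _) he.le
  have hk4 : C3 * k * Ms ≤ c / 4 * Ms := mul_le_mul_of_nonneg_right k3 hMs0
  have hall : ∀ y, M s y ≤ (10 * (‖u s y0‖ + c * m0 / 40) + c / 4 * Ms) / c := by
    intro y
    rw [le_div_iff₀ hc]
    have h := h3 s y _ hs0 hS0 (fun z _ => hS z)
    have h' : C3 * k * M (4 * s) y ≤ C3 * k * Ms :=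
      mul_le_mul_of_nonneg_left (h4 y) (mul_nonneg hC3 hk)
    linarith
  have hsup : Ms ≤ (10 * (‖u s y0‖ + c * m0 / 40) + c / 4 * Ms) / c := ciSup_le hall
  rw [le_div_iff₀ hc] at hsup
  have h5 : c * m0 ≤ c * Ms := mul_le_mul_of_nonneg_left hm hc.le
  have h6 : c * M s y0 ≤ c * Ms := mul_le_mul_of_nonneg_left (hle y0) hc.le
  linarith

end Pool.Agent.H.MP_df7994_gt.SD
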