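import Pool.Agent.H.MP_df7994_gt.SD.StepG
import Pool.Agent.H.MP_df7994_gt.SD.SizeA

/-!
SD / StepA: the step estimates. `step_one`: `step_gen` with `f = p i`, `g = q`, and `av_size` for the weights
`D b (D a h)` (`Wf.D`, `Wf.bound`; take the sum of the 16 bounds). `step_two`: `D l (av φ r (p i)) = av φ r (D l (p i))`
(`av_der`), `step_gen` with `f = D l (p i)`, `g j = D l (q j)` (`Pair.deq`), and
`t * av (D b (D a h)) t (D l (q j)) = - av (D l (D b (D a h))) t (q j)` (`av_D`), `av_size`.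
-/

set_option autoImplicit false

namespace Pool.Agent.H.MP_df7994_gt.SD

open Set Topology MeasureTheory Metric

variable {h φ : V4 → ℝ}

private theorem StepA_sum {ι : Type} (S : Finset ι) {f : ι → V4 → ℝ} (hf : ∀ i, Sm (f i))
    (l : Fin 4) (x : V4) : D l (fun x => ∑ i ∈ S, f i x) x = ∑ i ∈ S, D l (f i) x := by
  unfold D
  rw [fderiv_fun_sum fun i _ => (hf i).diff.differentiableAt, ContinuousLinearMap.sum_apply]

private theorem StepA_sm {ι : Type} (S : Finset ι) {f : ι → V4 → ℝ} (hf : ∀ i, Sm (f i)) :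
    Sm fun x => ∑ i ∈ S, f i x := by
  unfold Sm
  exact ContDiff.sum fun i _ => hf i

private theorem StepA_comm3 {f : V4 → ℝ} (hf : Sm f) (a b l : Fin 4) (x : V4) :
    D a (D b (D l f)) x = D l (D a (D b f)) x := by
  have h1 : D b (D l f) = D l (D b f) := funext fun z => D_comm hf b l z
  rw [h1]
  exact D_comm (hf.D b) a l x

/-- the derivative of the equation -/
theorem Pair.deq {p q : Fin 3 → V4 → ℝ} (P : Pair p q) (l : Fin 4) (i : Fin 3) (x : V4) :
    lap (D l (p i)) x = TT (fun j => D l (q j)) i x := by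
  have h1 : lap (D l (p i)) x = D l (lap (p i)) x := by
    have e : lap (p i) = fun x => ∑ a, D a (D a (p i)) x := rfl
    rw [e, StepA_sum _ fun a => ((P.pn i).sm.D a).D a]
    exact Finset.sum_congr rfl fun a _ => StepA_comm3 (P.pn i).sm a a l x
  have h2 : lap (p i) = TT q i := funext fun z => P.eq i z
  rw [h1, h2]
  have e : TT q i = fun x => ∑ j, ∑ a, ∑ b, tau i j a b * D a (D b (q j)) x := rfl
  have s1 : ∀ (j : Fin 3) (a b : Fin 4), Sm fun x => tau i j a b * D a (D b (q j)) x :=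
    fun j a b => (((P.qn j).sm.D b).D a).cmul _
  have s2 : ∀ (j : Fin 3) (a : Fin 4), Sm fun x => ∑ b, tau i j a b * D a (D b (q j)) x :=
    fun j a => StepA_sm _ fun b => s1 j a b
  have s3 : ∀ j : Fin 3, Sm fun x => ∑ a, ∑ b, tau i j a b * D a (D b (q j)) x :=
    fun j => StepA_sm _ fun a => s2 j a
  rw [e, StepA_sum _ s3]
  unfold TT
  refine Finset.sum_congr rfl fun j _ => ?_
  rw [StepA_sum _ (s2 j)]
  refine Finset.sum_congr rfl fun a _ => ?_
  rw [StepA_sum _ (s1 j a)]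
  refine Finset.sum_congr rfl fun b _ => ?_
  rw [D_cmul (((P.qn j).sm.D b).D a)]
  rw [StepA_comm3 (P.qn j).sm a b l x]

/-- a common bound for finitely many weights -/
private theorem StepA_bound {ι : Type} [Fintype ι] {m : ι → V4 → ℝ} (hm : ∀ i, Wf (m i)) :
    ∃ C : ℝ, 0 ≤ C ∧ ∀ i w, |m i w| ≤ C := by
  choose c hc0 hc using fun i => (hm i).bound
  refine ⟨∑ i, c i, Finset.sum_nonneg fun i _ => hc0 i, fun i w => (hc i w).trans ?_⟩
  exact Finset.single_le_sum (f := c) (fun j _ => hc0 j) (Finset.mem_univ i)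

/-- the first step estimate -/
theorem step_one (W : Wt h φ) : ∃ C : ℝ, 0 ≤ C ∧ ∀ (p q : Fin 3 → V4 → ℝ) (k : ℝ), Pair p q → 0 ≤ k →
    Pinch k p q → ∀ (s : ℝ) (y : V4) (i : Fin 3), 0 < s →
      |av φ (2 * s) (p i) y - av φ s (p i) y| ≤ C * k * Mr p (2 * s) y := by
  obtain ⟨C, hC0, hC⟩ := StepA_bound (ι := Fin 4 × Fin 4) (m := fun z => D z.2 (D z.1 h))
    fun z => (W.hf.D z.1).D z.2
  refine ⟨768 * C, by positivity, fun p q k P hk hpq s y i hs => ?_⟩
  have h1 := step_gen W (P.pn i) P.qn (P.eq i) (B := 16 * C * k * Mr p (2 * s) y) hs y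
    fun t ht j a b => av_size ((W.hf.D a).D b) (fun w => hC (a, b) w) (fun i => (P.pn i).sm.cont)
      (fun i => (P.qn i).sm.cont) hk hpq hs ht.1 ht.2 j y
  refine h1.trans (le_of_eq ?_)
  ring

/-- the second step estimate -/
theorem step_two (W : Wt h φ) : ∃ C : ℝ, 0 ≤ C ∧ ∀ (p q : Fin 3 → V4 → ℝ) (k : ℝ), Pair p q → 0 ≤ k →
    Pinch k p q → ∀ (s : ℝ) (y : V4) (i : Fin 3) (l : Fin 4), 0 < s →
      |D l (av φ (2 * s) (p i)) y - D l (av φ s (p i)) y| ≤ C * k * Mr p (2 * s) y / s := by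
  obtain ⟨C, hC0, hC⟩ := StepA_bound (ι := Fin 4 × Fin 4 × Fin 4)
    (m := fun z => D z.2.2 (D z.2.1 (D z.1 h))) fun z => ((W.hf.D z.1).D z.2.1).D z.2.2
  refine ⟨768 * C, by positivity, fun p q k P hk hpq s y i l hs => ?_⟩
  rw [av_der W.φf (P.pn i), av_der W.φf (P.pn i)]
  have hM : 0 ≤ 16 * C * k * Mr p (2 * s) y := by
    have := Mr_nonneg p (2 * s) y
    positivity
  have h1 := step_gen W ((P.pn i).D l) (g := fun j => D l (q j)) (fun j => (P.qn j).D l)
    (P.deq l i) (B := 16 * C * k * Mr p (2 * s) y / s) hs y (fun t ht j a b => by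
      have ht0 : 0 < t := lt_of_lt_of_le hs ht.1
      have h2 := av_D ((W.hf.D a).D b) (P.qn j).sm l t y
      have h3 := av_size (((W.hf.D a).D b).D l) (fun w => hC (a, b, l) w)
        (fun i => (P.pn i).sm.cont) (fun i => (P.qn i).sm.cont) hk hpq hs ht.1 ht.2 j y
      have h4 : t * |av (D b (D a h)) t (D l (q j)) y| ≤ 16 * C * k * Mr p (2 * s) y := by
        rw [← abs_of_pos ht0, ← abs_mul, abs_of_pos ht0, h2, abs_neg]
        exact h3
      rw [le_div_iff₀ hs]
      refine le_trans ?_ h4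
      rw [mul_comm]
      exact mul_le_mul_of_nonneg_right ht.1 (abs_nonneg _))
  refine h1.trans (le_of_eq ?_)
  ring

end Pool.Agent.H.MP_df7994_gt.SD
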