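import Pool.Agent.H.MP_df7994_gt.SD.Rad

/-!
SD / StepB: decay of the gradient of averages, averages are nearly constant at large scales.
-/

set_option autoImplicit false

namespace Pool.Agent.H.MP_df7994_gt.SD

open Set Topology MeasureTheory Metric

variable {h φ : V4 → ℝ}

private theorem StepB_fd {u : V4 → ℝ} (z : V4) {B : ℝ} (hB : 0 ≤ B)
    (h : ∀ l, |D l u z| ≤ B) : ‖fderiv ℝ u z‖ ≤ 4 * B := by
  refine ContinuousLinearMap.opNorm_le_bound _ (by positivity) fun v => ?_
  have h1 : fderiv ℝ u z v = ∑ i, v i * D i u z := by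
    have h2 : v = ∑ i, v i • (Pi.single i (1 : ℝ) : V4) := by
      rw [← Finset.univ_sum_single v]
      refine Finset.sum_congr rfl fun i _ => ?_
      rw [Finset.univ_sum_single v, ← Pi.single_smul, smul_eq_mul, mul_one]
    conv_lhs => rw [h2]
    rw [map_sum]
    refine Finset.sum_congr rfl fun i _ => ?_
    rw [map_smul, smul_eq_mul]
    rfl
  rw [h1, Real.norm_eq_abs]
  calc |∑ i, v i * D i u z| ≤ ∑ i, |v i * D i u z| := Finset.abs_sum_le_sum_abs _ _
    _ ≤ ∑ _i : Fin 4, ‖v‖ * B := by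
        refine Finset.sum_le_sum fun i _ => ?_
        rw [abs_mul]
        exact mul_le_mul (by simpa using norm_le_pi_norm v i) (h i) (abs_nonneg _) (norm_nonneg _)
    _ = 4 * B * ‖v‖ := by
        rw [Finset.sum_const, Finset.card_univ, Fintype.card_fin, nsmul_eq_mul]
        push_cast
        ring

private theorem StepB_lip {m g : V4 → ℝ} (hm : Wf m) (hg : Nice g) (s : ℝ) {y : V4} {ρ B : ℝ}
    (hB : 0 ≤ B) (h : ∀ z ∈ closedBall y ρ, ∀ l, |D l (av m s g) z| ≤ B) :
    ∀ z ∈ closedBall y ρ, |av m s g z - av m s g y| ≤ 4 * B * ρ := by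
  intro z hz
  have hρ : 0 ≤ ρ := dist_nonneg.trans (mem_closedBall.1 hz)
  have h1 := (convex_closedBall y ρ).norm_image_sub_le_of_norm_fderiv_le (𝕜 := ℝ)
    (f := av m s g) (C := 4 * B) (fun x _ => (av_sm hm hg s).diff x)
    (fun x hx => StepB_fd x hB (h x hx)) (mem_closedBall_self hρ) hz
  rw [Real.norm_eq_abs] at h1
  refine h1.trans (mul_le_mul_of_nonneg_left ?_ (by positivity))
  rw [← dist_eq_norm]
  exact mem_closedBall.1 hz

/-- the gradient of the average is `O(1/s)` -/
theorem grad_decay {m g : V4 → ℝ} (hm : Wf m) (hg : Nice g) :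
    ∃ C : ℝ, 0 ≤ C ∧ ∀ (s : ℝ) (y : V4) (l : Fin 4), 0 < s → |D l (av m s g) y| ≤ C / s := by
  obtain ⟨G, hG0, hG⟩ := hg.bound
  refine ⟨∑ l, (∫ w, |D l m w|) * G, ?_, ?_⟩
  · exact Finset.sum_nonneg fun l _ => mul_nonneg (integral_nonneg fun w => abs_nonneg _) hG0
  · intro s y l hs
    have h1 : s * D l (av m s g) y = - av (D l m) s g y := by
      rw [av_der hm hg s l y]
      exact av_D hm hg.sm l s y
    have h2 : |av (D l m) s g y| ≤ (∫ w, |D l m w|) * G := by
      unfold av
      calc |∫ w, D l m w * g (y + s • w)| ≤ ∫ w, |D l m w * g (y + s • w)| :=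
            abs_integral_le_integral_abs
        _ ≤ ∫ w, |D l m w| * G := by
            refine integral_mono (av_int (hm.D l) hg s y).abs
              ((hm.D l).integrable.abs.mul_const G) fun w => ?_
            show |D l m w * g (y + s • w)| ≤ |D l m w| * G
            rw [abs_mul]
            exact mul_le_mul_of_nonneg_left (hG _) (abs_nonneg _)
        _ = (∫ w, |D l m w|) * G := integral_mul_const _ _
    have h3 : (∫ w, |D l m w|) * G ≤ ∑ l, (∫ w, |D l m w|) * G :=
      Finset.single_le_sum (f := fun l => (∫ w, |D l m w|) * G)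
        (fun l _ => mul_nonneg (integral_nonneg fun w => abs_nonneg _) hG0) (Finset.mem_univ l)
    rw [le_div_iff₀ hs]
    calc |D l (av m s g) y| * s = |s * D l (av m s g) y| := by
          rw [abs_mul, abs_of_pos hs, mul_comm]
      _ = |av (D l m) s g y| := by rw [h1, abs_neg]
      _ ≤ _ := h2.trans h3

/-- averages of periodic functions are nearly constant at large scales -/
theorem near_const {m g : V4 → ℝ} (hm : Wf m) (hg : Nice g) {L : Set V4} (hL : RDense L)
    (hp : ∀ l ∈ L, ∀ x, g (x + l) = g x) :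
    ∃ C : ℝ, 0 ≤ C ∧ ∀ (s : ℝ) (y z : V4), 0 < s → |av m s g y - av m s g z| ≤ C / s := by
  obtain ⟨C, hC0, hC⟩ := grad_decay hm hg
  obtain ⟨d, hd⟩ := hL
  refine ⟨4 * C * |d|, by positivity, fun s y z hs => ?_⟩
  obtain ⟨l, hl, hld⟩ := hd (y - z)
  have hper : av m s g (z + l) = av m s g z := by
    unfold av
    refine integral_congr_ae (Filter.Eventually.of_forall fun w => ?_)
    show m w * g (z + l + s • w) = m w * g (z + s • w)
    rw [show z + l + s • w = z + s • w + l by abel, hp l hl]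
  have hdist : z + l ∈ closedBall y |d| := by
    rw [mem_closedBall, dist_comm, dist_eq_norm, show y - (z + l) = y - z - l by abel]
    exact hld.trans (le_abs_self d)
  have h1 := StepB_lip hm hg s (div_nonneg hC0 hs.le) (y := y) (ρ := |d|)
    (fun x _ k => hC s x k hs) _ hdist
  rw [hper, abs_sub_comm] at h1
  refine h1.trans (le_of_eq ?_)
  ring

/-- the mean value inequality for averages -/
theorem av_lip {m g : V4 → ℝ} (hm : Wf m) (hg : Nice g) (s : ℝ) {y : V4} {ρ B : ℝ} (hB : 0 ≤ B)
    (h : ∀ z ∈ closedBall y ρ, ∀ l, |D l (av m s g) z| ≤ B) :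
    ∀ z ∈ closedBall y ρ, |av m s g z - av m s g y| ≤ 4 * B * ρ := by
  exact StepB_lip hm hg s hB h

end Pool.Agent.H.MP_df7994_gt.SD
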