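import Pool.Agent.H.MP_df7994_gt.SD.F3
import Pool.Agent.H.MP_df7994_gt.SD.SizeA
import Pool.Agent.H.MP_df7994_gt.SD.SizeB
import Pool.Agent.H.MP_df7994_gt.SD.StepA
import Pool.Agent.H.MP_df7994_gt.SD.StepB
import Pool.Agent.H.MP_df7994_gt.SD.Boot
import Pool.Agent.H.MP_df7994_gt.SD.Start

/-!
SD / Core: the estimate on all scales for the pair `(p, q)`. Assembly of `boot` and `start` with
`u s y i = av φ s (p i) y`, `M = Mr p`, `G s y = 4 * ∑ i, ∑ l, |D l (av φ s (p i)) y|`, `c = ∫ φ`,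
`C1` from `step_one`, `C2 = 48 * C` from `step_two`, `C3 = 46 c` (`f_three`), `hg0` from `av_lip`, `hg2` from
`grad_decay`, `hnear` from `near_const`, `hlow`, `hup`, `hdbl` from `Mr_lower`, `Mr_upper`, `Mr_double`.
The lower bound `m0` of `p` (continuous, periodic, nowhere zero) is given as a hypothesis.
For `r = 0`: `av φ 0 g = c g` (`av_zero`). For `q`: `av_size` with `s = r / 2`, `t = r` (`C` = bound of `φ`).
-/

set_option autoImplicit false

namespace Pool.Agent.H.MP_df7994_gt.SD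

open Set Topology MeasureTheory Metric

variable {h φ : V4 → ℝ}

private theorem Core_le (f : Fin 3 → Fin 4 → ℝ) (i : Fin 3) (l : Fin 4) :
    |f i l| ≤ ∑ i, ∑ l, |f i l| :=
  (Finset.single_le_sum (f := fun l => |f i l|) (fun _ _ => abs_nonneg _) (Finset.mem_univ l)).trans
    (Finset.single_le_sum (f := fun i => ∑ l, |f i l|)
      (fun _ _ => Finset.sum_nonneg fun _ _ => abs_nonneg _) (Finset.mem_univ i))

private theorem Core_sq (v : Fin 3 → ℝ) : ‖v‖ ^ 2 ≤ ∑ i, v i ^ 2 := by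
  have h0 : 0 ≤ ∑ i, v i ^ 2 := Finset.sum_nonneg fun i _ => sq_nonneg _
  have h1 : ‖v‖ ≤ Real.sqrt (∑ i, v i ^ 2) := by
    refine (pi_norm_le_iff_of_nonneg (Real.sqrt_nonneg _)).mpr fun i => ?_
    rw [Real.norm_eq_abs]
    refine Real.abs_le_sqrt ?_
    exact Finset.single_le_sum (f := fun i => v i ^ 2) (fun _ _ => sq_nonneg _) (Finset.mem_univ i)
  calc ‖v‖ ^ 2 ≤ Real.sqrt (∑ i, v i ^ 2) ^ 2 := by
        exact pow_le_pow_left₀ (norm_nonneg _) h1 2
    _ = _ := Real.sq_sqrt h0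

private theorem Core_all (W : Wt h φ) {C1 C2 : ℝ} (hC1 : 0 ≤ C1) (hC2 : 0 ≤ C2)
    {p q : Fin 3 → V4 → ℝ} {k : ℝ} (P : Pair p q) (hk : 0 ≤ k) (hpq : Pinch k p q)
    (H1 : ∀ (s : ℝ) (y : V4) (i : Fin 3), 0 < s →
      |av φ (2 * s) (p i) y - av φ s (p i) y| ≤ C1 * k * Mr p (2 * s) y)
    (H2 : ∀ (s : ℝ) (y : V4) (i : Fin 3) (l : Fin 4), 0 < s →
      |D l (av φ (2 * s) (p i)) y - D l (av φ s (p i)) y| ≤ C2 * k * Mr p (2 * s) y / s)
    {L : Set V4} {m0 : ℝ} (hL : RDense L) (hper : ∀ l ∈ L, ∀ i x, p i (x + l) = p i x) (hm0 : 0 < m0)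
    (hlow : ∀ x, m0 ^ 2 ≤ ∑ i, p i x ^ 2) (hk1 : 920 * k ≤ 1)
    (a1 : 960 * (k * C1) ≤ ∫ w, φ w) (a2 : 960 * (k * (48 * C2)) ≤ ∫ w, φ w) :
    ∀ s, 0 < s → ∀ y : V4, (∫ w, φ w) * Mr p s y ≤ 20 * ‖fun i => av φ s (p i) y‖ := by
  have hc := W.pos
  have hpc : ∀ i, Continuous (p i) := fun i => (P.pn i).sm.cont
  have hM : ∀ s y, 0 ≤ Mr p s y := fun s y => Mr_nonneg p s y
  have h3 : ∀ (s : ℝ) (y : V4) (S : ℝ), 0 < s → 0 ≤ S →
      (∀ z ∈ closedBall y s, ‖fun i => av φ s (p i) z‖ ≤ S) →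
      (∫ w, φ w) * Mr p s y ≤ 10 * S + (46 * ∫ w, φ w) * k * Mr p (4 * s) y := by
    intro s y S hs hS h
    exact f_three W P hk hpq hs hS y fun z hz i =>
      (norm_le_pi_norm (fun i => av φ s (p i) z) i).trans (h z hz)
  refine boot (u := fun s y i => av φ s (p i) y) (M := Mr p)
    (G := fun s y => 4 * ∑ i, ∑ l, |D l (av φ s (p i)) y|) (C1 := C1) (C2 := 48 * C2)
    (C3 := 46 * ∫ w, φ w) hc hk hC1 (by positivity) (by positivity) hM ?_ ?_ ?_ ?_ ?_ h3 ?_ ?_ ?_ ?_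
  · intro s _
    refine continuous_pi fun i => ?_
    exact (av_continuous W.φf (P.pn i)).comp (continuous_const.prodMk continuous_id)
  · intro s y hs
    refine (pi_norm_le_iff_of_nonneg (mul_nonneg (mul_nonneg hC1 hk) (hM _ _))).mpr fun i => ?_
    exact H1 s y i hs
  · intro s hs y B hB hG z hz
    refine (pi_norm_le_iff_of_nonneg (mul_nonneg hB hs.le)).mpr fun i => ?_
    have h4 := av_lip W.φf (P.pn i) s (y := y) (ρ := s) (B := B / 4) (by positivity)
      (fun z' hz' l => by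
        have h5 := Core_le (fun i l => D l (av φ s (p i)) z') i l
        have h6 := hG z' hz'
        linarith) z hz
    have h7 : 4 * (B / 4) * s = B * s := by ring
    rw [h7] at h4
    exact h4
  · intro s y hs
    have h4 : ∀ i l, |D l (av φ s (p i)) y| ≤ |D l (av φ (2 * s) (p i)) y| +
        C2 * k * Mr p (2 * s) y / s := fun i l => by
      have h5 := H2 s y i l hs
      have h6 := abs_sub_abs_le_abs_sub (D l (av φ s (p i)) y) (D l (av φ (2 * s) (p i)) y)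
      rw [abs_sub_comm] at h6
      linarith
    have h5 : ∑ i, ∑ l, |D l (av φ s (p i)) y| ≤ ∑ i : Fin 3, ∑ l : Fin 4,
        (|D l (av φ (2 * s) (p i)) y| + C2 * k * Mr p (2 * s) y / s) :=
      Finset.sum_le_sum fun i _ => Finset.sum_le_sum fun l _ => h4 i l
    simp only [Finset.sum_add_distrib, Finset.sum_const, Finset.card_univ, Fintype.card_fin,
      nsmul_eq_mul] at h5
    have h6 : 48 * C2 * k * Mr p (2 * s) y / s = 48 * (C2 * k * Mr p (2 * s) y / s) := by ring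
    change 4 * ∑ i, ∑ l, |D l (av φ s (p i)) y| ≤ 4 * ∑ i, ∑ l, |D l (av φ (2 * s) (p i)) y| +
      48 * C2 * k * Mr p (2 * s) y / s
    rw [h6]
    push_cast at h5
    linarith
  · have h4 : ∀ i, ∃ C : ℝ, 0 ≤ C ∧ ∀ (s : ℝ) (y : V4) (l : Fin 4), 0 < s →
        |D l (av φ s (p i)) y| ≤ C / s := fun i => grad_decay W.φf (P.pn i)
    choose C hC0 hC using h4
    refine ⟨16 * ∑ i, C i, fun s y hs => ?_⟩
    have h5 : ∑ i, ∑ l, |D l (av φ s (p i)) y| ≤ ∑ i : Fin 3, ∑ _l : Fin 4, C i / s :=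
      Finset.sum_le_sum fun i _ => Finset.sum_le_sum fun l _ => hC i s y l hs
    simp only [Finset.sum_const, Finset.card_univ, Fintype.card_fin, nsmul_eq_mul,
      ← Finset.mul_sum, ← Finset.sum_div] at h5
    have h6 : 16 * (∑ i, C i) / s = 16 * ((∑ i, C i) / s) := by ring
    rw [h6]
    push_cast at h5
    linarith
  · refine start (u := fun s y i => av φ s (p i) y) (M := Mr p) (C3 := 46 * ∫ w, φ w) hc hk
      (by positivity) h3 ?_ hm0 ?_ ?_ ?_ (by nlinarith)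
    · intro e he
      have h4 : ∀ i, ∃ C : ℝ, 0 ≤ C ∧ ∀ (s : ℝ) (y z : V4), 0 < s →
          |av φ s (p i) y - av φ s (p i) z| ≤ C / s :=
        fun i => near_const W.φf (P.pn i) hL fun l hl x => hper l hl i x
      choose C hC0 hC using h4
      have hS0 : 0 ≤ ∑ i, C i := Finset.sum_nonneg fun i _ => hC0 i
      refine ⟨(∑ i, C i) / e + 1, by positivity, fun s hs y z => ?_⟩
      have hs0 : 0 < s := lt_of_lt_of_le (by positivity) hs
      refine (pi_norm_le_iff_of_nonneg he.le).mpr fun i => ?_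
      refine (hC i s y z hs0).trans ?_
      rw [div_le_iff₀ hs0]
      have h5 : C i ≤ ∑ i, C i :=
        Finset.single_le_sum (f := C) (fun i _ => hC0 i) (Finset.mem_univ i)
      have h6 : (∑ i, C i) / e ≤ s := by linarith
      rw [div_le_iff₀ he] at h6
      linarith
    · intro s y hs
      have h4 := Mr_lower hpc hs y hm0.le hlow
      linarith
    · have h4 : ∀ i, ∃ C : ℝ, 0 ≤ C ∧ ∀ x, |p i x| ≤ C := fun i => (P.pn i).bound
      choose C hC0 hC using h4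
      refine ⟨7 * ∑ i, C i, fun s y hs => ?_⟩
      refine Mr_upper hpc hs y (Finset.sum_nonneg fun i _ => hC0 i) fun z _ i => ?_
      exact (hC i z).trans (Finset.single_le_sum (f := C) (fun i _ => hC0 i) (Finset.mem_univ i))
    · intro s B hs hB y
      exact Mr_double hpc hs hB y
  · rw [← mul_div_assoc, div_le_iff₀ hc]
    nlinarith
  · rw [← mul_div_assoc, div_le_iff₀ hc]
    nlinarith
  · rw [← mul_div_assoc, div_le_iff₀ hc]
    nlinarith

theorem core (W : Wt h φ) : ∃ k0 : ℝ, 0 < k0 ∧ k0 ≤ 1 / 2 ∧ ∀ (p q : Fin 3 → V4 → ℝ) (L : Set V4) (m0 : ℝ),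
    Pair p q → Pinch k0 p q → RDense L → (∀ l ∈ L, ∀ i x, p i (x + l) = p i x) → 0 < m0 →
    (∀ x, m0 ^ 2 ≤ ∑ i, p i x ^ 2) →
    ∃ δ : ℝ, 0 < δ ∧ ∀ (r : ℝ) (y : V4), 0 ≤ r → δ ≤ ∑ i, av φ r (p i) y ^ 2 ∧
      2 * ∑ i, av φ r (q i) y ^ 2 ≤ ∑ i, av φ r (p i) y ^ 2 := by
  obtain ⟨C1, hC1, H1⟩ := step_one W
  obtain ⟨C2, hC2, H2⟩ := step_two W
  obtain ⟨C3, hC3, H3⟩ := W.φf.bound
  have hc := W.pos
  have hK : 0 < 960 * (1 + C1 + 48 * C2 + C3) := by positivity
  refine ⟨min (1 / 920) ((∫ w, φ w) / (960 * (1 + C1 + 48 * C2 + C3))),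
    lt_min (by norm_num) (div_pos hc hK), (min_le_left _ _).trans (by norm_num), ?_⟩
  intro p q L m0 P hpq hL hper hm0 hlow
  have hk : 0 ≤ min (1 / 920) ((∫ w, φ w) / (960 * (1 + C1 + 48 * C2 + C3))) :=
    le_min (by norm_num) (div_pos hc hK).le
  have hk1 : min (1 / 920) ((∫ w, φ w) / (960 * (1 + C1 + 48 * C2 + C3))) ≤ 1 / 920 :=
    min_le_left _ _
  have hk2 : min (1 / 920) ((∫ w, φ w) / (960 * (1 + C1 + 48 * C2 + C3))) *
      (960 * (1 + C1 + 48 * C2 + C3)) ≤ ∫ w, φ w := (le_div_iff₀ hK).mp (min_le_right _ _)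
  generalize min (1 / 920) ((∫ w, φ w) / (960 * (1 + C1 + 48 * C2 + C3))) = k at *
  have b1 : 0 ≤ k * C1 := mul_nonneg hk hC1
  have b2 : 0 ≤ k * (48 * C2) := mul_nonneg hk (by positivity)
  have b3 : 0 ≤ k * C3 := mul_nonneg hk hC3
  have hk3 : 960 * k + 960 * (k * C1) + 960 * (k * (48 * C2)) + 960 * (k * C3) ≤ ∫ w, φ w := by
    have h4 : k * (960 * (1 + C1 + 48 * C2 + C3)) =
      960 * k + 960 * (k * C1) + 960 * (k * (48 * C2)) + 960 * (k * C3) := by ring
    linarith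
  have key := Core_all W hC1 hC2 P hk hpq (H1 p q k P hk hpq) (H2 p q k P hk hpq) hL hper hm0 hlow
    (by linarith) (by linarith) (by linarith)
  refine ⟨((∫ w, φ w) * m0 / 5) ^ 2, by positivity, fun r y hr => ?_⟩
  rcases hr.eq_or_lt with rfl | hr
  · have e1 : ∀ i, av φ 0 (p i) y ^ 2 = (∫ w, φ w) ^ 2 * p i y ^ 2 := fun i => by
      rw [av_zero, mul_pow]
    have e2 : ∀ i, av φ 0 (q i) y ^ 2 = (∫ w, φ w) ^ 2 * q i y ^ 2 := fun i => by
      rw [av_zero, mul_pow]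
    simp only [e1, e2, ← Finset.mul_sum]
    have h4 := hlow y
    have h5 := hpq y
    have h6 : 0 ≤ ∑ i, p i y ^ 2 := Finset.sum_nonneg fun i _ => sq_nonneg _
    have hc2 : 0 < (∫ w, φ w) ^ 2 := by positivity
    constructor
    · have h7 : ((∫ w, φ w) * m0 / 5) ^ 2 = (∫ w, φ w) ^ 2 * (m0 ^ 2 / 25) := by ring
      rw [h7]
      refine mul_le_mul_of_nonneg_left ?_ hc2.le
      have : 0 < m0 ^ 2 := by positivity
      linarith
    · have h7 : 2 * ∑ i, q i y ^ 2 ≤ ∑ i, p i y ^ 2 := by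
        have h8 : k ^ 2 ≤ 1 / 4 := by nlinarith
        nlinarith
      have h9 := mul_le_mul_of_nonneg_left h7 hc2.le
      linarith
  · have h4 := key r hr y
    have h5 := Mr_lower (fun i => (P.pn i).sm.cont) hr y hm0.le hlow
    have h6 := Core_sq fun i => av φ r (p i) y
    have hn := norm_nonneg (fun i => av φ r (p i) y : Fin 3 → ℝ)
    generalize ‖(fun i => av φ r (p i) y : Fin 3 → ℝ)‖ = N at *
    have hMr := Mr_nonneg p r y
    constructor
    · refine le_trans ?_ h6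
      refine pow_le_pow_left₀ (by positivity) ?_ 2
      nlinarith
    · have h7 : ∀ j, |av φ r (q j) y| ≤ N / 3 := fun j => by
        have h8 := av_size W.φf H3 (fun i => (P.pn i).sm.cont) (fun i => (P.qn i).sm.cont) hk hpq
          (s := r / 2) (t := r) (by positivity) (by linarith) (by linarith) j y
        rw [mul_div_cancel₀ r (two_ne_zero' ℝ)] at h8
        have h9 : 960 * (k * C3) * Mr p r y ≤ (∫ w, φ w) * Mr p r y :=
          mul_le_mul_of_nonneg_right (by linarith) hMr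
        have h10 : 16 * C3 * k * Mr p r y = 16 * (k * C3 * Mr p r y) := by ring
        have h11 : 960 * (k * C3) * Mr p r y = 960 * (k * C3 * Mr p r y) := by ring
        rw [h10] at h8
        rw [h11] at h9
        linarith
      have h8 : ∀ j, av φ r (q j) y ^ 2 ≤ N ^ 2 / 9 := fun j => by
        have h9 := h7 j
        have h10 : |av φ r (q j) y| ^ 2 ≤ (N / 3) ^ 2 := pow_le_pow_left₀ (abs_nonneg _) h9 2
        rw [sq_abs] at h10
        linarith [h10, show (N / 3) ^ 2 = N ^ 2 / 9 by ring]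
      have h9 : ∑ i, av φ r (q i) y ^ 2 ≤ ∑ _i : Fin 3, N ^ 2 / 9 :=
        Finset.sum_le_sum fun i _ => h8 i
      simp only [Finset.sum_const, Finset.card_univ, Fintype.card_fin, nsmul_eq_mul] at h9
      push_cast at h9
      nlinarith [sq_nonneg N]

end Pool.Agent.H.MP_df7994_gt.SD
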