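import Pool.Agent.H.MP_df7994_gt.SD.NiceL

/-!
SD / SizeZ: elementary facts on the square mean `Mr`.
-/

set_option autoImplicit false

namespace Pool.Agent.H.MP_df7994_gt.SD

open Set Topology MeasureTheory Metric

theorem Mr_nonneg (g : Fin 3 → V4 → ℝ) (r : ℝ) (y : V4) : 0 ≤ Mr g r y := Real.sqrt_nonneg _

theorem Mr_sq {g : Fin 3 → V4 → ℝ} {r : ℝ} (hr : 0 < r) (y : V4) :
    Mr g r y ^ 2 = (∫ z in closedBall y r, ∑ j, g j z ^ 2) / r ^ 4 := by
  unfold Mr
  refine Real.sq_sqrt (div_nonneg (integral_nonneg fun z => ?_) (by positivity))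
  exact Finset.sum_nonneg fun j _ => sq_nonneg _

theorem vol_ball (y : V4) {r : ℝ} (hr : 0 ≤ r) : (volume (closedBall y r)).toReal = (2 * r) ^ 4 := by
  have h := Real.volume_pi_closedBall y hr
  rw [h, Fintype.card_fin, ENNReal.toReal_ofReal (by positivity)]

theorem SizeZ_int {p : Fin 3 → V4 → ℝ} (hp : ∀ i, Continuous (p i)) (s : ℝ) (y : V4) :
    IntegrableOn (fun z => ∑ j, p j z ^ 2) (closedBall y s) := by
  have hc : Continuous fun z => ∑ j, p j z ^ 2 := by fun_prop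
  exact hc.continuousOn.integrableOn_compact (isCompact_closedBall y s)

theorem Mr_upper {p : Fin 3 → V4 → ℝ} (hp : ∀ i, Continuous (p i)) {s : ℝ} (hs : 0 < s) (y : V4) {B : ℝ}
    (hB : 0 ≤ B) (h : ∀ z ∈ closedBall y s, ∀ i, |p i z| ≤ B) : Mr p s y ≤ 7 * B := by
  unfold Mr
  rw [← Real.sqrt_sq (by positivity : (0 : ℝ) ≤ 7 * B)]
  refine Real.sqrt_le_sqrt ?_
  rw [div_le_iff₀ (by positivity)]
  have h1 : ∫ z in closedBall y s, ∑ j, p j z ^ 2 ≤ ∫ _ in closedBall y s, 3 * B ^ 2 := by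
    refine setIntegral_mono_on (SizeZ_int hp s y) ?_ measurableSet_closedBall fun z hz => ?_
    · exact integrableOn_const (isCompact_closedBall y s).measure_lt_top.ne
    · have h2 : ∀ i, p i z ^ 2 ≤ B ^ 2 := fun i => by
        rw [← sq_abs]
        exact pow_le_pow_left₀ (abs_nonneg _) (h z hz i) 2
      rw [Fin.sum_univ_three]
      linarith [h2 0, h2 1, h2 2]
  rw [setIntegral_const, smul_eq_mul, Measure.real, vol_ball y hs.le] at h1
  have h3 : (2 * s) ^ 4 * (3 * B ^ 2) ≤ (7 * B) ^ 2 * s ^ 4 := by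
    have h4 : 0 ≤ B ^ 2 * s ^ 4 := by positivity
    nlinarith
  linarith

theorem Mr_lower {p : Fin 3 → V4 → ℝ} (hp : ∀ i, Continuous (p i)) {s : ℝ} (hs : 0 < s) (y : V4) {b : ℝ}
    (hb : 0 ≤ b) (h : ∀ z, b ^ 2 ≤ ∑ i, p i z ^ 2) : 4 * b ≤ Mr p s y := by
  unfold Mr
  refine Real.le_sqrt_of_sq_le ?_
  rw [le_div_iff₀ (by positivity)]
  have h1 : ∫ _ in closedBall y s, b ^ 2 ≤ ∫ z in closedBall y s, ∑ j, p j z ^ 2 := by
    refine setIntegral_mono_on ?_ (SizeZ_int hp s y) measurableSet_closedBall fun z _ => h z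
    exact integrableOn_const (isCompact_closedBall y s).measure_lt_top.ne
  rw [setIntegral_const, smul_eq_mul, Measure.real, vol_ball y hs.le] at h1
  have h3 : (4 * b) ^ 2 * s ^ 4 = (2 * s) ^ 4 * b ^ 2 := by ring
  linarith

end Pool.Agent.H.MP_df7994_gt.SD
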