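import Pool.Agent.H.MP_df7994_gt.SD.Loc
import Pool.Agent.H.MP_df7994_gt.SD.SizeZ

/-!
SD / F3: from `loc`: `c^2 p_i^2 ≤ 2 u_i^2 + 2 (u_i - c p_i)^2`, so
`c^2 Mr(s)^2 ≤ 2 s^{-4} (16 s^4 * 3 S^2) + 2 * 4 c^2 k^2 * 4^4 Mr(4 s)^2 = 96 S^2 + 2048 c^2 k^2 Mr(4 s)^2 ≤ (10 S + 46 c k Mr(4s))^2`.
-/

set_option autoImplicit false

namespace Pool.Agent.H.MP_df7994_gt.SD

open Set Topology MeasureTheory Metric

variable {h φ : V4 → ℝ}

theorem f_three (W : Wt h φ) {p q : Fin 3 → V4 → ℝ} (P : Pair p q) {k : ℝ} (hk : 0 ≤ k)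
    (hpq : Pinch k p q) {s S : ℝ} (hs : 0 < s) (hS : 0 ≤ S) (y : V4)
    (hu : ∀ z ∈ closedBall y s, ∀ i, |av φ s (p i) z| ≤ S) :
    (∫ w, φ w) * Mr p s y ≤ 10 * S + 46 * (∫ w, φ w) * k * Mr p (4 * s) y := by
  have hL := loc W P hs y
  obtain ⟨c, hc⟩ : ∃ c, c = ∫ w, φ w := ⟨_, rfl⟩
  have hc0 : 0 < c := by rw [hc]; exact W.pos
  rw [← hc] at hL ⊢
  have hcp : ∀ i, Continuous (p i) := fun i => (P.pn i).sm.continuous
  have hcq : ∀ i, Continuous (q i) := fun i => (P.qn i).sm.continuous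
  have hcu : ∀ i, Continuous fun x => av φ s (p i) x := fun i =>
    (av_continuous W.φf (P.pn i)).comp (continuous_const.prodMk continuous_id)
  have I1 : ∀ (f : V4 → ℝ) (r : ℝ), Continuous f → IntegrableOn f (closedBall y r) :=
    fun f r hf => hf.continuousOn.integrableOn_compact (isCompact_closedBall y r)
  have cP : Continuous fun x => ∑ j, p j x ^ 2 :=
    continuous_finsetSum _ fun j _ => (hcp j).pow 2
  have cQ : Continuous fun x => ∑ j, q j x ^ 2 :=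
    continuous_finsetSum _ fun j _ => (hcq j).pow 2
  have cF : Continuous fun x => ∑ i, (av φ s (p i) x - c * p i x) ^ 2 :=
    continuous_finsetSum _ fun j _ => ((hcu j).sub (continuous_const.mul (hcp j))).pow 2
  have h1 : ∫ x in closedBall y (4 * s), ∑ j, q j x ^ 2 ≤
      k ^ 2 * ∫ x in closedBall y (4 * s), ∑ j, p j x ^ 2 := by
    rw [← integral_const_mul]
    exact setIntegral_mono (I1 _ _ cQ) (I1 _ _ (continuous_const.mul cP)) (fun x => hpq x)
  have h2 : ∫ x in closedBall y (4 * s), ∑ j, p j x ^ 2 = Mr p (4 * s) y ^ 2 * (4 * s) ^ 4 := by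
    rw [Mr_sq (by positivity)]
    field_simp
  have h3 : ∫ x in closedBall y s, ∑ j, p j x ^ 2 = Mr p s y ^ 2 * s ^ 4 := by
    rw [Mr_sq hs]
    field_simp
  have h4 : c ^ 2 * ∫ x in closedBall y s, ∑ j, p j x ^ 2 ≤ 6 * S ^ 2 * (2 * s) ^ 4 +
      2 * ∫ x in closedBall y s, ∑ i, (av φ s (p i) x - c * p i x) ^ 2 := by
    have e1 : 6 * S ^ 2 * (2 * s) ^ 4 +
        2 * ∫ x in closedBall y s, ∑ i, (av φ s (p i) x - c * p i x) ^ 2 =
        ∫ x in closedBall y s, (6 * S ^ 2 + 2 * ∑ i, (av φ s (p i) x - c * p i x) ^ 2) := by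
      have e4 : ∫ x in closedBall y s,
          (6 * S ^ 2 + 2 * ∑ i, (av φ s (p i) x - c * p i x) ^ 2) =
          (∫ _x in closedBall y s, 6 * S ^ 2) +
            ∫ x in closedBall y s, 2 * ∑ i, (av φ s (p i) x - c * p i x) ^ 2 :=
        integral_add (I1 (fun _ => 6 * S ^ 2) _ continuous_const)
          (I1 (fun x => 2 * ∑ i, (av φ s (p i) x - c * p i x) ^ 2) _ (continuous_const.mul cF))
      have e5 : (∫ _x in closedBall y s, 6 * S ^ 2) = 6 * S ^ 2 * (2 * s) ^ 4 := by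
        rw [setIntegral_const, measureReal_def, vol_ball y hs.le, smul_eq_mul,
          mul_comm ((2 * s) ^ 4)]
      rw [e4, e5, integral_const_mul 2 fun x => ∑ i, (av φ s (p i) x - c * p i x) ^ 2]
    rw [e1, ← integral_const_mul]
    refine setIntegral_mono_on (I1 _ _ (continuous_const.mul cP))
      (I1 _ _ (continuous_const.add (continuous_const.mul cF))) measurableSet_closedBall
      fun x hx => ?_
    simp only [Fin.sum_univ_three]
    have hb : ∀ i, c ^ 2 * p i x ^ 2 ≤ 2 * S ^ 2 + 2 * (av φ s (p i) x - c * p i x) ^ 2 := by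
      intro i
      have b1 : av φ s (p i) x ^ 2 ≤ S ^ 2 := by
        have b2 := hu x hx i
        rw [abs_le] at b2
        nlinarith [b2.1, b2.2]
      nlinarith [sq_nonneg (2 * av φ s (p i) x - c * p i x)]
    have b0 := hb 0
    have b1 := hb 1
    have b2 := hb 2
    linarith
  have hM := Mr_nonneg p s y
  have hM4 := Mr_nonneg p (4 * s) y
  rw [h2] at h1
  rw [h3] at h4
  have hs4 : 0 < s ^ 4 := by positivity
  have h5 : c ^ 2 * Mr p s y ^ 2 ≤ 96 * S ^ 2 + 2048 * (c * k * Mr p (4 * s) y) ^ 2 := by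
    have h6 : 4 * c ^ 2 * ∫ x in closedBall y (4 * s), ∑ j, q j x ^ 2 ≤
        4 * c ^ 2 * (k ^ 2 * (Mr p (4 * s) y ^ 2 * (4 * s) ^ 4)) :=
      mul_le_mul_of_nonneg_left h1 (by positivity)
    have h7 : c ^ 2 * (Mr p s y ^ 2 * s ^ 4) ≤
        (96 * S ^ 2 + 2048 * (c * k * Mr p (4 * s) y) ^ 2) * s ^ 4 := by
      have e2 : (96 * S ^ 2 + 2048 * (c * k * Mr p (4 * s) y) ^ 2) * s ^ 4 =
          6 * S ^ 2 * (2 * s) ^ 4 +
            2 * (4 * c ^ 2 * (k ^ 2 * (Mr p (4 * s) y ^ 2 * (4 * s) ^ 4))) := by ring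
      rw [e2]
      linarith
    rw [← mul_assoc] at h7
    exact le_of_mul_le_mul_right h7 hs4
  have h8 : 0 ≤ c * k * Mr p (4 * s) y := by positivity
  have h9 : (c * Mr p s y) ^ 2 ≤ (10 * S + 46 * (c * k * Mr p (4 * s) y)) ^ 2 := by
    nlinarith [mul_nonneg hS h8, sq_nonneg (c * k * Mr p (4 * s) y), sq_nonneg S]
  have h10 := (pow_le_pow_iff_left₀ (by positivity) (by positivity) two_ne_zero).1 h9
  have e3 : 46 * c * k * Mr p (4 * s) y = 46 * (c * k * Mr p (4 * s) y) := by ring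
  rw [e3]
  exact h10

end Pool.Agent.H.MP_df7994_gt.SD
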