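import Pool.Agent.H.MP_df7994_gt.SD.Par

/-!
SD / ParS: smoothness of `y ↦ ∫ m(a) g(y + θ a) dμ(a)`. `par_sm`: induction on the order with values in Banach spaces
(`fderiv` of the integral is the integral of `m a • fderiv g (y + θ a)`), compare `avg_contDiff_nat`, `avg_contDiff`
in `H/MP_df7994_gt/Avg.lean` (there an interval average).
-/

set_option autoImplicit false

namespace Pool.Agent.H.MP_df7994_gt.SD

open Set Topology MeasureTheory Metric

variable {Ω : Type*} [MeasurableSpace Ω] {μ : Measure Ω} {m : Ω → ℝ} {θ : Ω → V4} {g : V4 → ℝ}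

section

variable {E : Type*} [NormedAddCommGroup E] [NormedSpace ℝ E]

private theorem ParS_meas (hm : Integrable m μ) (hθ : Measurable θ) {G : V4 → E}
    (hG : Continuous G) (y : V4) : AEStronglyMeasurable (fun a => m a • G (y + θ a)) μ :=
  hm.aestronglyMeasurable.smul
    (hG.comp_aestronglyMeasurable ((hθ.const_add y).aestronglyMeasurable))

private theorem ParS_cont (hm : Integrable m μ) (hθ : Measurable θ) {G : V4 → E}
    (hG : Continuous G) {C : ℝ} (hC : ∀ x, ‖G x‖ ≤ C) :
    Continuous fun y => ∫ a, m a • G (y + θ a) ∂μ := by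
  refine continuous_of_dominated (bound := fun a => ‖m a‖ * C)
    (fun y => ParS_meas hm hθ hG y) (fun y => ?_) (hm.norm.mul_const C) ?_
  · refine Filter.Eventually.of_forall fun a => ?_
    rw [norm_smul]
    exact mul_le_mul_of_nonneg_left (hC _) (norm_nonneg _)
  · refine Filter.Eventually.of_forall fun a => ?_
    exact (hG.comp (continuous_id.add continuous_const)).const_smul (m a)

private theorem ParS_der (hm : Integrable m μ) (hθ : Measurable θ) {G : V4 → E}
    (hG : ContDiff ℝ 1 G) {C C' : ℝ} (hC : ∀ x, ‖G x‖ ≤ C) (hC' : ∀ x, ‖fderiv ℝ G x‖ ≤ C')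
    (y : V4) : HasFDerivAt (fun y => ∫ a, m a • G (y + θ a) ∂μ)
      (∫ a, m a • fderiv ℝ G (y + θ a) ∂μ) y := by
  have hGc : Continuous G := hG.continuous
  have hG'c : Continuous (fderiv ℝ G) := hG.continuous_fderiv one_ne_zero
  refine hasFDerivAt_integral_of_dominated_of_fderiv_le (𝕜 := ℝ)
    (F := fun (y : V4) (a : Ω) => m a • G (y + θ a))
    (F' := fun (y : V4) (a : Ω) => m a • fderiv ℝ G (y + θ a)) (bound := fun a => ‖m a‖ * C')
    (s := univ) Filter.univ_mem ?_ ?_ ?_ ?_ ?_ ?_
  · exact Filter.Eventually.of_forall fun y => ParS_meas hm hθ hGc y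
  · refine (hm.norm.mul_const C).mono' (ParS_meas hm hθ hGc y) ?_
    refine Filter.Eventually.of_forall fun a => ?_
    rw [norm_smul]
    exact mul_le_mul_of_nonneg_left (hC _) (norm_nonneg _)
  · exact ParS_meas hm hθ hG'c y
  · refine Filter.Eventually.of_forall fun a x _ => ?_
    rw [norm_smul]
    exact mul_le_mul_of_nonneg_left (hC' _) (norm_nonneg _)
  · exact hm.norm.mul_const C'
  · refine Filter.Eventually.of_forall fun a x _ => ?_
    have h1 : HasFDerivAt G (fderiv ℝ G (x + θ a)) (x + θ a) :=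
      ((hG.differentiable one_ne_zero) _).hasFDerivAt
    have h2 : HasFDerivAt (fun z : V4 => z + θ a) (ContinuousLinearMap.id ℝ V4) x :=
      (hasFDerivAt_id x).add_const _
    have h3 := h1.comp x h2
    rw [ContinuousLinearMap.comp_id] at h3
    exact h3.const_smul (m a)

end

private theorem ParS_nat (hm : Integrable m μ) (hθ : Measurable θ) (n : ℕ) :
    ∀ {E : Type} [NormedAddCommGroup E] [NormedSpace ℝ E] {G : V4 → E},
      ContDiff ℝ ((⊤ : ℕ∞) : WithTop ℕ∞) G →
      (∀ k : ℕ, ∃ C : ℝ, ∀ x, ‖iteratedFDeriv ℝ k G x‖ ≤ C) →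
      ContDiff ℝ n (fun y => ∫ a, m a • G (y + θ a) ∂μ) := by
  induction n with
  | zero =>
    intro E _ _ G hG hb
    obtain ⟨C, hC⟩ := hb 0
    simp only [norm_iteratedFDeriv_zero] at hC
    have : ContDiff ℝ (0 : WithTop ℕ∞) (fun y => ∫ a, m a • G (y + θ a) ∂μ) :=
      contDiff_zero.2 (ParS_cont hm hθ hG.continuous hC)
    simpa using this
  | succ n ih =>
    intro E _ _ G hG hb
    obtain ⟨C, hC⟩ := hb 0
    obtain ⟨C', hC'⟩ := hb 1
    simp only [norm_iteratedFDeriv_zero] at hC
    simp only [norm_iteratedFDeriv_one] at hC'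
    have h1 : ContDiff ℝ ((n : WithTop ℕ∞) + 1) (fun y => ∫ a, m a • G (y + θ a) ∂μ) := by
      rw [contDiff_succ_iff_hasFDerivAt]
      refine ⟨fun y => ∫ a, m a • fderiv ℝ G (y + θ a) ∂μ, ih ?_ ?_, fun x => ?_⟩
      · exact hG.fderiv_right (by norm_cast)
      · intro k
        obtain ⟨C, hC⟩ := hb (k + 1)
        exact ⟨C, fun x => by rw [norm_iteratedFDeriv_fderiv]; exact hC x⟩
      · exact ParS_der hm hθ (hG.of_le (by norm_cast)) hC hC' x
    simpa using h1

theorem par_sm (hm : Integrable m μ) (hθ : Measurable θ) (hg : Nice g) :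
    Sm fun y => ∫ a, m a * g (y + θ a) ∂μ := by
  unfold Sm
  rw [contDiff_infty]
  intro n
  have h := ParS_nat hm hθ n hg.sm hg.bd
  simpa only [smul_eq_mul] using h

/-- the special case of averages -/
theorem av_der {m : V4 → ℝ} (hm : Wf m) (hg : Nice g) (r : ℝ) (i : Fin 4) (y : V4) :
    D i (av m r g) y = av m r (D i g) y :=
  par_der (μ := volume) hm.integrable (θ := fun w : V4 => r • w) (by fun_prop) hg i y

theorem av_sm {m : V4 → ℝ} (hm : Wf m) (hg : Nice g) (r : ℝ) : Sm (av m r g) :=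
  par_sm (μ := volume) hm.integrable (θ := fun w : V4 => r • w) (by fun_prop) hg

theorem av_int {m : V4 → ℝ} (hm : Wf m) (hg : Nice g) (r : ℝ) (y : V4) :
    Integrable fun w => m w * g (y + r • w) :=
  par_int (μ := volume) hm.integrable (θ := fun w : V4 => r • w) (by fun_prop) hg y

end Pool.Agent.H.MP_df7994_gt.SD
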