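import Pool.Agent.H.MP_df7994_gt.SD.Pull
import Pool.Agent.H.MP_df7994_gt.SD.ParS

/-!
SD / Form: properties of the averaged form `avM φ A α r`: smooth, skew, periodic, closed, jointly continuous,
value at `r = 0`. Each entry is `c⁻¹ ∫ φ(w) g(y + θ w) dw`, `θ w = r • (A *ᵥ w)`, `g = α · i j` (`Nice` by
`nice_of_per` with `L` = the integer vectors): `par_sm`, `par_der`.
-/

set_option autoImplicit false

namespace Pool.Agent.H.MP_df7994_gt.SD

open Set Topology MeasureTheory Metric Matrix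

variable {φ : V4 → ℝ} {A : M4} {α : V4 → M4}

private theorem form_dense : RDense (Set.range iv) := by
  refine ⟨1, fun x => ⟨iv fun m => ⌊x m⌋, ⟨_, rfl⟩, ?_⟩⟩
  rw [pi_norm_le_iff_of_nonneg zero_le_one]
  intro m
  have h1 := Int.floor_le (x m)
  have h2 := Int.lt_floor_add_one (x m)
  rw [Pi.sub_apply, Real.norm_eq_abs, abs_le]
  show -1 ≤ x m - ((⌊x m⌋ : ℤ) : ℝ) ∧ x m - ((⌊x m⌋ : ℤ) : ℝ) ≤ 1
  constructor <;> linarith

/-- entries of a smooth periodic form are `Nice` -/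
theorem nice_entry (hs : ∀ i j, Sm fun x => α x i j) (hp : Per α) (i j : Fin 4) :
    Nice fun x => α x i j := by
  refine nice_of_per (hs i j) form_dense ?_
  rintro _ ⟨v, rfl⟩ x
  show α (x + iv v) i j = α x i j
  rw [hp x v]

theorem avM_sm (hφ : Wf φ) (hs : ∀ i j, Sm fun x => α x i j) (hp : Per α) (r : ℝ) (i j : Fin 4) :
    Sm fun y => avM φ A α r y i j := by
  have hA : Continuous fun w : V4 => A *ᵥ w := continuous_const.matrix_mulVec continuous_id
  have h1 : Sm fun y => ∫ w, φ w * α (y + r • (A *ᵥ w)) i j :=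
    par_sm (μ := volume) hφ.integrable (θ := fun w : V4 => r • (A *ᵥ w))
      (hA.const_smul r).measurable (nice_entry hs hp i j)
  exact contDiff_const.mul h1

theorem avM_skew (hk : ∀ x i j, α x i j = - α x j i) (r : ℝ) (y : V4) (i j : Fin 4) :
    avM φ A α r y i j = - avM φ A α r y j i := by
  show (∫ w, φ w)⁻¹ * ∫ w, φ w * α (y + r • (A *ᵥ w)) i j =
    - ((∫ w, φ w)⁻¹ * ∫ w, φ w * α (y + r • (A *ᵥ w)) j i)
  rw [← mul_neg, ← integral_neg]
  congr 2
  funext w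
  rw [hk]
  ring

theorem avM_per (hp : Per α) (r : ℝ) : Per (avM φ A α r) := by
  intro x v
  funext i j
  show (∫ w, φ w)⁻¹ * ∫ w, φ w * α (x + iv v + r • (A *ᵥ w)) i j =
    (∫ w, φ w)⁻¹ * ∫ w, φ w * α (x + r • (A *ᵥ w)) i j
  congr 2
  funext w
  rw [add_right_comm, hp]

theorem avM_zero (h0 : (∫ w, φ w) ≠ 0) : avM φ A α 0 = α := by
  funext y i j
  show (∫ w, φ w)⁻¹ * ∫ w, φ w * α (y + (0 : ℝ) • (A *ᵥ w)) i j = α y i j
  have h1 : (∫ w, φ w * α (y + (0 : ℝ) • (A *ᵥ w)) i j) = (∫ w, φ w) * α y i j := by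
    rw [← integral_mul_const]
    congr 1
    funext w
    rw [zero_smul, add_zero]
  rw [h1, inv_mul_cancel_left₀ h0]

end Pool.Agent.H.MP_df7994_gt.SD
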