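import Pool.Agent.H.MP_df7994_gt.SD.Form

/-!
SD / FormB: the averaged form is closed and jointly continuous (`par_der`; `continuous_of_dominated`).
-/

set_option autoImplicit false

namespace Pool.Agent.H.MP_df7994_gt.SD

open Set Topology MeasureTheory Metric Matrix

variable {φ : V4 → ℝ} {A : M4} {α : V4 → M4}

private theorem FormB_meas (r : ℝ) : Measurable fun w : V4 => r • (A *ᵥ w) := by
  have h : Continuous fun w : V4 => A *ᵥ w := by fun_prop
  exact (h.const_smul r).measurable

private theorem FormB_D (hφ : Wf φ) (hs : ∀ i j, Sm fun x => α x i j) (hp : Per α) (r : ℝ)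
    (i j k : Fin 4) (x : V4) :
    D i (fun y => avM φ A α r y j k) x =
      (∫ w, φ w)⁻¹ * ∫ w, φ w * D i (fun y => α y j k) (x + r • (A *ᵥ w)) := by
  have hg := nice_entry hs hp j k
  have h1 : Sm fun y => ∫ w, φ w * (fun x => α x j k) (y + r • (A *ᵥ w)) :=
    par_sm (μ := volume) hφ.integrable (FormB_meas r) hg
  have h2 := D_cmul h1 (∫ w, φ w)⁻¹ i x
  have h3 := par_der (μ := volume) hφ.integrable (FormB_meas (A := A) r) hg i x
  rw [h3] at h2
  exact h2

private theorem FormB_sum {a b c : V4 → ℝ} (ha : Integrable a) (hb : Integrable b)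
    (hc : Integrable c) (h : ∀ w, a w + b w + c w = 0) :
    (∫ w, a w) + (∫ w, b w) + ∫ w, c w = 0 := by
  have h1 := integral_add (f := fun w => a w + b w) (g := c) (ha.add hb) hc
  rw [← integral_add ha hb, ← h1, integral_congr_ae (Filter.Eventually.of_forall h), integral_zero]

theorem avM_cl (hφ : Wf φ) (hs : ∀ i j, Sm fun x => α x i j) (hp : Per α) (hc : Cl α) (r : ℝ) :
    Cl (avM φ A α r) := by
  intro x i j k
  have hi : ∀ i j k, Integrable fun w => φ w * D i (fun y => α y j k) (x + r • (A *ᵥ w)) :=
    fun i j k => par_int (μ := volume) hφ.integrable (FormB_meas r) ((nice_entry hs hp j k).D i) x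
  rw [FormB_D hφ hs hp, FormB_D hφ hs hp, FormB_D hφ hs hp, ← mul_add, ← mul_add,
    FormB_sum (hi _ _ _) (hi _ _ _) (hi _ _ _), mul_zero]
  intro w
  rw [← mul_add, ← mul_add, hc, mul_zero]

theorem avM_cont (hφ : Wf φ) (hs : ∀ i j, Sm fun x => α x i j) (hp : Per α) :
    Continuous fun z : ℝ × V4 => avM φ A α z.1 z.2 := by
  refine continuous_matrix fun i j => ?_
  obtain ⟨C, hC0, hC⟩ := (nice_entry hs hp i j).bound
  have hgc := (hs i j).cont
  have hφc := hφ.sm.cont
  have hA : Continuous fun w : V4 => A *ᵥ w := by fun_prop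
  refine Continuous.mul continuous_const ?_
  refine continuous_of_dominated (bound := fun w => |φ w| * C) ?_ ?_ ?_ ?_
  · intro z
    refine (hφc.mul (hgc.comp ?_)).aestronglyMeasurable
    exact continuous_const.add (hA.const_smul z.1)
  · intro z
    refine Filter.Eventually.of_forall fun w => ?_
    rw [Real.norm_eq_abs, abs_mul]
    exact mul_le_mul_of_nonneg_left (hC _) (abs_nonneg _)
  · exact hφ.integrable.abs.mul_const C
  · refine Filter.Eventually.of_forall fun w => ?_
    refine continuous_const.mul (hgc.comp ?_)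
    exact continuous_snd.add (continuous_fst.smul continuous_const)

end Pool.Agent.H.MP_df7994_gt.SD
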