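import Pool.Agent.H.MP_df7994_gt.SD.NiceL

/-!
SD / Ibp: integration by parts on `ℝ⁴` (`Fin 4 → ℝ`) and its rescaled form.
`ibp`: Mathlib `integral_mul_fderiv_eq_neg_fderiv_mul_of_integrable` (Mathlib/Analysis/Calculus/LineDeriv/
IntegrationByParts.lean); all functions are continuous with compact support (products with `f`).
`av_D`: the `w`-derivative of `g (y + r • w)` in direction `a` is `r * D a g (y + r • w)`.
-/

set_option autoImplicit false

namespace Pool.Agent.H.MP_df7994_gt.SD

open Set Topology MeasureTheory Metric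

theorem ibp {f g : V4 → ℝ} (hf : Sm f) (hc : HasCompactSupport f) (hg : Sm g) (i : Fin 4) :
    ∫ x, D i f x * g x = - ∫ x, f x * D i g x := by
  have hcD : HasCompactSupport (fun x => D i f x) := hc.fderiv_apply ℝ (Pi.single i 1)
  have h1 : Integrable (fun x => fderiv ℝ f x (Pi.single i 1) * g x) :=
    ((hf.D i).cont.mul hg.cont).integrable_of_hasCompactSupport hcD.mul_right
  have h2 : Integrable (fun x => f x * fderiv ℝ g x (Pi.single i 1)) :=
    (hf.cont.mul (hg.D i).cont).integrable_of_hasCompactSupport hc.mul_right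
  have h3 : Integrable (fun x => f x * g x) :=
    (hf.cont.mul hg.cont).integrable_of_hasCompactSupport hc.mul_right
  have h4 := integral_mul_fderiv_eq_neg_fderiv_mul_of_integrable h1 h2 h3
    (fun x _ => hf.diff x) (fun x _ => hg.diff x)
  have h5 : ∫ x, f x * D i g x = - ∫ x, D i f x * g x := h4
  rw [h5, neg_neg]

theorem av_D {m g : V4 → ℝ} (hm : Wf m) (hg : Sm g) (a : Fin 4) (r : ℝ) (y : V4) :
    r * av m r (D a g) y = - av (D a m) r g y := by
  have hG : Sm fun w => g (y + r • w) := by
    have hl : ContDiff ℝ ((⊤ : ℕ∞) : WithTop ℕ∞) fun w : V4 => y + r • w :=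
      contDiff_const.add (contDiff_id.const_smul r)
    exact ContDiff.comp hg hl
  have hDG : ∀ w, D a (fun w => g (y + r • w)) w = r * D a g (y + r • w) := by
    intro w
    have h1 : HasFDerivAt (fun w : V4 => y + r • w) (r • ContinuousLinearMap.id ℝ V4) w :=
      ((hasFDerivAt_id w).const_smul r).const_add y
    have h2 : HasFDerivAt g (fderiv ℝ g (y + r • w)) (y + r • w) :=
      (hg.diff (y + r • w)).hasFDerivAt
    have h3 := (HasFDerivAt.comp w h2 h1).fderiv
    have h4 : fderiv ℝ (fun w => g (y + r • w)) w =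
        (fderiv ℝ g (y + r • w)).comp (r • ContinuousLinearMap.id ℝ V4) := h3
    rw [D, h4]
    simp [D]
  have h6 := ibp hm.sm hm.compact hG a
  have h7 : ∫ w, m w * D a (fun w => g (y + r • w)) w = r * av m r (D a g) y := by
    rw [av, ← integral_const_mul]
    refine integral_congr_ae (Filter.Eventually.of_forall fun w => ?_)
    show m w * D a (fun w => g (y + r • w)) w = r * (m w * D a g (y + r • w))
    rw [hDG]
    ring
  have h8 : ∫ w, D a m w * g (y + r • w) = av (D a m) r g y := rfl
  rw [h7, h8] at h6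
  linarith

theorem av_DD {m g : V4 → ℝ} (hm : Wf m) (hg : Sm g) (a b : Fin 4) (r : ℝ) (y : V4) :
    r ^ 2 * av m r (D a (D b g)) y = av (D b (D a m)) r g y := by
  have h1 := av_D hm (hg.D b) a r y
  have h2 := av_D (hm.D a) hg b r y
  calc r ^ 2 * av m r (D a (D b g)) y = r * (r * av m r (D a (D b g)) y) := by ring
    _ = - (r * av (D a m) r (D b g) y) := by rw [h1]; ring
    _ = av (D b (D a m)) r g y := by rw [h2]; ring

end Pool.Agent.H.MP_df7994_gt.SD
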