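import Pool.Agent.H.MP_df7994_gt.SD.IsoA

/-!
SD / Iso: the L2 identity `∫ |T Z|^2 = ∫ |Δ Z|^2` for compactly supported smooth `Z = (Z_0, Z_1, Z_2)` (called
`Z_1, Z_2, Z_3` on the page).
`psi0 = - (D 1 Z0 + D 2 Z1 + D 3 Z2)`, `psi1 = D 0 Z0 + D 2 Z2 - D 3 Z1`, `psi2 = D 0 Z1 + D 3 Z0 - D 1 Z2`,
`psi3 = D 0 Z2 + D 1 Z1 - D 2 Z0`; `E_i = D 0 psi_i - D i psi_0`, `S_1 = D 2 psi3 - D 3 psi2`,
`S_2 = D 3 psi1 - D 1 psi3`, `S_3 = D 1 psi2 - D 2 psi1`. Then (mixed derivatives commute, `D_comm`)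
`lap Z_i = E_i - S_i`, `TT Z i = E_i + S_i`, and `∫ ∑ E_i S_i = 0` by `cross`.
-/

set_option autoImplicit false

namespace Pool.Agent.H.MP_df7994_gt.SD

open Set Topology MeasureTheory Metric

/-- compact support of a derivative -/
private theorem csD {f : V4 → ℝ} (hc : HasCompactSupport f) (i : Fin 4) :
    HasCompactSupport (D i f) :=
  (hc.fderiv (𝕜 := ℝ)).comp_left (g := fun L : V4 →L[ℝ] ℝ => L (Pi.single i 1)) rfl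

private theorem cs2 {f g : V4 → ℝ} (F : ℝ → ℝ → ℝ) (h0 : F 0 0 = 0) (hf : HasCompactSupport f)
    (hg : HasCompactSupport g) : HasCompactSupport fun x => F (f x) (g x) := by
  have h := hf.comp₂_left hg (m := F) h0
  exact h

/-- the auxiliary one-form -/
private noncomputable def ps (Z : Fin 3 → V4 → ℝ) : Fin 4 → V4 → ℝ :=
  ![fun x => - (D 1 (Z 0) x + D 2 (Z 1) x + D 3 (Z 2) x),
    fun x => D 0 (Z 0) x + D 2 (Z 2) x - D 3 (Z 1) x,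
    fun x => D 0 (Z 1) x + D 3 (Z 0) x - D 1 (Z 2) x,
    fun x => D 0 (Z 2) x + D 1 (Z 1) x - D 2 (Z 0) x]

private theorem ps_sm {Z : Fin 3 → V4 → ℝ} (hs : ∀ i, Sm (Z i)) : ∀ i, Sm (ps Z i) := by
  intro i
  fin_cases i
  · exact (((hs 0).D 1).add ((hs 1).D 2) |>.add ((hs 2).D 3)).neg
  · exact ((hs 0).D 0).add ((hs 2).D 2) |>.sub ((hs 1).D 3)
  · exact ((hs 1).D 0).add ((hs 0).D 3) |>.sub ((hs 2).D 1)
  · exact ((hs 2).D 0).add ((hs 1).D 1) |>.sub ((hs 0).D 2)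

private theorem ps_cs {Z : Fin 3 → V4 → ℝ} (hc : ∀ i, HasCompactSupport (Z i)) :
    ∀ i, HasCompactSupport (ps Z i) := by
  intro i
  fin_cases i
  · exact cs2 (fun a b => - (a + b)) (by norm_num)
      (cs2 (fun a b => a + b) (by norm_num) (csD (hc 0) 1) (csD (hc 1) 2)) (csD (hc 2) 3)
  · exact cs2 (fun a b => a - b) (by norm_num)
      (cs2 (fun a b => a + b) (by norm_num) (csD (hc 0) 0) (csD (hc 2) 2)) (csD (hc 1) 3)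
  · exact cs2 (fun a b => a - b) (by norm_num)
      (cs2 (fun a b => a + b) (by norm_num) (csD (hc 1) 0) (csD (hc 0) 3)) (csD (hc 2) 1)
  · exact cs2 (fun a b => a - b) (by norm_num)
      (cs2 (fun a b => a + b) (by norm_num) (csD (hc 2) 0) (csD (hc 1) 1)) (csD (hc 0) 2)

private theorem D_aas {f g h : V4 → ℝ} (hf : Sm f) (hg : Sm g) (hh : Sm h) (a : Fin 4) (x : V4) :
    D a (fun x => f x + g x - h x) x = D a f x + D a g x - D a h x := by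
  rw [D_sub (hf.add hg) hh, D_add hf hg]

private theorem D_naa {f g h : V4 → ℝ} (hf : Sm f) (hg : Sm g) (hh : Sm h) (a : Fin 4) (x : V4) :
    D a (fun x => - (f x + g x + h x)) x = - (D a f x + D a g x + D a h x) := by
  rw [D_neg, D_add (hf.add hg) hh, D_add hf hg]

private theorem ps0 {Z : Fin 3 → V4 → ℝ} (hs : ∀ i, Sm (Z i)) (a : Fin 4) (x : V4) :
    D a (ps Z 0) x = - (D a (D 1 (Z 0)) x + D a (D 2 (Z 1)) x + D a (D 3 (Z 2)) x) :=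
  D_naa ((hs 0).D 1) ((hs 1).D 2) ((hs 2).D 3) a x

private theorem ps1 {Z : Fin 3 → V4 → ℝ} (hs : ∀ i, Sm (Z i)) (a : Fin 4) (x : V4) :
    D a (ps Z 1) x = D a (D 0 (Z 0)) x + D a (D 2 (Z 2)) x - D a (D 3 (Z 1)) x :=
  D_aas ((hs 0).D 0) ((hs 2).D 2) ((hs 1).D 3) a x

private theorem ps2 {Z : Fin 3 → V4 → ℝ} (hs : ∀ i, Sm (Z i)) (a : Fin 4) (x : V4) :
    D a (ps Z 2) x = D a (D 0 (Z 1)) x + D a (D 3 (Z 0)) x - D a (D 1 (Z 2)) x :=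
  D_aas ((hs 1).D 0) ((hs 0).D 3) ((hs 2).D 1) a x

private theorem ps3 {Z : Fin 3 → V4 → ℝ} (hs : ∀ i, Sm (Z i)) (a : Fin 4) (x : V4) :
    D a (ps Z 3) x = D a (D 0 (Z 2)) x + D a (D 1 (Z 1)) x - D a (D 2 (Z 0)) x :=
  D_aas ((hs 2).D 0) ((hs 1).D 1) ((hs 0).D 2) a x

private theorem TT0 (Z : Fin 3 → V4 → ℝ) (x : V4) : TT Z 0 x =
      (((1 : ℝ) * D 0 (D 0 (Z 0)) x +
        (0 : ℝ) * D 0 (D 1 (Z 0)) x +
        (0 : ℝ) * D 0 (D 2 (Z 0)) x +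
        (0 : ℝ) * D 0 (D 3 (Z 0)) x) +
      ((0 : ℝ) * D 1 (D 0 (Z 0)) x +
        (1 : ℝ) * D 1 (D 1 (Z 0)) x +
        (0 : ℝ) * D 1 (D 2 (Z 0)) x +
        (0 : ℝ) * D 1 (D 3 (Z 0)) x) +
      ((0 : ℝ) * D 2 (D 0 (Z 0)) x +
        (0 : ℝ) * D 2 (D 1 (Z 0)) x +
        (-1 : ℝ) * D 2 (D 2 (Z 0)) x +
        (0 : ℝ) * D 2 (D 3 (Z 0)) x) +
      ((0 : ℝ) * D 3 (D 0 (Z 0)) x +
        (0 : ℝ) * D 3 (D 1 (Z 0)) x +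
        (0 : ℝ) * D 3 (D 2 (Z 0)) x +
        (-1 : ℝ) * D 3 (D 3 (Z 0)) x)) +
      (((0 : ℝ) * D 0 (D 0 (Z 1)) x +
        (0 : ℝ) * D 0 (D 1 (Z 1)) x +
        (0 : ℝ) * D 0 (D 2 (Z 1)) x +
        (-2 : ℝ) * D 0 (D 3 (Z 1)) x) +
      ((0 : ℝ) * D 1 (D 0 (Z 1)) x +
        (0 : ℝ) * D 1 (D 1 (Z 1)) x +
        (2 : ℝ) * D 1 (D 2 (Z 1)) x +
        (0 : ℝ) * D 1 (D 3 (Z 1)) x) +
      ((0 : ℝ) * D 2 (D 0 (Z 1)) x +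
        (0 : ℝ) * D 2 (D 1 (Z 1)) x +
        (0 : ℝ) * D 2 (D 2 (Z 1)) x +
        (0 : ℝ) * D 2 (D 3 (Z 1)) x) +
      ((0 : ℝ) * D 3 (D 0 (Z 1)) x +
        (0 : ℝ) * D 3 (D 1 (Z 1)) x +
        (0 : ℝ) * D 3 (D 2 (Z 1)) x +
        (0 : ℝ) * D 3 (D 3 (Z 1)) x)) +
      (((0 : ℝ) * D 0 (D 0 (Z 2)) x +
        (0 : ℝ) * D 0 (D 1 (Z 2)) x +
        (2 : ℝ) * D 0 (D 2 (Z 2)) x +
        (0 : ℝ) * D 0 (D 3 (Z 2)) x) +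
      ((0 : ℝ) * D 1 (D 0 (Z 2)) x +
        (0 : ℝ) * D 1 (D 1 (Z 2)) x +
        (0 : ℝ) * D 1 (D 2 (Z 2)) x +
        (2 : ℝ) * D 1 (D 3 (Z 2)) x) +
      ((0 : ℝ) * D 2 (D 0 (Z 2)) x +
        (0 : ℝ) * D 2 (D 1 (Z 2)) x +
        (0 : ℝ) * D 2 (D 2 (Z 2)) x +
        (0 : ℝ) * D 2 (D 3 (Z 2)) x) +
      ((0 : ℝ) * D 3 (D 0 (Z 2)) x +
        (0 : ℝ) * D 3 (D 1 (Z 2)) x +
        (0 : ℝ) * D 3 (D 2 (Z 2)) x +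
        (0 : ℝ) * D 3 (D 3 (Z 2)) x)) := by
  simp only [TT, Fin.sum_univ_three, Fin.sum_univ_four]
  rfl

private theorem TT1 (Z : Fin 3 → V4 → ℝ) (x : V4) : TT Z 1 x =
      (((0 : ℝ) * D 0 (D 0 (Z 0)) x +
        (0 : ℝ) * D 0 (D 1 (Z 0)) x +
        (0 : ℝ) * D 0 (D 2 (Z 0)) x +
        (2 : ℝ) * D 0 (D 3 (Z 0)) x) +
      ((0 : ℝ) * D 1 (D 0 (Z 0)) x +
        (0 : ℝ) * D 1 (D 1 (Z 0)) x +
        (2 : ℝ) * D 1 (D 2 (Z 0)) x +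
        (0 : ℝ) * D 1 (D 3 (Z 0)) x) +
      ((0 : ℝ) * D 2 (D 0 (Z 0)) x +
        (0 : ℝ) * D 2 (D 1 (Z 0)) x +
        (0 : ℝ) * D 2 (D 2 (Z 0)) x +
        (0 : ℝ) * D 2 (D 3 (Z 0)) x) +
      ((0 : ℝ) * D 3 (D 0 (Z 0)) x +
        (0 : ℝ) * D 3 (D 1 (Z 0)) x +
        (0 : ℝ) * D 3 (D 2 (Z 0)) x +
        (0 : ℝ) * D 3 (D 3 (Z 0)) x)) +
      (((1 : ℝ) * D 0 (D 0 (Z 1)) x +
        (0 : ℝ) * D 0 (D 1 (Z 1)) x +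
        (0 : ℝ) * D 0 (D 2 (Z 1)) x +
        (0 : ℝ) * D 0 (D 3 (Z 1)) x) +
      ((0 : ℝ) * D 1 (D 0 (Z 1)) x +
        (-1 : ℝ) * D 1 (D 1 (Z 1)) x +
        (0 : ℝ) * D 1 (D 2 (Z 1)) x +
        (0 : ℝ) * D 1 (D 3 (Z 1)) x) +
      ((0 : ℝ) * D 2 (D 0 (Z 1)) x +
        (0 : ℝ) * D 2 (D 1 (Z 1)) x +
        (1 : ℝ) * D 2 (D 2 (Z 1)) x +
        (0 : ℝ) * D 2 (D 3 (Z 1)) x) +
      ((0 : ℝ) * D 3 (D 0 (Z 1)) x +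
        (0 : ℝ) * D 3 (D 1 (Z 1)) x +
        (0 : ℝ) * D 3 (D 2 (Z 1)) x +
        (-1 : ℝ) * D 3 (D 3 (Z 1)) x)) +
      (((0 : ℝ) * D 0 (D 0 (Z 2)) x +
        (-2 : ℝ) * D 0 (D 1 (Z 2)) x +
        (0 : ℝ) * D 0 (D 2 (Z 2)) x +
        (0 : ℝ) * D 0 (D 3 (Z 2)) x) +
      ((0 : ℝ) * D 1 (D 0 (Z 2)) x +
        (0 : ℝ) * D 1 (D 1 (Z 2)) x +
        (0 : ℝ) * D 1 (D 2 (Z 2)) x +
        (0 : ℝ) * D 1 (D 3 (Z 2)) x) +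
      ((0 : ℝ) * D 2 (D 0 (Z 2)) x +
        (0 : ℝ) * D 2 (D 1 (Z 2)) x +
        (0 : ℝ) * D 2 (D 2 (Z 2)) x +
        (2 : ℝ) * D 2 (D 3 (Z 2)) x) +
      ((0 : ℝ) * D 3 (D 0 (Z 2)) x +
        (0 : ℝ) * D 3 (D 1 (Z 2)) x +
        (0 : ℝ) * D 3 (D 2 (Z 2)) x +
        (0 : ℝ) * D 3 (D 3 (Z 2)) x)) := by
  simp only [TT, Fin.sum_univ_three, Fin.sum_univ_four]
  rfl

private theorem TT2 (Z : Fin 3 → V4 → ℝ) (x : V4) : TT Z 2 x =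
      (((0 : ℝ) * D 0 (D 0 (Z 0)) x +
        (0 : ℝ) * D 0 (D 1 (Z 0)) x +
        (-2 : ℝ) * D 0 (D 2 (Z 0)) x +
        (0 : ℝ) * D 0 (D 3 (Z 0)) x) +
      ((0 : ℝ) * D 1 (D 0 (Z 0)) x +
        (0 : ℝ) * D 1 (D 1 (Z 0)) x +
        (0 : ℝ) * D 1 (D 2 (Z 0)) x +
        (2 : ℝ) * D 1 (D 3 (Z 0)) x) +
      ((0 : ℝ) * D 2 (D 0 (Z 0)) x +
        (0 : ℝ) * D 2 (D 1 (Z 0)) x +
        (0 : ℝ) * D 2 (D 2 (Z 0)) x +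
        (0 : ℝ) * D 2 (D 3 (Z 0)) x) +
      ((0 : ℝ) * D 3 (D 0 (Z 0)) x +
        (0 : ℝ) * D 3 (D 1 (Z 0)) x +
        (0 : ℝ) * D 3 (D 2 (Z 0)) x +
        (0 : ℝ) * D 3 (D 3 (Z 0)) x)) +
      (((0 : ℝ) * D 0 (D 0 (Z 1)) x +
        (2 : ℝ) * D 0 (D 1 (Z 1)) x +
        (0 : ℝ) * D 0 (D 2 (Z 1)) x +
        (0 : ℝ) * D 0 (D 3 (Z 1)) x) +
      ((0 : ℝ) * D 1 (D 0 (Z 1)) x +
        (0 : ℝ) * D 1 (D 1 (Z 1)) x +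
        (0 : ℝ) * D 1 (D 2 (Z 1)) x +
        (0 : ℝ) * D 1 (D 3 (Z 1)) x) +
      ((0 : ℝ) * D 2 (D 0 (Z 1)) x +
        (0 : ℝ) * D 2 (D 1 (Z 1)) x +
        (0 : ℝ) * D 2 (D 2 (Z 1)) x +
        (2 : ℝ) * D 2 (D 3 (Z 1)) x) +
      ((0 : ℝ) * D 3 (D 0 (Z 1)) x +
        (0 : ℝ) * D 3 (D 1 (Z 1)) x +
        (0 : ℝ) * D 3 (D 2 (Z 1)) x +
        (0 : ℝ) * D 3 (D 3 (Z 1)) x)) +
      (((1 : ℝ) * D 0 (D 0 (Z 2)) x +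
        (0 : ℝ) * D 0 (D 1 (Z 2)) x +
        (0 : ℝ) * D 0 (D 2 (Z 2)) x +
        (0 : ℝ) * D 0 (D 3 (Z 2)) x) +
      ((0 : ℝ) * D 1 (D 0 (Z 2)) x +
        (-1 : ℝ) * D 1 (D 1 (Z 2)) x +
        (0 : ℝ) * D 1 (D 2 (Z 2)) x +
        (0 : ℝ) * D 1 (D 3 (Z 2)) x) +
      ((0 : ℝ) * D 2 (D 0 (Z 2)) x +
        (0 : ℝ) * D 2 (D 1 (Z 2)) x +
        (-1 : ℝ) * D 2 (D 2 (Z 2)) x +
        (0 : ℝ) * D 2 (D 3 (Z 2)) x) +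
      ((0 : ℝ) * D 3 (D 0 (Z 2)) x +
        (0 : ℝ) * D 3 (D 1 (Z 2)) x +
        (0 : ℝ) * D 3 (D 2 (Z 2)) x +
        (1 : ℝ) * D 3 (D 3 (Z 2)) x)) := by
  simp only [TT, Fin.sum_univ_three, Fin.sum_univ_four]
  rfl

/-- the pointwise identity -/
private theorem pt {Z : Fin 3 → V4 → ℝ} (hs : ∀ i, Sm (Z i)) (x : V4) :
    ∑ i, TT Z i x ^ 2 = ∑ i, lap (Z i) x ^ 2 + 4 *
      ((D 0 (ps Z 1) x - D 1 (ps Z 0) x) * (D 2 (ps Z 3) x - D 3 (ps Z 2) x) +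
      (D 0 (ps Z 2) x - D 2 (ps Z 0) x) * (D 3 (ps Z 1) x - D 1 (ps Z 3) x) +
      (D 0 (ps Z 3) x - D 3 (ps Z 0) x) * (D 1 (ps Z 2) x - D 2 (ps Z 1) x)) := by
  have c10 : ∀ j, D 1 (D 0 (Z j)) x = D 0 (D 1 (Z j)) x := fun j => D_comm (hs j) 1 0 x
  have c20 : ∀ j, D 2 (D 0 (Z j)) x = D 0 (D 2 (Z j)) x := fun j => D_comm (hs j) 2 0 x
  have c30 : ∀ j, D 3 (D 0 (Z j)) x = D 0 (D 3 (Z j)) x := fun j => D_comm (hs j) 3 0 x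
  have c21 : ∀ j, D 2 (D 1 (Z j)) x = D 1 (D 2 (Z j)) x := fun j => D_comm (hs j) 2 1 x
  have c31 : ∀ j, D 3 (D 1 (Z j)) x = D 1 (D 3 (Z j)) x := fun j => D_comm (hs j) 3 1 x
  have c32 : ∀ j, D 3 (D 2 (Z j)) x = D 2 (D 3 (Z j)) x := fun j => D_comm (hs j) 3 2 x
  have l0 : ∀ j, lap (Z j) x = D 0 (D 0 (Z j)) x + D 1 (D 1 (Z j)) x + D 2 (D 2 (Z j)) x +
      D 3 (D 3 (Z j)) x := by
    intro j
    simp only [lap, Fin.sum_univ_four]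
  have t0 : TT Z 0 x = D 0 (D 0 (Z 0)) x + D 1 (D 1 (Z 0)) x - D 2 (D 2 (Z 0)) x -
      D 3 (D 3 (Z 0)) x - 2 * D 0 (D 3 (Z 1)) x + 2 * D 1 (D 2 (Z 1)) x +
      2 * D 0 (D 2 (Z 2)) x + 2 * D 1 (D 3 (Z 2)) x := by
    rw [TT0]
    ring
  have t1 : TT Z 1 x = 2 * D 0 (D 3 (Z 0)) x + 2 * D 1 (D 2 (Z 0)) x +
      D 0 (D 0 (Z 1)) x - D 1 (D 1 (Z 1)) x + D 2 (D 2 (Z 1)) x -
      D 3 (D 3 (Z 1)) x - 2 * D 0 (D 1 (Z 2)) x + 2 * D 2 (D 3 (Z 2)) x := by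
    rw [TT1]
    ring
  have t2 : TT Z 2 x = - 2 * D 0 (D 2 (Z 0)) x + 2 * D 1 (D 3 (Z 0)) x +
      2 * D 0 (D 1 (Z 1)) x + 2 * D 2 (D 3 (Z 1)) x + D 0 (D 0 (Z 2)) x - D 1 (D 1 (Z 2)) x -
      D 2 (D 2 (Z 2)) x + D 3 (D 3 (Z 2)) x := by
    rw [TT2]
    ring
  simp only [Fin.sum_univ_three, t0, t1, t2, l0, ps0 hs, ps1 hs, ps2 hs, ps3 hs, c10, c20, c30,
    c21, c31, c32]
  ring

private theorem int_mul {f g : V4 → ℝ} (hf : Continuous f) (hg : Continuous g)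
    (cf : HasCompactSupport f) (cg : HasCompactSupport g) : Integrable fun x => f x * g x :=
  (hf.mul hg).integrable_of_hasCompactSupport (cs2 (fun a b => a * b) (by norm_num) cf cg)

private theorem lap_ct {f : V4 → ℝ} (hf : Sm f) : Continuous (lap f) := by
  unfold lap
  exact continuous_finsetSum _ fun i _ => ((hf.D i).D i).cont

private theorem sum_cs {ι : Type*} (s : Finset ι) {F : ι → V4 → ℝ}
    (h : ∀ i ∈ s, HasCompactSupport (F i)) : HasCompactSupport fun x => ∑ i ∈ s, F i x := by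
  classical
  induction s using Finset.induction_on with
  | empty =>
    simp only [Finset.sum_empty]
    exact (HasCompactSupport.zero (α := V4) (β := ℝ))
  | insert a s ha ih =>
    have e : (fun x => ∑ i ∈ insert a s, F i x) = fun x => F a x + ∑ i ∈ s, F i x := by
      funext x
      rw [Finset.sum_insert ha]
    rw [e]
    exact cs2 (fun a b => a + b) (by norm_num) (h a (Finset.mem_insert_self a s))
      (ih fun i hi => h i (Finset.mem_insert_of_mem hi))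

private theorem lap_cs {f : V4 → ℝ} (hc : HasCompactSupport f) : HasCompactSupport (lap f) :=
  sum_cs Finset.univ fun i _ => csD (csD hc i) i

private theorem TT_ct {Z : Fin 3 → V4 → ℝ} (hs : ∀ i, Sm (Z i)) (i : Fin 3) :
    Continuous (TT Z i) := by
  unfold TT
  exact continuous_finsetSum _ fun j _ => continuous_finsetSum _ fun a _ =>
    continuous_finsetSum _ fun b _ => continuous_const.mul (((hs j).D b).D a).cont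

private theorem TT_cs {Z : Fin 3 → V4 → ℝ} (hc : ∀ i, HasCompactSupport (Z i)) (i : Fin 3) :
    HasCompactSupport (TT Z i) :=
  sum_cs Finset.univ fun j _ => sum_cs Finset.univ fun a _ => sum_cs Finset.univ fun b _ =>
    (csD (csD (hc j) b) a).comp_left (g := fun t : ℝ => tau i j a b * t) (mul_zero _)

private theorem sq_int {F : Fin 3 → V4 → ℝ} (h : ∀ i, Continuous (F i))
    (hc : ∀ i, HasCompactSupport (F i)) : Integrable fun x => ∑ i, F i x ^ 2 := by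
  refine integrable_finsetSum _ fun i _ => ?_
  simp only [pow_two]
  exact int_mul (h i) (h i) (hc i) (hc i)

private theorem w_int {ψ : Fin 4 → V4 → ℝ} (hs : ∀ i, Sm (ψ i)) (hc : ∀ i, HasCompactSupport (ψ i)) :
    Integrable fun x => ((D 0 (ψ 1) x - D 1 (ψ 0) x) * (D 2 (ψ 3) x - D 3 (ψ 2) x) +
      (D 0 (ψ 2) x - D 2 (ψ 0) x) * (D 3 (ψ 1) x - D 1 (ψ 3) x) +
      (D 0 (ψ 3) x - D 3 (ψ 0) x) * (D 1 (ψ 2) x - D 2 (ψ 1) x)) := by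
  have h : ∀ i j k l : Fin 4, Continuous fun x => D i (ψ j) x - D k (ψ l) x := fun i j k l =>
    ((hs j).D i).cont.sub ((hs l).D k).cont
  have h' : ∀ i j k l : Fin 4, HasCompactSupport fun x => D i (ψ j) x - D k (ψ l) x :=
    fun i j k l => cs2 (fun a b => a - b) (by norm_num) (csD (hc j) i) (csD (hc l) k)
  exact ((int_mul (h _ _ _ _) (h _ _ _ _) (h' _ _ _ _) (h' _ _ _ _)).add
    (int_mul (h _ _ _ _) (h _ _ _ _) (h' _ _ _ _) (h' _ _ _ _))).add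
    (int_mul (h _ _ _ _) (h _ _ _ _) (h' _ _ _ _) (h' _ _ _ _))

theorem iso {Z : Fin 3 → V4 → ℝ} (hs : ∀ i, Sm (Z i)) (hc : ∀ i, HasCompactSupport (Z i)) :
    ∫ x, ∑ i, TT Z i x ^ 2 = ∫ x, ∑ i, lap (Z i) x ^ 2 := by
  have e : (fun x => ∑ i, TT Z i x ^ 2) = fun x => ∑ i, lap (Z i) x ^ 2 + 4 *
      ((D 0 (ps Z 1) x - D 1 (ps Z 0) x) * (D 2 (ps Z 3) x - D 3 (ps Z 2) x) +
      (D 0 (ps Z 2) x - D 2 (ps Z 0) x) * (D 3 (ps Z 1) x - D 1 (ps Z 3) x) +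
      (D 0 (ps Z 3) x - D 3 (ps Z 0) x) * (D 1 (ps Z 2) x - D 2 (ps Z 1) x)) :=
    funext fun x => pt hs x
  rw [e, integral_add (sq_int (fun i => lap_ct (hs i)) fun i => lap_cs (hc i))
    ((w_int (ps_sm hs) (ps_cs hc)).const_mul 4), integral_const_mul,
    wedge_zero (ps_sm hs) (ps_cs hc), mul_zero, add_zero]

/-- the integrands above are continuous with compact support -/
theorem iso_int {Z : Fin 3 → V4 → ℝ} (hs : ∀ i, Sm (Z i)) (hc : ∀ i, HasCompactSupport (Z i)) :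
    Integrable (fun x => ∑ i, TT Z i x ^ 2) ∧ Integrable (fun x => ∑ i, lap (Z i) x ^ 2) := by
  exact ⟨sq_int (TT_ct hs) (TT_cs hc), sq_int (fun i => lap_ct (hs i)) fun i => lap_cs (hc i)⟩

end Pool.Agent.H.MP_df7994_gt.SD
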