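import Pool.Agent.H.MP_df7994_gt.SD.Ibp

/-!
SD / IsoA: `∫ D_i f D_j g = ∫ D_j f D_i g` (integrate by parts twice, mixed derivatives commute) and
`∫ dψ ∧ dψ = 0` for compactly supported smooth `ψ`: expand, each of the products pairs off by `cross`.
-/

set_option autoImplicit false

namespace Pool.Agent.H.MP_df7994_gt.SD

open Set Topology MeasureTheory Metric

/-- `∫ D_i f D_j g = ∫ D_j f D_i g` -/
theorem cross {f g : V4 → ℝ} (hf : Sm f) (hg : Sm g) (cf : HasCompactSupport f)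
    (cg : HasCompactSupport g) (i j : Fin 4) :
    ∫ x, D i f x * D j g x = ∫ x, D j f x * D i g x := by
  rw [ibp hf cf (hg.D j) i, ibp hf cf (hg.D i) j]
  congr 1
  refine integral_congr_ae (Filter.Eventually.of_forall fun x => ?_)
  simp only
  rw [D_comm hg i j x]

private theorem IsoA_compact {f : V4 → ℝ} (cf : HasCompactSupport f) (i : Fin 4) :
    HasCompactSupport (D i f) := cf.fderiv_apply (𝕜 := ℝ) (Pi.single i 1)

private theorem IsoA_int {f g : V4 → ℝ} (hf : Sm f) (hg : Sm g) (cf : HasCompactSupport f)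
    (i j : Fin 4) : Integrable fun x => D i f x * D j g x := by
  refine Continuous.integrable_of_hasCompactSupport ((hf.D i).cont.mul (hg.D j).cont) ?_
  exact (IsoA_compact cf i).mul_right

private theorem IsoA_pairInt {f g : V4 → ℝ} (hf : Sm f) (hg : Sm g) (cf : HasCompactSupport f)
    (i j : Fin 4) : Integrable fun x => D i f x * D j g x - D j f x * D i g x :=
  (IsoA_int hf hg cf i j).sub (IsoA_int hf hg cf j i)

private theorem IsoA_pair {f g : V4 → ℝ} (hf : Sm f) (hg : Sm g) (cf : HasCompactSupport f)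
    (cg : HasCompactSupport g) (i j : Fin 4) :
    ∫ x, (D i f x * D j g x - D j f x * D i g x) = 0 := by
  rw [integral_sub (IsoA_int hf hg cf i j) (IsoA_int hf hg cf j i), cross hf hg cf cg i j,
    sub_self]

private theorem IsoA_addZ {f g : V4 → ℝ} (hf : Integrable f ∧ ∫ x, f x = 0)
    (hg : Integrable g ∧ ∫ x, g x = 0) :
    Integrable (fun x => f x + g x) ∧ ∫ x, (f x + g x) = 0 :=
  ⟨hf.1.add hg.1, by rw [integral_add hf.1 hg.1, hf.2, hg.2, add_zero]⟩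

/-- the wedge of an exact form with itself has integral zero -/
theorem wedge_zero {ψ : Fin 4 → V4 → ℝ} (hs : ∀ i, Sm (ψ i)) (hc : ∀ i, HasCompactSupport (ψ i)) :
    ∫ x, ((D 0 (ψ 1) x - D 1 (ψ 0) x) * (D 2 (ψ 3) x - D 3 (ψ 2) x) +
      (D 0 (ψ 2) x - D 2 (ψ 0) x) * (D 3 (ψ 1) x - D 1 (ψ 3) x) +
      (D 0 (ψ 3) x - D 3 (ψ 0) x) * (D 1 (ψ 2) x - D 2 (ψ 1) x)) = 0 := by
  have hZ : ∀ k l i j, (Integrable fun x => D i (ψ k) x * D j (ψ l) x -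
      D j (ψ k) x * D i (ψ l) x) ∧
      ∫ x, (D i (ψ k) x * D j (ψ l) x - D j (ψ k) x * D i (ψ l) x) = 0 :=
    fun k l i j => ⟨IsoA_pairInt (hs k) (hs l) (hc k) i j,
      IsoA_pair (hs k) (hs l) (hc k) (hc l) i j⟩
  have e : ∀ x, ((D 0 (ψ 1) x - D 1 (ψ 0) x) * (D 2 (ψ 3) x - D 3 (ψ 2) x) +
      (D 0 (ψ 2) x - D 2 (ψ 0) x) * (D 3 (ψ 1) x - D 1 (ψ 3) x) +
      (D 0 (ψ 3) x - D 3 (ψ 0) x) * (D 1 (ψ 2) x - D 2 (ψ 1) x)) =
      (D 0 (ψ 1) x * D 2 (ψ 3) x - D 2 (ψ 1) x * D 0 (ψ 3) x) +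
      ((D 3 (ψ 1) x * D 0 (ψ 2) x - D 0 (ψ 1) x * D 3 (ψ 2) x) +
      ((D 2 (ψ 0) x * D 1 (ψ 3) x - D 1 (ψ 0) x * D 2 (ψ 3) x) +
      ((D 1 (ψ 0) x * D 3 (ψ 2) x - D 3 (ψ 0) x * D 1 (ψ 2) x) +
      ((D 1 (ψ 2) x * D 0 (ψ 3) x - D 0 (ψ 2) x * D 1 (ψ 3) x) +
      (D 3 (ψ 0) x * D 2 (ψ 1) x - D 2 (ψ 0) x * D 3 (ψ 1) x))))) := fun x => by ring
  simp_rw [e]
  exact (IsoA_addZ (hZ 1 3 0 2) (IsoA_addZ (hZ 1 2 3 0) (IsoA_addZ (hZ 0 3 2 1)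
    (IsoA_addZ (hZ 0 2 1 3) (IsoA_addZ (hZ 2 3 1 0) (hZ 0 1 3 2)))))).2

end Pool.Agent.H.MP_df7994_gt.SD
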