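import Pool.Agent.H.MP_df7994_gt.SD.YoungA

/-!
SD / Young: the form used.
-/

set_option autoImplicit false

namespace Pool.Agent.H.MP_df7994_gt.SD

open Set Topology MeasureTheory Metric

variable {φ : V4 → ℝ}

private theorem Young_sq (a b c : ℝ) : (a - c * b) ^ 2 ≤ 2 * a ^ 2 + 2 * c ^ 2 * b ^ 2 := by
  nlinarith [sq_nonneg (a + c * b)]

private theorem Young_cs {u : V4 → ℝ} (hu' : HasCompactSupport u) :
    HasCompactSupport fun y => u y ^ 2 := by
  have h : HasCompactSupport fun y => u y * u y := hu'.mul_left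
  simp only [pow_two]
  exact h

private theorem Young_int {u : V4 → ℝ} (hu : Continuous u) (hu' : HasCompactSupport u) :
    Integrable fun y => u y ^ 2 := by
  have h1 : Continuous fun y => u y ^ 2 := hu.pow 2
  exact h1.integrable_of_hasCompactSupport (Young_cs hu')

/-- the form used: `∫ ∑ (av φ R g_i - c g_i)^2 ≤ 4 c^2 ∫ ∑ g_i^2` -/
theorem young_sub (hm : Wf φ) (h0 : ∀ w, 0 ≤ φ w) {g : Fin 3 → V4 → ℝ} (hg : ∀ i, Sm (g i))
    (cg : ∀ i, HasCompactSupport (g i)) (R : ℝ) :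
    ∫ y, ∑ i, (av φ R (g i) y - (∫ w, φ w) * g i y) ^ 2 ≤
      4 * (∫ w, φ w) ^ 2 * ∫ y, ∑ i, g i y ^ 2 := by
  obtain ⟨c, hc⟩ : ∃ c : ℝ, c = ∫ w, φ w := ⟨_, rfl⟩
  rw [← hc]
  have hA : ∀ i, Integrable fun y => av φ R (g i) y ^ 2 := fun i =>
    Young_int (av_sm hm (nice_of_compact (hg i) (cg i)) R).cont (av_compact hm (cg i) R)
  have hG : ∀ i, Integrable fun y => g i y ^ 2 := fun i => Young_int (hg i).cont (cg i)
  have hB : ∀ i, Integrable fun y => 2 * av φ R (g i) y ^ 2 + 2 * c ^ 2 * g i y ^ 2 := fun i =>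
    ((hA i).const_mul 2).add ((hG i).const_mul (2 * c ^ 2))
  calc ∫ y, ∑ i, (av φ R (g i) y - c * g i y) ^ 2
      ≤ ∫ y, ∑ i, (2 * av φ R (g i) y ^ 2 + 2 * c ^ 2 * g i y ^ 2) := by
        refine integral_mono_of_nonneg (Filter.Eventually.of_forall fun y => ?_)
          (integrable_finsetSum _ fun i _ => hB i) (Filter.Eventually.of_forall fun y => ?_)
        · exact Finset.sum_nonneg fun i _ => sq_nonneg _
        · refine Finset.sum_le_sum fun i _ => ?_
          exact Young_sq _ _ _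
    _ = ∑ i, (2 * (∫ y, av φ R (g i) y ^ 2) + 2 * c ^ 2 * ∫ y, g i y ^ 2) := by
        rw [integral_finsetSum _ fun i _ => hB i]
        refine Finset.sum_congr rfl fun i _ => ?_
        rw [integral_add ((hA i).const_mul 2) ((hG i).const_mul (2 * c ^ 2)),
          integral_const_mul, integral_const_mul]
    _ ≤ ∑ i, 4 * c ^ 2 * ∫ y, g i y ^ 2 := by
        refine Finset.sum_le_sum fun i _ => ?_
        have h1 := young hm h0 (hg i) (cg i) R
        rw [← hc] at h1
        linarith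
    _ = 4 * c ^ 2 * ∫ y, ∑ i, g i y ^ 2 := by
        rw [integral_finsetSum _ fun i _ => hG i, Finset.mul_sum]

end Pool.Agent.H.MP_df7994_gt.SD
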