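import Pool.Agent.H.MP_df7994_gt.SD.Pot
import Pool.Agent.H.MP_df7994_gt.SD.Iso
import Pool.Agent.H.MP_df7994_gt.SD.Young

/-!
SD / Loc: the localised L2 estimate (L) of the page. `η : ContDiffBump x0` with `rIn = 3 R`, `rOut = 4 R`
(`Fin 4 → ℝ` has smooth bump functions), `g_j = η q_j`, `Z_j = pot h R g_j`.
For `y ∈ closedBall x0 R`: `TT Z i y = pot h R (TT g i) y = pot h R (TT q i) y` (`pot_local`, `TT g = TT q` on the
open ball of radius `3 R`, `D_congr`) `= pot h R (lap (p i)) y = lap (pot h R (p i)) y = av φ R (p i) y - c p i y`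
(`pot_der` twice, `pot_lap`). Then `iso`, `pot_lap` for `g_j`, `young_sub`, `g_j^2 ≤ q_j^2`, `= 0` off the ball `4 R`.
-/

set_option autoImplicit false

namespace Pool.Agent.H.MP_df7994_gt.SD

open Set Topology MeasureTheory Metric

variable {h φ : V4 → ℝ}

private theorem Loc_pot (W : Wt h φ) {p : V4 → ℝ} (hp : Nice p) (R : ℝ) (y : V4) :
    pot h R (lap p) y = av φ R p y - (∫ w, φ w) * p y := by
  rw [← av_zero φ p y, av_sub W hp y 0 R]
  rfl

private theorem Loc_TT {g q : Fin 3 → V4 → ℝ} {U : Set V4} (hU : IsOpen U)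
    (hgq : ∀ j, ∀ x ∈ U, g j x = q j x) (i : Fin 3) : ∀ x ∈ U, TT g i x = TT q i x := by
  intro x hx
  unfold TT
  refine Finset.sum_congr rfl fun j _ => Finset.sum_congr rfl fun a _ =>
    Finset.sum_congr rfl fun b _ => ?_
  rw [D_congr hU (D_congr hU (hgq j) b) a x hx]

theorem loc (W : Wt h φ) {p q : Fin 3 → V4 → ℝ} (P : Pair p q) {R : ℝ} (hR : 0 < R) (x0 : V4) :
    ∫ x in closedBall x0 R, ∑ i, (av φ R (p i) x - (∫ w, φ w) * p i x) ^ 2 ≤
      4 * (∫ w, φ w) ^ 2 * ∫ x in closedBall x0 (4 * R), ∑ j, q j x ^ 2 := by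
  obtain ⟨η, hηi, hηo⟩ : ∃ η : ContDiffBump x0, η.rIn = 3 * R ∧ η.rOut = 4 * R :=
    ⟨⟨3 * R, 4 * R, by linarith, by linarith⟩, rfl, rfl⟩
  have hηs : Sm (fun x => η x) := η.contDiff
  have hηc : HasCompactSupport (fun x => η x) := η.hasCompactSupport
  obtain ⟨g, hg⟩ : ∃ g : Fin 3 → V4 → ℝ, g = fun j x => η x * q j x := ⟨_, rfl⟩
  have hgs : ∀ j, Sm (g j) := by
    intro j
    rw [hg]
    exact hηs.mul (P.qn j).sm
  have hgc : ∀ j, HasCompactSupport (g j) := by
    intro j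
    rw [hg]
    exact hηc.mul_right
  have hgn : ∀ j, Nice (g j) := fun j => nice_of_compact (hgs j) (hgc j)
  obtain ⟨Z, hZ⟩ : ∃ Z : Fin 3 → V4 → ℝ, Z = fun j => pot h R (g j) := ⟨_, rfl⟩
  have hZs : ∀ j, Sm (Z j) := by
    intro j
    rw [hZ]
    exact pot_sm W hR (hgn j)
  have hZc : ∀ j, HasCompactSupport (Z j) := by
    intro j
    rw [hZ]
    exact pot_compact W hR (hgc j)
  have hgq : ∀ j, ∀ x ∈ ball x0 (3 * R), g j x = q j x := by
    intro j x hx
    rw [hg]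
    show η x * q j x = q j x
    rw [η.one_of_mem_closedBall (by rw [hηi]; exact ball_subset_closedBall hx), one_mul]
  have hTT : ∀ i, ∀ y ∈ closedBall x0 R, TT Z i y = av φ R (p i) y - (∫ w, φ w) * p i y := by
    intro i y hy
    rw [hZ, pot_TT W hR hgn i y, ← Loc_pot W (P.pn i) R y]
    refine pot_local W hR y fun z hz => ?_
    rw [P.eq i z]
    refine Loc_TT isOpen_ball hgq i z ?_
    rw [mem_closedBall] at hy hz
    rw [mem_ball]
    have := dist_triangle z y x0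
    linarith
  have h1 : ∫ x in closedBall x0 R, ∑ i, (av φ R (p i) x - (∫ w, φ w) * p i x) ^ 2 =
      ∫ x in closedBall x0 R, ∑ i, TT Z i x ^ 2 := by
    refine setIntegral_congr_fun measurableSet_closedBall fun x hx => ?_
    show ∑ i, (av φ R (p i) x - (∫ w, φ w) * p i x) ^ 2 = ∑ i, TT Z i x ^ 2
    refine Finset.sum_congr rfl fun i _ => ?_
    rw [hTT i x hx]
  have h2 : ∫ x in closedBall x0 R, ∑ i, TT Z i x ^ 2 ≤ ∫ x, ∑ i, TT Z i x ^ 2 := by
    refine setIntegral_le_integral (iso_int hZs hZc).1 ?_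
    exact Filter.Eventually.of_forall fun x => Finset.sum_nonneg fun i _ => sq_nonneg _
  have h3 : ∫ x, ∑ i, lap (Z i) x ^ 2 =
      ∫ y, ∑ i, (av φ R (g i) y - (∫ w, φ w) * g i y) ^ 2 := by
    congr 1
    funext y
    refine Finset.sum_congr rfl fun i _ => ?_
    rw [hZ]
    show lap (pot h R (g i)) y ^ 2 = _
    rw [pot_lap W hR (hgn i) y]
  have h4 := young_sub W.φf W.φ0 hgs hgc R
  have h5 : ∫ y, ∑ i, g i y ^ 2 ≤ ∫ x in closedBall x0 (4 * R), ∑ j, q j x ^ 2 := by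
    rw [← integral_indicator measurableSet_closedBall]
    refine integral_mono_of_nonneg ?_ ?_ ?_
    · exact Filter.Eventually.of_forall fun x => Finset.sum_nonneg fun i _ => sq_nonneg _
    · rw [integrable_indicator_iff measurableSet_closedBall]
      have hc : Continuous fun x => ∑ j, q j x ^ 2 :=
        continuous_finsetSum _ fun j _ => ((P.qn j).sm.cont).pow 2
      exact hc.continuousOn.integrableOn_compact (isCompact_closedBall x0 (4 * R))
    · refine Filter.Eventually.of_forall fun x => ?_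
      show ∑ i, g i x ^ 2 ≤ (closedBall x0 (4 * R)).indicator (fun x => ∑ j, q j x ^ 2) x
      by_cases hx : x ∈ closedBall x0 (4 * R)
      · rw [indicator_of_mem hx]
        refine Finset.sum_le_sum fun i _ => ?_
        rw [hg]
        show (η x * q i x) ^ 2 ≤ q i x ^ 2
        rw [mul_pow]
        have h6 : η x ^ 2 ≤ 1 := pow_le_one₀ η.nonneg η.le_one
        nlinarith [sq_nonneg (q i x)]
      · rw [indicator_of_notMem hx]
        refine (Finset.sum_eq_zero fun i _ => ?_).le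
        rw [hg]
        show (η x * q i x) ^ 2 = 0
        rw [η.zero_of_le_dist (by rw [hηo]; exact (not_le.1 hx).le), zero_mul]
        ring
  calc ∫ x in closedBall x0 R, ∑ i, (av φ R (p i) x - (∫ w, φ w) * p i x) ^ 2
      = ∫ x in closedBall x0 R, ∑ i, TT Z i x ^ 2 := h1
    _ ≤ ∫ x, ∑ i, TT Z i x ^ 2 := h2
    _ = ∫ x, ∑ i, lap (Z i) x ^ 2 := iso hZs hZc
    _ = ∫ y, ∑ i, (av φ R (g i) y - (∫ w, φ w) * g i y) ^ 2 := h3
    _ ≤ 4 * (∫ w, φ w) ^ 2 * ∫ y, ∑ i, g i y ^ 2 := h4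
    _ ≤ 4 * (∫ w, φ w) ^ 2 * ∫ x in closedBall x0 (4 * R), ∑ j, q j x ^ 2 :=
        mul_le_mul_of_nonneg_left h5 (by positivity)

end Pool.Agent.H.MP_df7994_gt.SD
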