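import Pool.Agent.H.MP_df7994_gt.SD.FormB

/-!
SD / Mean: the mean of the coefficients over the unit cube is invariant under translations.
`cube_shift`: for a continuous `ℤ⁴`-periodic `f` the integral over `v + [0,1]^4` equals that over `[0,1]^4`
(`IsAddFundamentalDomain`, e.g. `ZSpan.isAddFundamentalDomain`, or Fubini with
`Function.Periodic.intervalIntegral_add_eq`; the boundary of the cube is a null set).
-/

set_option autoImplicit false

namespace Pool.Agent.H.MP_df7994_gt.SD

open Set Topology MeasureTheory Metric Matrix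
open scoped Pointwise

variable {φ : V4 → ℝ} {A : M4} {α : V4 → M4}

/-- the mean of a form -/
noncomputable def mean (α : V4 → M4) : M4 := fun i j => ∫ x in Icc (0 : V4) 1, α x i j

private theorem mean_inv {f : V4 → ℝ} (hp : Per f) {g : V4}
    (hg : g ∈ Submodule.span ℤ (Set.range (Pi.basisFun ℝ (Fin 4)))) : Function.Periodic f g := by
  induction hg using Submodule.span_induction with
  | mem x hx =>
    obtain ⟨i, rfl⟩ := hx
    intro x
    have h1 : (Pi.basisFun ℝ (Fin 4)) i = iv (Pi.single i 1) := by
      rw [Pi.basisFun_apply]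
      funext j
      unfold iv
      by_cases hj : j = i
      · subst hj
        rw [Pi.single_eq_same, Pi.single_eq_same, Int.cast_one]
      · rw [Pi.single_eq_of_ne hj, Pi.single_eq_of_ne hj, Int.cast_zero]
    rw [h1]
    exact hp x _
  | zero =>
    intro x
    rw [add_zero]
  | add x y _ _ hx hy => exact hx.add_period hy
  | smul n x _ hx => exact hx.zsmul n

theorem cube_shift {f : V4 → ℝ} (hc : Continuous f) (hp : Per f) (v : V4) :
    ∫ x in Icc (0 : V4) 1, f (x + v) = ∫ x in Icc (0 : V4) 1, f x := by
  have _ := hc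
  have e : (Set.pi univ fun _ : Fin 4 => Ico (0 : ℝ) 1 : Set V4) =ᵐ[volume] Icc (0 : V4) 1 :=
    Measure.univ_pi_Ico_ae_eq_Icc (f := (0 : V4)) (g := (1 : V4))
  rw [← setIntegral_congr_set e, ← setIntegral_congr_set e]
  set D : Set V4 := Set.pi univ fun _ : Fin 4 => Ico (0 : ℝ) 1 with hD
  set S := (Submodule.span ℤ (Set.range (Pi.basisFun ℝ (Fin 4)))).toAddSubgroup with hS
  have hfd : IsAddFundamentalDomain S D (volume : Measure V4) := by
    rw [hD, ← ZSpan.fundamentalDomain_pi_basisFun]
    exact ZSpan.isAddFundamentalDomain' _ _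
  have hcount : Countable S := by
    have h1 : Countable (Submodule.span ℤ (Set.range (Pi.basisFun ℝ (Fin 4)))) := inferInstance
    exact h1
  have hfd2 : IsAddFundamentalDomain S (v +ᵥ D) (volume : Measure V4) :=
    hfd.vadd_of_comm v
  have h2 : ∫ x in D, f x = ∫ x in v +ᵥ D, f x := by
    refine hfd.setIntegral_eq hfd2 fun g x => ?_
    have h3 : g +ᵥ x = x + (g : V4) := add_comm _ _
    rw [h3]
    exact mean_inv hp g.2 x
  rw [h2]
  have h4 : MeasurableEmbedding fun x : V4 => x + v := (MeasurableEquiv.addRight v).measurableEmbedding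
  have h5 := (measurePreserving_add_right (volume : Measure V4) v).setIntegral_preimage_emb h4 f
    (v +ᵥ D)
  rw [← h5]
  congr 2
  ext x
  rw [Set.mem_preimage, add_comm x v, ← vadd_eq_add, Set.vadd_mem_vadd_set_iff]

end Pool.Agent.H.MP_df7994_gt.SD
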