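import Pool.Agent.H.MP_df7994_gt.SD.Mean

/-!
SD / MeanB: the mean of the averaged form. Fubini and `cube_shift`.
-/

set_option autoImplicit false

namespace Pool.Agent.H.MP_df7994_gt.SD

open Set Topology MeasureTheory Metric Matrix

variable {φ : V4 → ℝ} {A : M4} {α : V4 → M4}

private theorem meanB_swap (hφ : Wf φ) {g : V4 → ℝ} (hg : Continuous g) {C : ℝ} (hC : ∀ x, ‖g x‖ ≤ C)
    (A : M4) (r : ℝ) :
    ∫ x in Icc (0 : V4) 1, ∫ w, φ w * g (x + r • (A *ᵥ w)) =
      ∫ w, ∫ x in Icc (0 : V4) 1, φ w * g (x + r • (A *ᵥ w)) := by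
  have hfin : IsFiniteMeasure (volume.restrict (Icc (0 : V4) 1)) :=
    ⟨by
      rw [Measure.restrict_apply_univ]
      exact isCompact_Icc.measure_lt_top⟩
  refine integral_integral_swap ?_
  have h1 : Integrable (fun p : V4 × V4 => (fun _ : V4 => C) p.1 * ‖φ p.2‖)
      ((volume.restrict (Icc (0 : V4) 1)).prod volume) :=
    Integrable.mul_prod (integrable_const C) hφ.integrable.norm
  have hc : Continuous fun p : V4 × V4 => φ p.2 * g (p.1 + r • (A *ᵥ p.2)) := by
    have h2 : Continuous fun w : V4 => A *ᵥ w := by fun_prop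
    have h3 : Continuous φ := hφ.sm.continuous
    exact (h3.comp continuous_snd).mul
      (hg.comp (continuous_fst.add ((h2.comp continuous_snd).const_smul r)))
  refine Integrable.mono h1 hc.aestronglyMeasurable (Filter.Eventually.of_forall fun p => ?_)
  have h4 : 0 ≤ C := (norm_nonneg _).trans (hC 0)
  simp only [Function.uncurry]
  rw [norm_mul, norm_mul, norm_norm, mul_comm, Real.norm_of_nonneg h4]
  exact mul_le_mul_of_nonneg_right (hC _) (norm_nonneg _)

theorem mean_avM (hφ : Wf φ) (h0 : (∫ w, φ w) ≠ 0) (hs : ∀ i j, Sm fun x => α x i j) (hp : Per α)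
    (r : ℝ) : mean (avM φ A α r) = mean α := by
  ext i j
  obtain ⟨C, hC⟩ := (nice_entry hs hp i j).bd 0
  obtain ⟨g, hg⟩ : ∃ g : V4 → ℝ, g = fun x => α x i j := ⟨_, rfl⟩
  have hgc : Continuous g := by
    rw [hg]
    exact (hs i j).continuous
  have hgC : ∀ x, ‖g x‖ ≤ C := fun x => by
    have h1 := hC x
    rw [norm_iteratedFDeriv_zero] at h1
    rw [hg]
    exact h1
  have hgp : Per g := fun x v => by
    rw [hg]
    exact congrFun (congrFun (hp x v) i) j
  have h1 : mean (avM φ A α r) i j =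
      ∫ x in Icc (0 : V4) 1, (∫ w, φ w)⁻¹ * ∫ w, φ w * g (x + r • (A *ᵥ w)) := by
    rw [hg]
    rfl
  have h2 : mean α i j = ∫ x in Icc (0 : V4) 1, g x := by
    rw [hg]
    rfl
  rw [h1, h2, integral_const_mul, meanB_swap hφ hgc hgC]
  have h3 : ∀ w : V4, ∫ x in Icc (0 : V4) 1, φ w * g (x + r • (A *ᵥ w)) =
      φ w * ∫ x in Icc (0 : V4) 1, g x := fun w => by
    rw [integral_const_mul, cube_shift hgc hgp]
  simp_rw [h3]
  rw [integral_mul_const, inv_mul_cancel_left₀ h0]

end Pool.Agent.H.MP_df7994_gt.SD
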