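import Pool.Agent.H.MP_df7994_gt.SD.Pull
import Pool.Agent.H.MP_df7994_gt.SD.ParS

/-!
SD / PullB: periods of the pull back, averages and pull back.
`avM_pull`: each entry of `Aᵀ avM A` is a finite sum of integrals of `φ w * α (A x + r A w) a b`; `P3`, `Q3` are linear.
-/

set_option autoImplicit false

namespace Pool.Agent.H.MP_df7994_gt.SD

open Set Topology MeasureTheory Metric Matrix

/-- the lattice `A⁻¹ ℤ⁴` is relatively dense and consists of periods -/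
theorem pull_per {A : M4} (hA : A.det ≠ 0) {α : V4 → M4} (hp : Per α) :
    ∃ L : Set V4, RDense L ∧ ∀ l ∈ L, ∀ x, α (A *ᵥ (x + l)) = α (A *ᵥ x) := by
  have hu : IsUnit A.det := isUnit_iff_ne_zero.mpr hA
  let T : V4 →L[ℝ] V4 := LinearMap.toContinuousLinearMap (Matrix.mulVecLin A⁻¹)
  have hT : ∀ y, T y = A⁻¹ *ᵥ y := fun y => rfl
  refine ⟨Set.range fun v : Fin 4 → ℤ => A⁻¹ *ᵥ iv v, ⟨‖T‖, fun x => ?_⟩, ?_⟩
  · refine ⟨A⁻¹ *ᵥ iv (fun i => ⌊(A *ᵥ x) i⌋), ⟨_, rfl⟩, ?_⟩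
    have h1 : x = A⁻¹ *ᵥ (A *ᵥ x) := by
      rw [Matrix.mulVec_mulVec, Matrix.nonsing_inv_mul A hu, Matrix.one_mulVec]
    have h2 : x - A⁻¹ *ᵥ iv (fun i => ⌊(A *ᵥ x) i⌋) =
        T (A *ᵥ x - iv (fun i => ⌊(A *ᵥ x) i⌋)) := by
      rw [hT, Matrix.mulVec_sub, ← h1]
    rw [h2]
    have h3 : ‖A *ᵥ x - iv (fun i => ⌊(A *ᵥ x) i⌋)‖ ≤ 1 := by
      rw [pi_norm_le_iff_of_nonneg zero_le_one]
      intro i
      have h4 := Int.floor_le ((A *ᵥ x) i)
      have h5 := Int.lt_floor_add_one ((A *ᵥ x) i)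
      rw [Pi.sub_apply, Real.norm_eq_abs, abs_le]
      unfold iv
      constructor <;> linarith
    calc ‖T (A *ᵥ x - iv (fun i => ⌊(A *ᵥ x) i⌋))‖ ≤ ‖T‖ * ‖A *ᵥ x - iv (fun i => ⌊(A *ᵥ x) i⌋)‖ :=
          T.le_opNorm _
      _ ≤ ‖T‖ * 1 := mul_le_mul_of_nonneg_left h3 (norm_nonneg _)
      _ = ‖T‖ := mul_one _
  · rintro _ ⟨v, rfl⟩ x
    rw [Matrix.mulVec_add]
    show α (A *ᵥ x + A *ᵥ (A⁻¹ *ᵥ iv v)) = _
    rw [Matrix.mulVec_mulVec, Matrix.mul_nonsing_inv A hu, Matrix.one_mulVec]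
    exact hp _ v

private theorem wf_int {φ g : V4 → ℝ} (hφ : Wf φ) (hg : Continuous g) :
    Integrable fun w => φ w * g w :=
  (hφ.sm.cont.mul hg).integrable_of_hasCompactSupport hφ.compact.mul_right

private theorem mv_cont (A : M4) : Continuous fun w : V4 => A *ᵥ w :=
  (LinearMap.toContinuousLinearMap (Matrix.mulVecLin A)).continuous

private theorem entry {φ : V4 → ℝ} (hφ : Wf φ) {A : M4} {α : V4 → M4}
    (hs : ∀ i j, Sm fun x => α x i j) (r : ℝ) (x : V4) (a b : Fin 4) :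
    (Aᵀ * avM φ A α r (A *ᵥ x) * A) a b =
      (∫ w, φ w)⁻¹ * ∫ w, φ w * pull A α (x + r • w) a b := by
  have hv : ∀ w : V4, A *ᵥ (x + r • w) = A *ᵥ x + r • (A *ᵥ w) := fun w => by
    rw [Matrix.mulVec_add, Matrix.mulVec_smul]
  have hc : ∀ p q, Continuous fun w : V4 => α (A *ᵥ x + r • (A *ᵥ w)) p q := fun p q =>
    (hs p q).cont.comp (continuous_const.add ((mv_cont A).const_smul r))
  have hi : ∀ p q, Integrable fun w : V4 => φ w * α (A *ᵥ x + r • (A *ᵥ w)) p q := fun p q =>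
    wf_int hφ (hc p q)
  have h1 : ∀ w : V4, φ w * pull A α (x + r • w) a b =
      ∑ q, ∑ p, A p a * (φ w * α (A *ᵥ x + r • (A *ᵥ w)) p q) * A q b := by
    intro w
    unfold pull
    rw [hv, Matrix.mul_apply, Finset.mul_sum]
    refine Finset.sum_congr rfl fun q _ => ?_
    rw [Matrix.mul_apply, Finset.sum_mul, Finset.mul_sum]
    refine Finset.sum_congr rfl fun p _ => ?_
    rw [Matrix.transpose_apply]
    ring
  have h2 : ∫ w, φ w * pull A α (x + r • w) a b =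
      ∑ q, ∑ p, A p a * (∫ w, φ w * α (A *ᵥ x + r • (A *ᵥ w)) p q) * A q b := by
    simp only [h1]
    rw [integral_finsetSum _ fun q _ => integrable_finsetSum _ fun p _ =>
      ((hi p q).const_mul _).mul_const _]
    refine Finset.sum_congr rfl fun q _ => ?_
    rw [integral_finsetSum _ fun p _ => ((hi p q).const_mul _).mul_const _]
    refine Finset.sum_congr rfl fun p _ => ?_
    rw [integral_mul_const, integral_const_mul]
  rw [h2, Matrix.mul_apply, Finset.mul_sum]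
  refine Finset.sum_congr rfl fun q _ => ?_
  rw [Matrix.mul_apply, Finset.sum_mul, Finset.mul_sum]
  refine Finset.sum_congr rfl fun p _ => ?_
  rw [Matrix.transpose_apply]
  unfold avM
  ring

private theorem pull_cont {A : M4} {α : V4 → M4} (hs : ∀ i j, Sm fun x => α x i j) (r : ℝ) (x : V4)
    (a b : Fin 4) : Continuous fun w : V4 => pull A α (x + r • w) a b :=
  (pull_sm hs a b).cont.comp (continuous_const.add (continuous_id.const_smul r))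

private theorem comb {φ : V4 → ℝ} (hφ : Wf φ) {f g : V4 → ℝ} (hf : Continuous f)
    (hg : Continuous g) (c : ℝ) :
    (c * ∫ w, φ w * f w) + (c * ∫ w, φ w * g w) = c * ∫ w, φ w * (f w + g w) ∧
    (c * ∫ w, φ w * f w) - (c * ∫ w, φ w * g w) = c * ∫ w, φ w * (f w - g w) := by
  constructor
  · rw [← mul_add, ← integral_add (wf_int hφ hf) (wf_int hφ hg)]
    simp only [mul_add]
  · rw [← mul_sub, ← integral_sub (wf_int hφ hf) (wf_int hφ hg)]
    simp only [mul_sub]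

/-- averages and pull back -/
theorem avM_pull {φ : V4 → ℝ} (hφ : Wf φ) {A : M4} {α : V4 → M4} (hs : ∀ i j, Sm fun x => α x i j)
    (hp : Per α) (r : ℝ) (x : V4) (i : Fin 3) :
    P3 (Aᵀ * avM φ A α r (A *ᵥ x) * A) i = (∫ w, φ w)⁻¹ * av φ r (fun y => P3 (pull A α y) i) x ∧
    Q3 (Aᵀ * avM φ A α r (A *ᵥ x) * A) i = (∫ w, φ w)⁻¹ * av φ r (fun y => Q3 (pull A α y) i) x := by
  have hE := entry hφ (A := A) (α := α) hs r x
  have hC := pull_cont (A := A) (α := α) hs r x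
  constructor
  · fin_cases i
    · show (Aᵀ * avM φ A α r (A *ᵥ x) * A) 0 1 + (Aᵀ * avM φ A α r (A *ᵥ x) * A) 2 3 =
        (∫ w, φ w)⁻¹ * ∫ w, φ w * (pull A α (x + r • w) 0 1 + pull A α (x + r • w) 2 3)
      rw [hE, hE, (comb hφ (hC 0 1) (hC 2 3) _).1]
    · show (Aᵀ * avM φ A α r (A *ᵥ x) * A) 0 2 - (Aᵀ * avM φ A α r (A *ᵥ x) * A) 1 3 =
        (∫ w, φ w)⁻¹ * ∫ w, φ w * (pull A α (x + r • w) 0 2 - pull A α (x + r • w) 1 3)
      rw [hE, hE, (comb hφ (hC 0 2) (hC 1 3) _).2]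
    · show (Aᵀ * avM φ A α r (A *ᵥ x) * A) 0 3 + (Aᵀ * avM φ A α r (A *ᵥ x) * A) 1 2 =
        (∫ w, φ w)⁻¹ * ∫ w, φ w * (pull A α (x + r • w) 0 3 + pull A α (x + r • w) 1 2)
      rw [hE, hE, (comb hφ (hC 0 3) (hC 1 2) _).1]
  · fin_cases i
    · show (Aᵀ * avM φ A α r (A *ᵥ x) * A) 0 1 - (Aᵀ * avM φ A α r (A *ᵥ x) * A) 2 3 =
        (∫ w, φ w)⁻¹ * ∫ w, φ w * (pull A α (x + r • w) 0 1 - pull A α (x + r • w) 2 3)
      rw [hE, hE, (comb hφ (hC 0 1) (hC 2 3) _).2]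
    · show (Aᵀ * avM φ A α r (A *ᵥ x) * A) 0 2 + (Aᵀ * avM φ A α r (A *ᵥ x) * A) 1 3 =
        (∫ w, φ w)⁻¹ * ∫ w, φ w * (pull A α (x + r • w) 0 2 + pull A α (x + r • w) 1 3)
      rw [hE, hE, (comb hφ (hC 0 2) (hC 1 3) _).1]
    · show (Aᵀ * avM φ A α r (A *ᵥ x) * A) 0 3 - (Aᵀ * avM φ A α r (A *ᵥ x) * A) 1 2 =
        (∫ w, φ w)⁻¹ * ∫ w, φ w * (pull A α (x + r • w) 0 3 - pull A α (x + r • w) 1 2)
      rw [hE, hE, (comb hφ (hC 0 3) (hC 1 2) _).2]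

end Pool.Agent.H.MP_df7994_gt.SD
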