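import Pool.Agent.H.MP_df7994_gt.SD.MeanB
import Pool.Agent.H.MP_df7994_gt.SD.StepB
import Pool.Agent.H.MP_df7994_gt.SD.PullB

/-!
SD / MeanC: `avM φ A α r (A x) i j = c⁻¹ av φ r (fun x => α (A x) i j) x` varies by at most `C / r` (`near_const` with the
periods of `pull_per`; `fun x => α (A x) i j` is smooth, `nice_of_per`), and its mean is `mean α i j` (`mean_avM`), so
`|avM - mean| = |∫_{cube} (avM y - avM x) dx| ≤ C / r` (volume of the cube is 1).
-/

set_option autoImplicit false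

namespace Pool.Agent.H.MP_df7994_gt.SD

open Set Topology MeasureTheory Metric Matrix

variable {φ : V4 → ℝ} {A : M4} {α : V4 → M4}

private theorem sm_pull_entry (hs : ∀ i j, Sm fun x => α x i j) (i j : Fin 4) :
    Sm fun x => α (A *ᵥ x) i j := by
  have h1 : ContDiff ℝ ((⊤ : ℕ∞) : WithTop ℕ∞) fun x => α x i j := hs i j
  exact h1.comp (LinearMap.toContinuousLinearMap (Matrix.mulVecLin A)).contDiff

private theorem avM_eq (r : ℝ) (x : V4) (i j : Fin 4) :
    avM φ A α r (A *ᵥ x) i j = (∫ w, φ w)⁻¹ * av φ r (fun x => α (A *ᵥ x) i j) x := by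
  unfold avM av
  congr 2
  funext w
  show φ w * α (A *ᵥ x + r • (A *ᵥ w)) i j = φ w * α (A *ᵥ (x + r • w)) i j
  rw [Matrix.mulVec_add, Matrix.mulVec_smul]

theorem avM_limit (hφ : Wf φ) (h0 : (∫ w, φ w) ≠ 0) (hA : A.det ≠ 0)
    (hs : ∀ i j, Sm fun x => α x i j) (hp : Per α) :
    ∃ C : ℝ, 0 ≤ C ∧ ∀ (r : ℝ) (y : V4) (i j : Fin 4), 0 < r → |avM φ A α r y i j - mean α i j| ≤ C / r := by
  classical
  obtain ⟨L, hL, hLp⟩ := pull_per hA hp
  have hper : ∀ i j, ∀ l ∈ L, ∀ x, α (A *ᵥ (x + l)) i j = α (A *ᵥ x) i j := fun i j l hl x => by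
    rw [hLp l hl x]
  have hnice : ∀ i j, Nice fun x => α (A *ᵥ x) i j := fun i j =>
    nice_of_per (sm_pull_entry hs i j) hL (hper i j)
  choose C hC0 hC using fun i j => near_const hφ (hnice i j) hL (hper i j)
  set c : ℝ := ∫ w, φ w with hc
  -- a common bound
  have hsum : ∀ i j, |c⁻¹| * C i j ≤ ∑ i, ∑ j, |c⁻¹| * C i j := by
    intro i j
    have h1 : |c⁻¹| * C i j ≤ ∑ j, |c⁻¹| * C i j :=
      Finset.single_le_sum (f := fun j => |c⁻¹| * C i j)
        (fun j _ => mul_nonneg (abs_nonneg _) (hC0 i j)) (Finset.mem_univ j)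
    have h2 : ∑ j, |c⁻¹| * C i j ≤ ∑ i, ∑ j, |c⁻¹| * C i j :=
      Finset.single_le_sum (f := fun i => ∑ j, |c⁻¹| * C i j)
        (fun i _ => Finset.sum_nonneg fun j _ => mul_nonneg (abs_nonneg _) (hC0 i j))
        (Finset.mem_univ i)
    exact h1.trans h2
  refine ⟨∑ i, ∑ j, |c⁻¹| * C i j, Finset.sum_nonneg fun i _ => Finset.sum_nonneg fun j _ =>
    mul_nonneg (abs_nonneg _) (hC0 i j), ?_⟩
  intro r y i j hr
  have hinv : ∀ z : V4, A *ᵥ (A⁻¹ *ᵥ z) = z := by
    intro z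
    rw [Matrix.mulVec_mulVec, Matrix.mul_nonsing_inv A (isUnit_iff_ne_zero.2 hA),
      Matrix.one_mulVec]
  have hvar : ∀ z : V4, ‖avM φ A α r y i j - avM φ A α r z i j‖ ≤
      (∑ i, ∑ j, |c⁻¹| * C i j) / r := by
    intro z
    rw [← hinv y, ← hinv z, avM_eq, avM_eq, ← mul_sub, norm_mul, Real.norm_eq_abs,
      Real.norm_eq_abs]
    have h1 := hC i j r (A⁻¹ *ᵥ y) (A⁻¹ *ᵥ z) hr
    calc |c⁻¹| * |_| ≤ |c⁻¹| * (C i j / r) := mul_le_mul_of_nonneg_left h1 (abs_nonneg _)
      _ = |c⁻¹| * C i j / r := by rw [mul_div_assoc]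
      _ ≤ _ := div_le_div_of_nonneg_right (hsum i j) hr.le
  have hvol : volume (Icc (0 : V4) 1) = 1 := by
    rw [Real.volume_Icc_pi]
    simp
  have hvolr : volume.real (Icc (0 : V4) 1) = 1 := by
    rw [Measure.real, hvol]
    simp
  have hm : mean α i j = ∫ x in Icc (0 : V4) 1, avM φ A α r x i j := by
    have h1 := mean_avM (A := A) hφ h0 hs hp r
    rw [← h1]
    rfl
  have hcont : Continuous fun y => avM φ A α r y i j := by
    have h1 : ContDiff ℝ ((⊤ : ℕ∞) : WithTop ℕ∞) fun y => avM φ A α r y i j :=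
      avM_sm hφ hs hp r i j
    exact h1.continuous
  have hint : IntegrableOn (fun y => avM φ A α r y i j) (Icc (0 : V4) 1) volume :=
    hcont.continuousOn.integrableOn_compact isCompact_Icc
  have hconst : IntegrableOn (fun _ : V4 => avM φ A α r y i j) (Icc (0 : V4) 1) volume :=
    continuousOn_const.integrableOn_compact isCompact_Icc
  have he : avM φ A α r y i j - mean α i j =
      ∫ x in Icc (0 : V4) 1, (avM φ A α r y i j - avM φ A α r x i j) := by
    rw [integral_sub hconst hint, hm, setIntegral_const, hvolr, one_smul]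
  rw [he, ← Real.norm_eq_abs]
  have h2 := norm_setIntegral_le_of_norm_le_const (μ := volume) (s := Icc (0 : V4) 1)
    (f := fun x => avM φ A α r y i j - avM φ A α r x i j) (C := (∑ i, ∑ j, |c⁻¹| * C i j) / r)
    (by rw [hvol]; exact ENNReal.one_lt_top) (fun x _ => hvar x)
  rw [hvolr, mul_one] at h2
  exact h2

end Pool.Agent.H.MP_df7994_gt.SD
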