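import Pool.Agent.H.MP_df7994_gt.SD.CalcL

/-!
SD / NiceL: lemmas on `Nice`.
For `Nice.D`: `D i g x = fderiv ℝ g x (Pi.single i 1)`; `‖iteratedFDeriv ℝ n (D i g) x‖ ≤ C ‖iteratedFDeriv ℝ (n+1) g x‖`
(`norm_iteratedFDeriv_clm_apply_const` or `ContinuousLinearMap.norm_iteratedFDeriv_comp_left` applied to
`fderiv ℝ g`, and `norm_iteratedFDeriv_fderiv`). Compare `H/MP_df7994_gt/Dir.lean` (`iter_bdd`, `per_iter`).
-/

set_option autoImplicit false

namespace Pool.Agent.H.MP_df7994_gt.SD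

open Set Topology MeasureTheory Metric

theorem Nice.D {g : V4 → ℝ} (hg : Nice g) (i : Fin 4) : Nice (SD.D i g) := by
  refine ⟨hg.sm.D i, fun n => ?_⟩
  obtain ⟨C, hC⟩ := hg.bd (n + 1)
  let L : (V4 →L[ℝ] ℝ) →L[ℝ] ℝ := ContinuousLinearMap.apply ℝ ℝ (Pi.single i 1)
  have hL : SD.D i g = L ∘ fderiv ℝ g := rfl
  have h1 : ContDiff ℝ n (fderiv ℝ g) :=
    ContDiff.fderiv_right (m := n) (n := ((⊤ : ℕ∞) : WithTop ℕ∞)) hg.sm (by exact_mod_cast le_top)
  refine ⟨‖L‖ * C, fun x => ?_⟩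
  rw [hL]
  refine (L.norm_iteratedFDeriv_comp_left (h1.contDiffAt (x := x)) le_rfl).trans ?_
  rw [norm_iteratedFDeriv_fderiv]
  exact mul_le_mul_of_nonneg_left (hC x) (norm_nonneg _)

theorem Nice.bound {g : V4 → ℝ} (hg : Nice g) : ∃ C : ℝ, 0 ≤ C ∧ ∀ x, |g x| ≤ C := by
  obtain ⟨C, hC⟩ := hg.bd 0
  have h : ∀ x, |g x| ≤ C := fun x => by
    have := hC x
    rwa [norm_iteratedFDeriv_zero, Real.norm_eq_abs] at this
  exact ⟨C, (abs_nonneg _).trans (h 0), h⟩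

private theorem NiceL_add {f g : V4 → ℝ} (hf : Nice f) (hg : Nice g) :
    Nice fun x => f x + g x := by
  refine ⟨hf.sm.add hg.sm, fun n => ?_⟩
  obtain ⟨A, hA⟩ := hf.bd n
  obtain ⟨B, hB⟩ := hg.bd n
  refine ⟨A + B, fun x => ?_⟩
  have h1 : ContDiffAt ℝ n f x := (hf.sm.of_le (by exact_mod_cast le_top)).contDiffAt
  have h2 : ContDiffAt ℝ n g x := (hg.sm.of_le (by exact_mod_cast le_top)).contDiffAt
  have h3 : iteratedFDeriv ℝ n (fun x => f x + g x) x =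
      iteratedFDeriv ℝ n f x + iteratedFDeriv ℝ n g x := iteratedFDeriv_add_apply h1 h2
  rw [h3]
  exact (norm_add_le _ _).trans (add_le_add (hA x) (hB x))

theorem Nice.lap {g : V4 → ℝ} (hg : Nice g) : Nice (SD.lap g) := by
  have h : SD.lap g = fun x => SD.D 0 (SD.D 0 g) x + SD.D 1 (SD.D 1 g) x + SD.D 2 (SD.D 2 g) x +
      SD.D 3 (SD.D 3 g) x := by
    funext x
    exact Fin.sum_univ_four _
  rw [h]
  exact NiceL_add (NiceL_add (NiceL_add ((hg.D 0).D 0) ((hg.D 1).D 1)) ((hg.D 2).D 2))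
    ((hg.D 3).D 3)

theorem nice_of_compact {g : V4 → ℝ} (hg : Sm g) (hc : HasCompactSupport g) : Nice g := by
  refine ⟨hg, fun n => ?_⟩
  exact (hg.continuous_iteratedFDeriv (m := n)
    (by exact_mod_cast le_top)).bounded_above_of_compact_support (hc.iteratedFDeriv n)

theorem nice_of_per {g : V4 → ℝ} (hg : Sm g) {L : Set V4} (hL : RDense L)
    (hp : ∀ l ∈ L, ∀ x, g (x + l) = g x) : Nice g := by
  refine ⟨hg, fun n => ?_⟩
  obtain ⟨d, hd⟩ := hL
  have hcont : Continuous (iteratedFDeriv ℝ n g) :=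
    hg.continuous_iteratedFDeriv (by exact_mod_cast le_top)
  have hper : ∀ l ∈ L, ∀ x, iteratedFDeriv ℝ n g (x + l) = iteratedFDeriv ℝ n g x := by
    intro l hl x
    have h1 : (fun z => g (z + l)) = g := funext fun z => hp l hl z
    have h2 := iteratedFDeriv_comp_add_right (𝕜 := ℝ) (f := g) n l x
    rw [h1] at h2
    exact h2.symm
  obtain ⟨C, hC⟩ := (isCompact_closedBall (0 : V4) d).exists_bound_of_continuousOn
    (f := iteratedFDeriv ℝ n g) hcont.continuousOn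
  refine ⟨C, fun x => ?_⟩
  obtain ⟨l, hl, hxl⟩ := hd x
  have h1 : x - l + l = x := sub_add_cancel x l
  rw [← h1, hper l hl (x - l)]
  exact hC _ (by rw [mem_closedBall_zero_iff]; exact hxl)

end Pool.Agent.H.MP_df7994_gt.SD
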