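import Pool.Agent.H.MP_df7994_gt.SD.NiceL

/-!
SD / Par: differentiation of `y ↦ ∫ m(a) g(y + θ a) dμ(a)` under the integral sign, `g` with all derivatives
bounded, `m` integrable, `θ` measurable (no bound on `θ` needed).
`par_der`: `hasFDerivAt_integral_of_dominated_of_fderiv_le` with bound `|m a| * C`, then apply to `Pi.single i 1`.
`par_sm`: induction on the order with values in Banach spaces, compare `avg_contDiff_nat`, `avg_contDiff`
in `H/MP_df7994_gt/Avg.lean` (there an interval average).
-/

set_option autoImplicit false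

namespace Pool.Agent.H.MP_df7994_gt.SD

open Set Topology MeasureTheory Metric

variable {Ω : Type*} [MeasurableSpace Ω] {μ : Measure Ω} {m : Ω → ℝ} {θ : Ω → V4} {g : V4 → ℝ}

theorem par_int (hm : Integrable m μ) (hθ : Measurable θ) (hg : Nice g) (y : V4) :
    Integrable (fun a => m a * g (y + θ a)) μ := by
  obtain ⟨C, -, hC⟩ := hg.bound
  have hmeas : AEStronglyMeasurable (fun a => g (y + θ a)) μ :=
    hg.sm.cont.comp_aestronglyMeasurable (hθ.const_add y).aestronglyMeasurable
  exact hm.mul_bdd hmeas (Filter.Eventually.of_forall fun a => by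
    rw [Real.norm_eq_abs]
    exact hC _)

theorem par_der (hm : Integrable m μ) (hθ : Measurable θ) (hg : Nice g) (i : Fin 4) (y : V4) :
    D i (fun y => ∫ a, m a * g (y + θ a) ∂μ) y = ∫ a, m a * D i g (y + θ a) ∂μ := by
  have hs : ContDiff ℝ ((⊤ : ℕ∞) : WithTop ℕ∞) g := hg.sm
  have hcd : Continuous (fderiv ℝ g) := hs.continuous_fderiv (by simp)
  obtain ⟨C, hC⟩ := hg.bd 1
  have hC' : ∀ x, ‖fderiv ℝ g x‖ ≤ C := fun x => by
    rw [← norm_iteratedFDeriv_one]
    exact hC x
  have hmd : ∀ x, AEStronglyMeasurable (fun a => fderiv ℝ g (x + θ a)) μ := fun x =>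
    hcd.comp_aestronglyMeasurable (hθ.const_add x).aestronglyMeasurable
  have hmF : ∀ x, AEStronglyMeasurable (fun a => m a • fderiv ℝ g (x + θ a)) μ := fun x =>
    hm.1.smul (hmd x)
  have hbd : ∀ (x : V4) (a : Ω), ‖m a • fderiv ℝ g (x + θ a)‖ ≤ |m a| * C := fun x a => by
    rw [norm_smul, Real.norm_eq_abs]
    exact mul_le_mul_of_nonneg_left (hC' _) (abs_nonneg _)
  have hib : Integrable (fun a => |m a| * C) μ := hm.abs.mul_const C
  have hder : ∀ (a : Ω) (x : V4),
      HasFDerivAt (fun x => m a * g (x + θ a)) (m a • fderiv ℝ g (x + θ a)) x := by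
    intro a x
    have h1 : HasFDerivAt g (fderiv ℝ g (x + θ a)) (x + θ a) :=
      (hg.sm.diff (x + θ a)).hasFDerivAt
    have h2 : HasFDerivAt (fun x => g (x + θ a)) (fderiv ℝ g (x + θ a)) x := by
      have h3 := h1.comp x ((hasFDerivAt_id x).add_const (θ a))
      rwa [ContinuousLinearMap.comp_id] at h3
    exact h2.const_mul (m a)
  have hint : Integrable (fun a => m a • fderiv ℝ g (y + θ a)) μ :=
    hib.mono' (hmF y) (Filter.Eventually.of_forall fun a => hbd y a)
  have key : HasFDerivAt (fun y => ∫ a, m a * g (y + θ a) ∂μ)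
      (∫ a, m a • fderiv ℝ g (y + θ a) ∂μ) y := by
    refine hasFDerivAt_integral_of_dominated_of_fderiv_le (bound := fun a => |m a| * C)
      (F := fun x a => m a * g (x + θ a)) (F' := fun x a => m a • fderiv ℝ g (x + θ a))
      (s := Set.univ) Filter.univ_mem
      (Filter.Eventually.of_forall fun x => (par_int hm hθ hg x).1) (par_int hm hθ hg y) (hmF y)
      (Filter.Eventually.of_forall fun a x _ => hbd x a) hib
      (Filter.Eventually.of_forall fun a x _ => hder a x)
  unfold D
  rw [key.fderiv, ContinuousLinearMap.integral_apply hint]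
  rfl

end Pool.Agent.H.MP_df7994_gt.SD
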