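import Pool.Agent.H.MP_df7994_gt.SD.Core
import Pool.Agent.H.MP_df7994_gt.SD.AlgB
import Pool.Agent.H.MP_df7994_gt.SD.PullB

/-!
SD / Path: symplectic forms of small dilatation, choice of the orientation of `A`.
`dil_pos`: `pf (Aᵀ α A) = det A * pf α` has constant sign (continuous, nowhere zero since `pf ^ 2 = det`); replace `A` by
`A * diagonal ![-1,1,1,1]` if it is negative (the sum of squares and `|pf|` do not change).
-/

set_option autoImplicit false

namespace Pool.Agent.H.MP_df7994_gt.SD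

open Set Topology MeasureTheory Metric Matrix

/-- symplectic forms -/
structure Symp (α : V4 → M4) : Prop where
  sm : ∀ i j, Sm fun x => α x i j
  skew : ∀ x i j, α x i j = - α x j i
  per : Per α
  cl : Cl α
  nd : ∀ x, (α x).det ≠ 0

/-- small dilatation with respect to a constant inner product -/
def Dil (ε : ℝ) (α : V4 → M4) : Prop :=
  ∃ A : M4, A.det ≠ 0 ∧ ∀ x, ∑ i, ∑ j, (Aᵀ * α x * A) i j ^ 2 ≤ (4 + ε) * |pf (Aᵀ * α x * A)|

/-- `Aᵀ B A` is skew -/
private theorem Path_skew {A B : M4} (hB : ∀ i j, B i j = - B j i) (i j : Fin 4) :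
    (Aᵀ * B * A) i j = - (Aᵀ * B * A) j i := by
  have e : Bᵀ = -B := by
    ext a b
    rw [Matrix.transpose_apply, Matrix.neg_apply]
    exact hB b a
  have h : (Aᵀ * B * A)ᵀ = -(Aᵀ * B * A) := by
    rw [Matrix.transpose_mul, Matrix.transpose_mul, Matrix.transpose_transpose, e,
      Matrix.neg_mul, Matrix.mul_neg, Matrix.mul_assoc]
  have h1 := congrFun (congrFun h j) i
  rw [Matrix.transpose_apply, Matrix.neg_apply] at h1
  exact h1

/-- the signs -/
private def Path_d : Fin 4 → ℝ := ![-1, 1, 1, 1]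

private theorem Path_flip (A B : M4) (i j : Fin 4) :
    ((A * diagonal Path_d)ᵀ * B * (A * diagonal Path_d)) i j =
      Path_d i * (Aᵀ * B * A) i j * Path_d j := by
  have e : (A * diagonal Path_d)ᵀ * B * (A * diagonal Path_d) =
      diagonal Path_d * (Aᵀ * B * A) * diagonal Path_d := by
    rw [Matrix.transpose_mul, Matrix.diagonal_transpose]
    simp only [Matrix.mul_assoc]
  rw [e, Matrix.mul_diagonal, Matrix.diagonal_mul]

private theorem Path_d_sq (i : Fin 4) : Path_d i ^ 2 = 1 := by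
  fin_cases i <;> simp [Path_d]

/-- a matrix `A` can be chosen with positive Pfaffian (multiply by `diag (-1,1,1,1)`) -/
theorem dil_pos {ε : ℝ} {α : V4 → M4} (hα : Symp α) (h : Dil ε α) :
    ∃ A : M4, A.det ≠ 0 ∧ (∀ x, ∑ i, ∑ j, (Aᵀ * α x * A) i j ^ 2 ≤ (4 + ε) * |pf (Aᵀ * α x * A)|) ∧
      ∀ x, 0 < pf (Aᵀ * α x * A) := by
  obtain ⟨A, hA, hdil⟩ := h
  have hcont : Continuous fun x => pf (Aᵀ * α x * A) := by
    have h1 : Continuous fun x => α x := by
      refine continuous_matrix fun i j => ?_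
      exact (hα.sm i j).continuous
    have h2 : Continuous fun x => Aᵀ * α x * A :=
      (continuous_const.matrix_mul h1).matrix_mul continuous_const
    have h3 : ∀ i j, Continuous fun x => (Aᵀ * α x * A) i j := fun i j => h2.matrix_elem i j
    unfold pf
    exact (((h3 0 1).mul (h3 2 3)).sub ((h3 0 2).mul (h3 1 3))).add ((h3 0 3).mul (h3 1 2))
  have hne : ∀ x, pf (Aᵀ * α x * A) ≠ 0 := by
    intro x h0
    have h1 := det_skew (Path_skew (A := A) (hα.skew x))
    rw [h0, Matrix.det_mul, Matrix.det_mul, Matrix.det_transpose] at h1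
    have h2 : A.det * (α x).det * A.det ≠ 0 := mul_ne_zero (mul_ne_zero hA (hα.nd x)) hA
    apply h2
    rw [h1]
    norm_num
  have hsign : (∀ x, 0 < pf (Aᵀ * α x * A)) ∨ ∀ x, pf (Aᵀ * α x * A) < 0 := by
    by_contra hcon
    push Not at hcon
    obtain ⟨⟨x, hx⟩, y, hy⟩ := hcon
    obtain ⟨z, hz⟩ := mem_range_of_exists_le_of_exists_ge hcont ⟨x, hx⟩ ⟨y, hy⟩
    exact hne z hz
  rcases hsign with hs | hs
  · exact ⟨A, hA, hdil, hs⟩
  · have hpf : ∀ x, pf ((A * diagonal Path_d)ᵀ * α x * (A * diagonal Path_d)) =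
        - pf (Aᵀ * α x * A) := by
      intro x
      unfold pf
      simp only [Path_flip]
      simp [Path_d]
      ring
    refine ⟨A * diagonal Path_d, ?_, fun x => ?_, fun x => ?_⟩
    · rw [Matrix.det_mul, Matrix.det_diagonal]
      refine mul_ne_zero hA ?_
      simp [Path_d, Fin.prod_univ_four]
    · rw [hpf, abs_neg]
      refine le_trans (le_of_eq ?_) (hdil x)
      refine Finset.sum_congr rfl fun i _ => Finset.sum_congr rfl fun j _ => ?_
      rw [Path_flip, mul_pow, mul_pow, Path_d_sq, Path_d_sq, one_mul, mul_one]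
    · rw [hpf]
      exact neg_pos.2 (hs x)

end Pool.Agent.H.MP_df7994_gt.SD
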