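import Pool.Agent.H.MP_df7994_gt.SD.Path

/-!
SD / PathB: the averages are nondegenerate.
The pair `p i x = P3 (pull A α x) i`, `q i x = Q3 (pull A α x) i` satisfies the hypotheses of `core`: `lap_eq` with
`pull_sm`, `pull_skew`, `pull_cl`; `pinch_of` (`ε = 8 * k0 ^ 2`); `nice_of_per` with the periods of `pull_per`; the lower
bound `m0` by compactness (`∑ P3 ^ 2 ≥ 4 pf > 0`, continuous and periodic, relatively dense periods). So
`δ ≤ ∑ P3 ^ 2`, `2 ∑ Q3 ^ 2 ≤ ∑ P3 ^ 2` for `Aᵀ avM A` (`avM_pull`, `A` is surjective, factor `c⁻²`), and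
`4 pf = ∑ P3 ^ 2 - ∑ Q3 ^ 2` (`four_pf`).
-/

set_option autoImplicit false

namespace Pool.Agent.H.MP_df7994_gt.SD

open Set Topology MeasureTheory Metric Matrix

theorem PathB_sm {W : V4 → M4} (hs : ∀ i j, Sm fun x => W x i j) (i : Fin 3) :
    Sm (fun x => P3 (W x) i) ∧ Sm (fun x => Q3 (W x) i) := by
  have ha : ∀ i j k l, Sm fun x => W x i j + W x k l := fun i j k l => (hs i j).add (hs k l)
  have hb : ∀ i j k l, Sm fun x => W x i j - W x k l := fun i j k l => (hs i j).sub (hs k l)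
  fin_cases i
  · exact ⟨ha 0 1 2 3, hb 0 1 2 3⟩
  · exact ⟨hb 0 2 1 3, ha 0 2 1 3⟩
  · exact ⟨ha 0 3 1 2, hb 0 3 1 2⟩

/-- a positive lower bound for a continuous function with relatively dense periods -/
theorem PathB_low {L : Set V4} (hL : RDense L) {f : V4 → ℝ} (hf : Continuous f)
    (hp : ∀ l ∈ L, ∀ x, f (x + l) = f x) (h0 : ∀ x, 0 < f x) : ∃ μ : ℝ, 0 < μ ∧ ∀ x, μ ≤ f x := by
  obtain ⟨d, hd⟩ := hL
  obtain ⟨l0, -, hl0⟩ := hd 0
  have hd0 : 0 ≤ d := (norm_nonneg _).trans hl0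
  obtain ⟨z, -, hz⟩ := (isCompact_closedBall (0 : V4) d).exists_isMinOn
    ⟨0, mem_closedBall_self hd0⟩ hf.continuousOn
  refine ⟨f z, h0 z, fun x => ?_⟩
  obtain ⟨l, hl, hxl⟩ := hd x
  have h1 := hp l hl (x - l)
  rw [sub_add_cancel] at h1
  rw [h1]
  exact hz (mem_closedBall_zero_iff.2 hxl)

theorem nondeg {h φ : V4 → ℝ} (W : Wt h φ) : ∃ ε : ℝ, 0 < ε ∧ ∀ (α : V4 → M4) (A : M4), Symp α →
    A.det ≠ 0 → (∀ x, ∑ i, ∑ j, (Aᵀ * α x * A) i j ^ 2 ≤ (4 + ε) * |pf (Aᵀ * α x * A)|) →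
    (∀ x, 0 < pf (Aᵀ * α x * A)) →
    ∃ δ : ℝ, 0 < δ ∧ ∀ (r : ℝ) (y : V4), 0 ≤ r → δ ≤ pf (Aᵀ * avM φ A α r y * A) := by
  obtain ⟨k0, hk0, -, hcore⟩ := core W
  refine ⟨8 * k0 ^ 2, by positivity, fun α A hα hA hdil hpos => ?_⟩
  have hs := pull_sm (A := A) hα.sm
  have hk := pull_skew (A := A) hα.skew
  have hc := pull_cl (A := A) hα.sm hα.cl
  obtain ⟨L, hL, hper⟩ := pull_per hA hα.per
  have hpull : ∀ l ∈ L, ∀ x, pull A α (x + l) = pull A α x := fun l hl x => by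
    unfold pull
    rw [hper l hl x]
  have hpP : ∀ l ∈ L, ∀ i x, P3 (pull A α (x + l)) i = P3 (pull A α x) i := fun l hl i x => by
    rw [hpull l hl x]
  have hpQ : ∀ l ∈ L, ∀ i x, Q3 (pull A α (x + l)) i = Q3 (pull A α x) i := fun l hl i x => by
    rw [hpull l hl x]
  have hpair : Pair (fun i x => P3 (pull A α x) i) (fun i x => Q3 (pull A α x) i) :=
    { pn := fun i => nice_of_per (PathB_sm hs i).1 hL fun l hl x => hpP l hl i x
      qn := fun i => nice_of_per (PathB_sm hs i).2 hL fun l hl x => hpQ l hl i x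
      eq := fun i x => lap_eq hs hk hc i x }
  have hpinch : Pinch k0 (fun i x => P3 (pull A α x) i) (fun i x => Q3 (pull A α x) i) :=
    fun x => pinch_of (hk x) (hpos (A *ᵥ x)) (hdil (A *ᵥ x))
  have hcont : Continuous fun x => ∑ i, P3 (pull A α x) i ^ 2 := by
    refine continuous_finsetSum _ fun i _ => ?_
    exact ((PathB_sm hs i).1.continuous).pow 2
  have hpos' : ∀ x, 0 < ∑ i, P3 (pull A α x) i ^ 2 := fun x => by
    have h1 := four_pf (pull A α x)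
    have h2 : 0 < pf (pull A α x) := hpos (A *ᵥ x)
    have h3 : 0 ≤ ∑ i, Q3 (pull A α x) i ^ 2 := Finset.sum_nonneg fun i _ => sq_nonneg _
    linarith
  obtain ⟨μ, hμ, hlow⟩ := PathB_low hL hcont (fun l hl x => by rw [hpull l hl x]) hpos'
  obtain ⟨δ, hδ, hh⟩ := hcore _ _ L (Real.sqrt μ) hpair hpinch hL hpP (Real.sqrt_pos.2 hμ)
    (fun x => by rw [Real.sq_sqrt hμ.le]; exact hlow x)
  have hc0 : 0 < ∫ w, φ w := W.pos
  refine ⟨(∫ w, φ w)⁻¹ ^ 2 * δ / 8, by positivity, fun r y hr => ?_⟩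
  have hy : A *ᵥ (A⁻¹ *ᵥ y) = y := by
    rw [Matrix.mulVec_mulVec, Matrix.mul_nonsing_inv _ (isUnit_iff_ne_zero.2 hA), Matrix.one_mulVec]
  have hB := avM_pull W.φf hα.sm hα.per r (A⁻¹ *ᵥ y) (A := A)
  rw [hy] at hB
  have h4 := four_pf (Aᵀ * avM φ A α r y * A)
  have hP : ∑ i, P3 (Aᵀ * avM φ A α r y * A) i ^ 2 =
      (∫ w, φ w)⁻¹ ^ 2 * ∑ i, av φ r (fun x => P3 (pull A α x) i) (A⁻¹ *ᵥ y) ^ 2 := by
    rw [Finset.mul_sum]
    exact Finset.sum_congr rfl fun i _ => by rw [(hB i).1, mul_pow]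
  have hQ : ∑ i, Q3 (Aᵀ * avM φ A α r y * A) i ^ 2 =
      (∫ w, φ w)⁻¹ ^ 2 * ∑ i, av φ r (fun x => Q3 (pull A α x) i) (A⁻¹ *ᵥ y) ^ 2 := by
    rw [Finset.mul_sum]
    exact Finset.sum_congr rfl fun i _ => by rw [(hB i).2, mul_pow]
  obtain ⟨h5, h6⟩ := hh r (A⁻¹ *ᵥ y) hr
  rw [hP, hQ] at h4
  have h7 : 0 ≤ (∫ w, φ w)⁻¹ ^ 2 := sq_nonneg _
  have h8 := mul_le_mul_of_nonneg_left h5 h7
  have h9 := mul_le_mul_of_nonneg_left h6 h7
  linarith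

end Pool.Agent.H.MP_df7994_gt.SD
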