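import Pool.Agent.H.MP_df7994_gt.SD.Path
import Pool.Agent.H.MP_df7994_gt.SD.MeanC

/-!
SD / PathC: the averages and the final segment are symplectic.
`avM_symp`: `avM_sm`, `avM_skew`, `avM_per`, `avM_cl`; `pf ^ 2 = det` for skew matrices and `det (Aᵀ B A) = det A ^ 2 det B`.
`seg_pos`: `avM φ A α r y → mean α` uniformly (`avM_limit`), `pf (Aᵀ X A)` is continuous in `X`, so
`δ ≤ pf (Aᵀ (mean α) A)`, and it is `> 0` for all `X` in a small ball around `mean α` (convex).
-/

set_option autoImplicit false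

namespace Pool.Agent.H.MP_df7994_gt.SD

open Set Topology MeasureTheory Metric Matrix

private theorem pc_skew {A B : M4} (h : ∀ i j, B i j = - B j i) (i j : Fin 4) :
    (Aᵀ * B * A) i j = - (Aᵀ * B * A) j i := by
  have h1 : Bᵀ = - B := by
    ext a b
    rw [Matrix.transpose_apply, Matrix.neg_apply]
    exact h b a
  have h2 : (Aᵀ * B * A)ᵀ = - (Aᵀ * B * A) := by
    rw [Matrix.transpose_mul, Matrix.transpose_mul, Matrix.transpose_transpose, h1, Matrix.neg_mul,
      Matrix.mul_neg, ← Matrix.mul_assoc]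
  have h3 := congrFun (congrFun h2 j) i
  rw [Matrix.transpose_apply, Matrix.neg_apply] at h3
  exact h3

private theorem pc_det {A B : M4} (h : ∀ i j, B i j = - B j i) (hp : 0 < pf (Aᵀ * B * A)) :
    B.det ≠ 0 := by
  intro h0
  have h1 := det_skew (pc_skew (A := A) h)
  rw [Matrix.det_mul, Matrix.det_mul, h0, mul_zero, zero_mul] at h1
  have h2 : 0 < pf (Aᵀ * B * A) ^ 2 := by positivity
  rw [← h1] at h2
  exact lt_irrefl _ h2

/-- the averages are symplectic -/
theorem avM_symp {φ : V4 → ℝ} (hφ : Wf φ) {α : V4 → M4} (hα : Symp α) {A : M4} {r : ℝ}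
    (hp : ∀ y, 0 < pf (Aᵀ * avM φ A α r y * A)) : Symp (avM φ A α r) where
  sm i j := avM_sm hφ hα.sm hα.per r i j
  skew x i j := avM_skew hα.skew r x i j
  per := avM_per hα.per r
  cl := avM_cl hφ hα.sm hα.per hα.cl r
  nd x := pc_det (fun i j => avM_skew hα.skew r x i j) (hp x)

private theorem pc_D {f : V4 → ℝ} (hf : Sm f) (a c : ℝ) (i : Fin 4) (x : V4) :
    D i (fun y => a * f y + c) x = a * D i f x := by
  have hs : ContDiff ℝ ((⊤ : ℕ∞) : WithTop ℕ∞) f := hf
  have h1 : HasFDerivAt f (fderiv ℝ f x) x := (hs.differentiable (by simp) x).hasFDerivAt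
  have h2 : HasFDerivAt (fun y => a * f y + c) (a • fderiv ℝ f x) x :=
    (h1.const_mul a).add_const c
  unfold D
  rw [h2.fderiv]
  rfl

/-- the segment from a symplectic form to a constant one -/
theorem seg_symp {β : V4 → M4} (hβ : Symp β) {m A : M4} (hm : ∀ i j, m i j = - m j i)
    (hp : ∀ s ∈ Icc (0 : ℝ) 1, ∀ y, 0 < pf (Aᵀ * ((1 - s) • β y + s • m) * A)) :
    ∀ s ∈ Icc (0 : ℝ) 1, Symp (fun y => (1 - s) • β y + s • m) := by
  intro s hs
  have hsk : ∀ x i j, ((1 - s) • β x + s • m) i j = - ((1 - s) • β x + s • m) j i := by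
    intro x i j
    have h1 := hβ.skew x i j
    have h2 := hm i j
    simp only [Matrix.add_apply, Matrix.smul_apply, smul_eq_mul]
    rw [h1, h2]
    ring
  refine ⟨?_, hsk, ?_, ?_, fun x => pc_det (hsk x) (hp s hs x)⟩
  · intro i j
    have h1 : ContDiff ℝ ((⊤ : ℕ∞) : WithTop ℕ∞) (fun x => β x i j) := hβ.sm i j
    exact (contDiff_const.mul h1).add contDiff_const
  · intro x v
    show (1 - s) • β (x + iv v) + s • m = _
    rw [hβ.per x v]
  · intro x i j k
    have e : ∀ a b : Fin 4, (fun y => ((1 - s) • β y + s • m) a b) =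
        fun y => (1 - s) * β y a b + s * m a b := fun a b => rfl
    have h1 := pc_D (hβ.sm j k) (1 - s) (s * m j k) i x
    have h2 := pc_D (hβ.sm k i) (1 - s) (s * m k i) j x
    have h3 := pc_D (hβ.sm i j) (1 - s) (s * m i j) k x
    show D i (fun y => ((1 - s) • β y + s • m) j k) x + D j (fun y => ((1 - s) • β y + s • m) k i) x +
      D k (fun y => ((1 - s) • β y + s • m) i j) x = 0
    rw [e, e, e, h1, h2, h3, ← mul_add, ← mul_add, hβ.cl x i j k, mul_zero]

private theorem pc_cont (A : M4) : Continuous fun X : Fin 4 → Fin 4 → ℝ => pf (Aᵀ * Matrix.of X * A) := by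
  have h1 : Continuous fun X : Fin 4 → Fin 4 → ℝ => Aᵀ * Matrix.of X * A := by
    refine continuous_matrix fun i j => ?_
    simp only [Matrix.mul_apply, Matrix.of_apply]
    fun_prop
  unfold pf
  have h2 : ∀ i j, Continuous fun X : Fin 4 → Fin 4 → ℝ => (Aᵀ * Matrix.of X * A) i j := fun i j =>
    h1.matrix_elem i j
  exact (((h2 _ _).mul (h2 _ _)).sub ((h2 _ _).mul (h2 _ _))).add ((h2 _ _).mul (h2 _ _))

/-- the Pfaffian stays positive on the segment when the average is close to the mean -/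
theorem seg_pos {φ : V4 → ℝ} (hφ : Wf φ) (h0 : (∫ w, φ w) ≠ 0) {α : V4 → M4} (hα : Symp α) {A : M4}
    (hA : A.det ≠ 0) {δ : ℝ} (hδ : 0 < δ)
    (hp : ∀ (r : ℝ) (y : V4), 0 ≤ r → δ ≤ pf (Aᵀ * avM φ A α r y * A)) :
    ∃ R : ℝ, 0 < R ∧ ∀ s ∈ Icc (0 : ℝ) 1, ∀ y,
      0 < pf (Aᵀ * ((1 - s) • avM φ A α R y + s • mean α) * A) := by
  obtain ⟨C, hC, hlim⟩ := avM_limit hφ h0 hA hα.sm hα.per
  set F : (Fin 4 → Fin 4 → ℝ) → ℝ := fun X => pf (Aᵀ * Matrix.of X * A) with hF
  have hFc : Continuous F := pc_cont A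
  -- the value at the mean
  have htend : Filter.Tendsto (fun r : ℝ => (fun i j => avM φ A α r 0 i j : Fin 4 → Fin 4 → ℝ)) Filter.atTop
      (𝓝 (fun i j => mean α i j)) := by
    refine tendsto_pi_nhds.2 fun i => tendsto_pi_nhds.2 fun j => ?_
    rw [tendsto_iff_norm_sub_tendsto_zero]
    refine squeeze_zero' (Filter.Eventually.of_forall fun r => norm_nonneg _) ?_
      (tendsto_const_nhds.div_atTop Filter.tendsto_id : Filter.Tendsto (fun r : ℝ => C / id r) Filter.atTop (𝓝 0))
    filter_upwards [Filter.eventually_gt_atTop (0 : ℝ)] with r hr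
    exact hlim r 0 i j hr
  have hmean : δ ≤ F (fun i j => mean α i j) := by
    refine ge_of_tendsto ((hFc.tendsto _).comp htend) ?_
    filter_upwards [Filter.eventually_gt_atTop (0 : ℝ)] with r hr
    exact hp r 0 hr.le
  obtain ⟨η, hη, hball⟩ := Metric.nhds_basis_closedBall.mem_iff.mp
    (hFc.continuousAt.preimage_mem_nhds (Ioi_mem_nhds (lt_of_lt_of_le hδ hmean)))
  refine ⟨C / η + 1, by positivity, fun s hs y => ?_⟩
  set R : ℝ := C / η + 1 with hR
  have hRpos : 0 < R := by positivity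
  have hCR : C / R ≤ η := by
    rw [div_le_iff₀ hRpos, hR, mul_add, mul_one, mul_div_cancel₀ _ hη.ne']
    linarith
  have hmem : (fun i j => ((1 - s) • avM φ A α R y + s • mean α) i j : Fin 4 → Fin 4 → ℝ) ∈
      closedBall (fun i j => mean α i j : Fin 4 → Fin 4 → ℝ) η := by
    rw [mem_closedBall, dist_pi_le_iff hη.le]
    intro i
    rw [dist_pi_le_iff hη.le]
    intro j
    rw [Real.dist_eq]
    have e : ((1 - s) • avM φ A α R y + s • mean α) i j - mean α i j =
        (1 - s) * (avM φ A α R y i j - mean α i j) := by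
      simp only [Matrix.add_apply, Matrix.smul_apply, smul_eq_mul]
      ring
    rw [e, abs_mul, abs_of_nonneg (by linarith [hs.2] : (0 : ℝ) ≤ 1 - s)]
    have h1 := (hlim R y i j hRpos).trans hCR
    calc (1 - s) * |avM φ A α R y i j - mean α i j| ≤ 1 * η :=
          mul_le_mul (by linarith [hs.1]) h1 (abs_nonneg _) zero_le_one
      _ = η := one_mul _
  exact hball hmem

end Pool.Agent.H.MP_df7994_gt.SD
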