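import Pool.Agent.H.MP_df7994_gt.SD.Weight
import Pool.Agent.H.MP_df7994_gt.SD.PathB
import Pool.Agent.H.MP_df7994_gt.SD.PathC

/-!
SD / PathD: the path of symplectic forms from `α` to its mean.
`exists_path`: `H t = avM φ A α (2 R t)` for `t ≤ 1/2`, then the straight line from `avM φ A α R` to `mean α`
(`exists_wt`, `dil_pos`, `nondeg`, `avM_symp`, `seg_pos`, `seg_symp`, `avM_cont`, `avM_zero`, `mean_avM`).
-/

set_option autoImplicit false

namespace Pool.Agent.H.MP_df7994_gt.SD

open Set Topology MeasureTheory Metric Matrix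

private theorem pathD_vol : (volume (Icc (0 : V4) 1)).toReal = 1 := by
  rw [Real.volume_Icc_pi]
  simp

private theorem pathD_skew {α : V4 → M4} (hk : ∀ x i j, α x i j = - α x j i) (i j : Fin 4) :
    mean α i j = - mean α j i := by
  show (∫ x in Icc (0 : V4) 1, α x i j) = - ∫ x in Icc (0 : V4) 1, α x j i
  rw [← integral_neg]
  congr 1
  funext x
  exact hk x i j

/-- the mean of a convex combination with the mean -/
private theorem pathD_mean {β : V4 → M4} (hs : ∀ i j, Sm fun x => β x i j) (s : ℝ) :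
    mean (fun y => (1 - s) • β y + s • mean β) = mean β := by
  have hfin : IsFiniteMeasure (volume.restrict (Icc (0 : V4) 1)) :=
    ⟨by
      rw [Measure.restrict_apply_univ]
      exact isCompact_Icc.measure_lt_top⟩
  ext i j
  have hi : Integrable (fun x => β x i j) (volume.restrict (Icc (0 : V4) 1)) :=
    ((hs i j).continuous.continuousOn).integrableOn_compact isCompact_Icc
  show (∫ x in Icc (0 : V4) 1, ((1 - s) * β x i j + s * mean β i j)) = mean β i j
  rw [integral_add (hi.const_mul _) (integrable_const _), integral_const_mul, integral_const]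
  have h1 : (volume.restrict (Icc (0 : V4) 1)).real univ = 1 := by
    rw [Measure.real, Measure.restrict_apply_univ]
    exact pathD_vol
  rw [h1, one_smul]
  have h2 : (∫ x in Icc (0 : V4) 1, β x i j) = mean β i j := rfl
  rw [h2]
  ring

theorem exists_path : ∃ ε : ℝ, 0 < ε ∧ ∀ α : V4 → M4, Symp α → Dil ε α →
    ∃ H : ℝ → V4 → M4, Continuous (fun z : ℝ × V4 => H z.1 z.2) ∧ H 0 = α ∧ (H 1 = fun _ => mean α) ∧
      ∀ t ∈ Icc (0 : ℝ) 1, Symp (H t) ∧ mean (H t) = mean α := by
  obtain ⟨h, φ, W⟩ := exists_wt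
  obtain ⟨ε, hε, hnd⟩ := nondeg W
  refine ⟨ε, hε, fun α hα hdil => ?_⟩
  obtain ⟨A, hA, hd, hpos⟩ := dil_pos hα hdil
  obtain ⟨δ, hδ, hlow⟩ := hnd α A hα hA hd hpos
  have hφ := W.φf
  have h0 : (∫ w, φ w) ≠ 0 := W.pos.ne'
  obtain ⟨R, hR, hseg⟩ := seg_pos hφ h0 hα hA hδ hlow
  have hsy : ∀ r : ℝ, 0 ≤ r → Symp (avM φ A α r) := fun r hr =>
    avM_symp hφ hα fun y => hδ.trans_le (hlow r y hr)
  have hmean : ∀ r : ℝ, mean (avM φ A α r) = mean α := fun r => mean_avM hφ h0 hα.sm hα.per r
  have hcont : Continuous fun z : ℝ × V4 => avM φ A α z.1 z.2 := avM_cont hφ hα.sm hα.per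
  refine ⟨fun t => if t ≤ 1 / 2 then avM φ A α (2 * R * t) else
    fun y => (1 - (2 * t - 1)) • avM φ A α R y + (2 * t - 1) • mean α, ?_, ?_, ?_, ?_⟩
  · have e : (fun p : ℝ × V4 => (if p.1 ≤ 1 / 2 then avM φ A α (2 * R * p.1) else
        fun y => (1 - (2 * p.1 - 1)) • avM φ A α R y + (2 * p.1 - 1) • mean α) p.2) =
        fun p : ℝ × V4 => if p.1 ≤ 1 / 2 then avM φ A α (2 * R * p.1) p.2 else
          (1 - (2 * p.1 - 1)) • avM φ A α R p.2 + (2 * p.1 - 1) • mean α := by
      funext p
      split_ifs <;> rfl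
    rw [e]
    refine Continuous.if_le ?_ ?_ continuous_fst continuous_const ?_
    · exact hcont.comp ((continuous_const.mul continuous_fst).prodMk continuous_snd)
    · have h1 : Continuous fun p : ℝ × V4 => avM φ A α R p.2 :=
        hcont.comp (continuous_const.prodMk continuous_snd)
      have h2 : Continuous fun p : ℝ × V4 => 2 * p.1 - 1 :=
        (continuous_const.mul continuous_fst).sub continuous_const
      exact ((continuous_const.sub h2).smul h1).add (h2.smul continuous_const)
    · intro p hp1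
      have e1 : 2 * R * p.1 = R := by rw [hp1]; ring
      have e2 : 2 * p.1 - 1 = 0 := by rw [hp1]; norm_num
      rw [e1, e2, sub_zero, one_smul, zero_smul, add_zero]
  · have e : (0 : ℝ) ≤ 1 / 2 := by norm_num
    simp only [e, if_true, mul_zero]
    exact avM_zero h0
  · have e : ¬ ((1 : ℝ) ≤ 1 / 2) := by norm_num
    simp only [e, if_false]
    funext y
    norm_num
  · intro t ht
    by_cases h1 : t ≤ 1 / 2
    · simp only [h1, if_true]
      exact ⟨hsy _ (mul_nonneg (mul_nonneg zero_le_two hR.le) ht.1), hmean _⟩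
    · simp only [h1, if_false]
      have h2 : 2 * t - 1 ∈ Icc (0 : ℝ) 1 := ⟨by linarith [not_le.1 h1], by linarith [ht.2]⟩
      have hβ := hsy R hR.le
      refine ⟨seg_symp hβ (pathD_skew hα.skew) hseg _ h2, ?_⟩
      have h3 := pathD_mean hβ.sm (2 * t - 1)
      rw [hmean] at h3
      exact h3

end Pool.Agent.H.MP_df7994_gt.SD
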