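import Pool.Agent.H.MP_df7994_gt.SD.PotA

/-!
SD / Pot: Laplacian, locality, support and linearity of the truncated potential.
-/

set_option autoImplicit false

namespace Pool.Agent.H.MP_df7994_gt.SD

open Set Topology MeasureTheory Metric

variable {h φ g : V4 → ℝ}

private theorem Pot_ii (W : Wt h φ) (R : ℝ) (hg : Nice g) (y : V4) :
    IntervalIntegrable (fun r => r / 2 * av h r g y) volume 0 R := by
  apply Continuous.intervalIntegrable
  have h1 : Continuous fun r : ℝ => av h r g y :=
    (av_continuous W.hf hg).comp (continuous_id.prodMk continuous_const)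
  fun_prop

private theorem Pot_av {ι : Type*} (W : Wt h φ) (s : Finset ι) (c : ι → ℝ) (f : ι → V4 → ℝ)
    (hf : ∀ i ∈ s, Nice (f i)) (r : ℝ) (y : V4) :
    av h r (fun x => ∑ i ∈ s, c i * f i x) y = ∑ i ∈ s, c i * av h r (f i) y := by
  unfold av
  have h1 : ∀ w, h w * ∑ i ∈ s, c i * f i (y + r • w) =
      ∑ i ∈ s, c i * (h w * f i (y + r • w)) := by
    intro w
    rw [Finset.mul_sum]
    exact Finset.sum_congr rfl fun i _ => by ring
  simp only [h1]
  rw [integral_finsetSum _ fun i hi => (av_int W.hf (hf i hi) r y).const_mul (c i)]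
  exact Finset.sum_congr rfl fun i _ => integral_const_mul _ _

private theorem Pot_sum {ι : Type*} (W : Wt h φ) (R : ℝ) (s : Finset ι) (c : ι → ℝ)
    (f : ι → V4 → ℝ) (hf : ∀ i ∈ s, Nice (f i)) (y : V4) :
    pot h R (fun x => ∑ i ∈ s, c i * f i x) y = ∑ i ∈ s, c i * pot h R (f i) y := by
  unfold pot
  have h1 : ∀ r, r / 2 * av h r (fun x => ∑ i ∈ s, c i * f i x) y =
      ∑ i ∈ s, c i * (r / 2 * av h r (f i) y) := by
    intro r
    rw [Pot_av W s c f hf r y, Finset.mul_sum]
    exact Finset.sum_congr rfl fun i _ => by ring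
  simp only [h1]
  rw [intervalIntegral.integral_finsetSum fun i hi => (Pot_ii W R (hf i hi) y).const_mul (c i)]
  exact Finset.sum_congr rfl fun i _ => intervalIntegral.integral_const_mul _ _

private theorem Pot_DD (W : Wt h φ) {R : ℝ} (hR : 0 < R) (hg : Nice g) (a b : Fin 4) (y : V4) :
    D a (D b (pot h R g)) y = pot h R (D a (D b g)) y := by
  have h1 : D b (pot h R g) = pot h R (D b g) := funext fun z => pot_der W hR hg b z
  rw [h1, pot_der W hR (hg.D b)]

theorem pot_lap (W : Wt h φ) {R : ℝ} (hR : 0 < R) (hg : Nice g) (y : V4) :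
    lap (pot h R g) y = av φ R g y - (∫ w, φ w) * g y := by
  unfold lap
  simp only [Pot_DD W hR hg]
  have h1 := Pot_sum W R Finset.univ (fun _ => (1 : ℝ)) (fun i => D i (D i g))
    (fun i _ => (hg.D i).D i) y
  simp only [one_mul] at h1
  rw [← h1]
  have h2 := av_sub W hg y 0 R
  rw [av_zero] at h2
  rw [h2]
  rfl

/-- the potential depends only on the values of `g` in the ball of radius `R` -/
theorem pot_local (W : Wt h φ) {R : ℝ} (hR : 0 < R) {g g' : V4 → ℝ} (y : V4)
    (hgg : ∀ z ∈ closedBall y R, g z = g' z) : pot h R g y = pot h R g' y := by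
  unfold pot
  refine intervalIntegral.integral_congr fun r hr => ?_
  rw [Set.uIcc_of_le hR.le] at hr
  have h1 : av h r g y = av h r g' y := by
    unfold av
    refine integral_congr_ae (Filter.Eventually.of_forall fun w => ?_)
    show h w * g (y + r • w) = h w * g' (y + r • w)
    by_cases hw : 1 < ‖w‖
    · rw [W.hf.supp w hw, zero_mul, zero_mul]
    · rw [hgg]
      rw [mem_closedBall, dist_eq_norm, add_sub_cancel_left, norm_smul, Real.norm_eq_abs,
        abs_of_nonneg hr.1]
      calc r * ‖w‖ ≤ r * 1 := mul_le_mul_of_nonneg_left (not_lt.mp hw) hr.1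
        _ ≤ R := by linarith [hr.2]
  show r / 2 * av h r g y = r / 2 * av h r g' y
  rw [h1]

theorem pot_compact (W : Wt h φ) {R : ℝ} (hR : 0 < R) (cg : HasCompactSupport g) :
    HasCompactSupport (pot h R g) := by
  refine HasCompactSupport.intro (K := cthickening R (tsupport g)) cg.isCompact.cthickening
    fun y hy => ?_
  have h1 : pot h R g y = pot h R (fun _ => 0) y := by
    refine pot_local W hR y fun z hz => ?_
    by_contra hgz
    exact hy (mem_cthickening_of_dist_le y z R _ (subset_tsupport g hgz)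
      (by rw [dist_comm]; exact hz))
  rw [h1]
  simp [pot, av]

/-- linearity -/
theorem pot_TT (W : Wt h φ) {R : ℝ} (hR : 0 < R) {g : Fin 3 → V4 → ℝ} (hg : ∀ i, Nice (g i)) (i : Fin 3)
    (y : V4) : TT (fun j => pot h R (g j)) i y = pot h R (TT g i) y := by
  unfold TT
  simp only [Pot_DD W hR (hg _)]
  have h1 := Pot_sum W R (Finset.univ : Finset (Fin 3 × Fin 4 × Fin 4))
    (fun t => tau i t.1 t.2.1 t.2.2) (fun t => D t.2.1 (D t.2.2 (g t.1)))
    (fun t _ => ((hg t.1).D t.2.2).D t.2.1) y
  simp only [Fintype.sum_prod_type] at h1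
  exact h1.symm

end Pool.Agent.H.MP_df7994_gt.SD
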