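import Pool.Agent.H.MP_df7994_gt.SD.Rad

/-!
SD / PotA: the truncated potential `Z(y) = ∫_0^R (r/2) ∫ h(w) g(y + r w) dw dr`.
As `∫ m(a) g(y + θ a) dμ(a)` with `Ω = ℝ × V4`, `μ = (volume.restrict (Ioc 0 R)).prod volume`,
`m (r, w) = r / 2 * h w`, `θ (r, w) = r • w`: `par_der`, `par_sm` apply; `av_sub` gives the Laplacian.
-/

set_option autoImplicit false

namespace Pool.Agent.H.MP_df7994_gt.SD

open Set Topology MeasureTheory Metric

variable {h φ g : V4 → ℝ}

/-- the truncated potential -/
noncomputable def pot (h : V4 → ℝ) (R : ℝ) (g : V4 → ℝ) (y : V4) : ℝ :=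
  ∫ r in (0 : ℝ)..R, r / 2 * av h r g y

/-- the measure of the parameter integral -/
private noncomputable def potA_mu (R : ℝ) : Measure (ℝ × V4) :=
  (volume.restrict (Ioc 0 R)).prod volume

private theorem potA_int (W : Wt h φ) (R : ℝ) :
    Integrable (fun a : ℝ × V4 => a.1 / 2 * h a.2) (potA_mu R) := by
  have h1 : Integrable (fun r : ℝ => r / 2) (volume.restrict (Ioc 0 R)) :=
    (continuous_id.div_const 2).integrableOn_Ioc
  exact h1.mul_prod W.hf.integrable

private theorem potA_meas : Measurable (fun a : ℝ × V4 => a.1 • a.2) :=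
  measurable_fst.smul measurable_snd

/-- the truncated potential as a parameter integral -/
private theorem potA_eq (W : Wt h φ) {R : ℝ} (hR : 0 < R) (hg : Nice g) (y : V4) :
    pot h R g y = ∫ a : ℝ × V4, a.1 / 2 * h a.2 * g (y + a.1 • a.2) ∂(potA_mu R) := by
  have h1 := par_int (potA_int W R) potA_meas hg y
  unfold potA_mu at h1 ⊢
  rw [integral_prod _ h1]
  unfold pot
  rw [intervalIntegral.integral_of_le hR.le]
  refine integral_congr_ae (Filter.Eventually.of_forall fun r => ?_)
  show r / 2 * av h r g y = ∫ w : V4, r / 2 * h w * g (y + r • w)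
  unfold av
  rw [← integral_const_mul]
  refine integral_congr_ae (Filter.Eventually.of_forall fun w => ?_)
  show r / 2 * (h w * g (y + r • w)) = r / 2 * h w * g (y + r • w)
  ring

theorem pot_sm (W : Wt h φ) {R : ℝ} (hR : 0 < R) (hg : Nice g) : Sm (pot h R g) := by
  have h1 : pot h R g =
      fun y => ∫ a : ℝ × V4, a.1 / 2 * h a.2 * g (y + a.1 • a.2) ∂(potA_mu R) :=
    funext fun y => potA_eq W hR hg y
  rw [h1]
  exact par_sm (potA_int W R) potA_meas hg

theorem pot_der (W : Wt h φ) {R : ℝ} (hR : 0 < R) (hg : Nice g) (i : Fin 4) (y : V4) :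
    D i (pot h R g) y = pot h R (D i g) y := by
  have h1 : pot h R g =
      fun y => ∫ a : ℝ × V4, a.1 / 2 * h a.2 * g (y + a.1 • a.2) ∂(potA_mu R) :=
    funext fun y => potA_eq W hR hg y
  rw [h1, potA_eq W hR (hg.D i) y]
  exact par_der (potA_int W R) potA_meas hg i y

end Pool.Agent.H.MP_df7994_gt.SD
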