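import Pool.Agent.H.MP_df7994_gt.SD.Alg

/-!
SD / Pull: the linear pull back `Aᵀ α(A x) A` and the averages of `α` over the ellipsoids `y + r A (unit ball)`.
-/

set_option autoImplicit false

namespace Pool.Agent.H.MP_df7994_gt.SD

open Set Topology MeasureTheory Metric Matrix

/-- the linear pull back of a form -/
def pull (A : M4) (α : V4 → M4) (x : V4) : M4 := Aᵀ * α (A *ᵥ x) * A

/-- the averaged form -/
noncomputable def avM (φ : V4 → ℝ) (A : M4) (α : V4 → M4) (r : ℝ) (y : V4) : M4 :=
  fun i j => (∫ w, φ w)⁻¹ * ∫ w, φ w * α (y + r • (A *ᵥ w)) i j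

private theorem Pull_apply (A : M4) (α : V4 → M4) (x : V4) (i j : Fin 4) :
    pull A α x i j = ∑ a, ∑ b, A a i * A b j * α (A *ᵥ x) a b := by
  unfold pull
  rw [Matrix.mul_apply]
  simp only [Matrix.mul_apply, Matrix.transpose_apply, Finset.sum_mul]
  rw [Finset.sum_comm]
  refine Finset.sum_congr rfl fun a _ => Finset.sum_congr rfl fun b _ => ?_
  ring

/-- the linear map -/
private noncomputable def PullL (A : M4) : V4 →L[ℝ] V4 :=
  LinearMap.toContinuousLinearMap (Matrix.mulVecLin A)

private theorem PullL_apply (A : M4) (x : V4) : PullL A x = A *ᵥ x := rfl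

private theorem Pull_sm0 {A : M4} {g : V4 → ℝ} (hg : Sm g) : Sm fun x => g (A *ᵥ x) := by
  have h : Sm (g ∘ PullL A) := ContDiff.comp hg (PullL A).contDiff
  exact h

theorem pull_sm {A : M4} {α : V4 → M4} (hs : ∀ i j, Sm fun x => α x i j) (i j : Fin 4) :
    Sm fun x => pull A α x i j := by
  have e : (fun x => pull A α x i j) =
      fun x => ∑ a, ∑ b, A a i * A b j * α (A *ᵥ x) a b := by
    funext x
    exact Pull_apply A α x i j
  rw [e]
  refine ContDiff.sum fun a _ => ContDiff.sum fun b _ => ?_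
  exact contDiff_const.mul (Pull_sm0 (A := A) (hs a b))

theorem pull_skew {A : M4} {α : V4 → M4} (hk : ∀ x i j, α x i j = - α x j i) (x : V4) (i j : Fin 4) :
    pull A α x i j = - pull A α x j i := by
  rw [Pull_apply, Pull_apply, Finset.sum_comm, ← Finset.sum_neg_distrib]
  refine Finset.sum_congr rfl fun a _ => ?_
  rw [← Finset.sum_neg_distrib]
  refine Finset.sum_congr rfl fun b _ => ?_
  rw [hk _ b a]
  ring

private theorem PullL_single (A : M4) (k : Fin 4) :
    PullL A (Pi.single k 1) = ∑ c, A c k • (Pi.single c (1 : ℝ) : V4) := by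
  rw [PullL_apply]
  funext m
  rw [Matrix.mulVec_single_one, Finset.sum_apply]
  simp [Pi.single_apply]

private theorem Pull_D {A : M4} {α : V4 → M4} (hs : ∀ i j, Sm fun x => α x i j) (i j k : Fin 4)
    (x : V4) : D k (fun y => pull A α y i j) x =
      ∑ a, ∑ b, ∑ c, A a i * A b j * A c k * D c (fun y => α y a b) (A *ᵥ x) := by
  have e : (fun x => pull A α x i j) =
      fun x => ∑ a, ∑ b, A a i * A b j * α (A *ᵥ x) a b := by
    funext x
    exact Pull_apply A α x i j
  have h1 : ∀ a b, HasFDerivAt (fun y => α (A *ᵥ y) a b)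
      ((fderiv ℝ (fun y => α y a b) (A *ᵥ x)).comp (PullL A)) x := by
    intro a b
    have hd : Differentiable ℝ (fun y => α y a b) := (hs a b).diff
    have h2 : HasFDerivAt (fun y => α y a b) (fderiv ℝ (fun y => α y a b) (PullL A x))
        (PullL A x) := (hd _).hasFDerivAt
    exact h2.comp x (PullL A).hasFDerivAt
  have h3 : HasFDerivAt (fun y => ∑ a, ∑ b, A a i * A b j * α (A *ᵥ y) a b)
      (∑ a, ∑ b, (A a i * A b j) • ((fderiv ℝ (fun y => α y a b) (A *ᵥ x)).comp (PullL A))) x :=
    HasFDerivAt.fun_sum fun a _ => HasFDerivAt.fun_sum fun b _ => (h1 a b).const_mul _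
  unfold D
  rw [e, h3.fderiv]
  simp only [ContinuousLinearMap.sum_apply, ContinuousLinearMap.smul_apply,
    ContinuousLinearMap.comp_apply, PullL_single, map_sum, map_smul, smul_eq_mul,
    Finset.mul_sum]
  refine Finset.sum_congr rfl fun a _ => Finset.sum_congr rfl fun b _ =>
    Finset.sum_congr rfl fun c _ => ?_
  ring

/-- pull back commutes with the exterior derivative: expand, the cyclic sum at `(i,j,k)` is
`∑ a b c, A a i * A b j * A c k * (cyclic sum at (a,b,c))` -/
theorem pull_cl {A : M4} {α : V4 → M4} (hs : ∀ i j, Sm fun x => α x i j) (hc : Cl α) : Cl (pull A α) := by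
  intro x i j k
  rw [Pull_D hs, Pull_D hs, Pull_D hs]
  set F : Fin 4 → Fin 4 → Fin 4 → ℝ := fun c a b => D c (fun y => α y a b) (A *ᵥ x) with hF
  have hcl : ∀ p q r, F p q r + F q r p + F r p q = 0 := fun p q r => hc (A *ᵥ x) p q r
  have t1 : (∑ a, ∑ b, ∑ c, A a j * A b k * A c i * F c a b) =
      ∑ p, ∑ q, ∑ r, A p i * A q j * A r k * F p q r := by
    calc (∑ q, ∑ r, ∑ p, A q j * A r k * A p i * F p q r)
        = ∑ q, ∑ p, ∑ r, A q j * A r k * A p i * F p q r :=
          Finset.sum_congr rfl fun q _ => Finset.sum_comm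
      _ = ∑ p, ∑ q, ∑ r, A q j * A r k * A p i * F p q r := Finset.sum_comm
      _ = _ := Finset.sum_congr rfl fun p _ => Finset.sum_congr rfl fun q _ =>
          Finset.sum_congr rfl fun r _ => by ring
  have t2 : (∑ a, ∑ b, ∑ c, A a k * A b i * A c j * F c a b) =
      ∑ p, ∑ q, ∑ r, A p i * A q j * A r k * F q r p := by
    calc (∑ r, ∑ p, ∑ q, A r k * A p i * A q j * F q r p)
        = ∑ p, ∑ r, ∑ q, A r k * A p i * A q j * F q r p := Finset.sum_comm
      _ = ∑ p, ∑ q, ∑ r, A r k * A p i * A q j * F q r p :=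
          Finset.sum_congr rfl fun q _ => Finset.sum_comm
      _ = _ := Finset.sum_congr rfl fun p _ => Finset.sum_congr rfl fun q _ =>
          Finset.sum_congr rfl fun r _ => by ring
  rw [t1, t2, ← Finset.sum_add_distrib, ← Finset.sum_add_distrib]
  refine Finset.sum_eq_zero fun p _ => ?_
  rw [← Finset.sum_add_distrib, ← Finset.sum_add_distrib]
  refine Finset.sum_eq_zero fun q _ => ?_
  rw [← Finset.sum_add_distrib, ← Finset.sum_add_distrib]
  refine Finset.sum_eq_zero fun r _ => ?_
  linear_combination (A p i * A q j * A r k) * hcl p q r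

end Pool.Agent.H.MP_df7994_gt.SD
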