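import Pool.Agent.H.MP_df7994_gt.SD.RadA

/-!
SD / Rad: continuity of the averages in `(r, y)`, the radial identity in integrated form.
-/

set_option autoImplicit false

namespace Pool.Agent.H.MP_df7994_gt.SD

open Set Topology MeasureTheory Metric

variable {h φ m g : V4 → ℝ}

theorem av_continuous (hm : Wf m) (hg : Nice g) : Continuous fun z : ℝ × V4 => av m z.1 g z.2 := by
  obtain ⟨C, _, hC⟩ := hg.bound
  have hmc : Continuous m := hm.sm.cont
  have hgc : Continuous g := hg.sm.cont
  refine MeasureTheory.continuous_of_dominated (F := fun (z : ℝ × V4) (w : V4) =>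
    m w * g (z.2 + z.1 • w)) (bound := fun w => |m w| * C) (fun z => ?_) (fun z => ?_) ?_ ?_
  · exact Continuous.aestronglyMeasurable (by fun_prop)
  · refine Filter.Eventually.of_forall fun w => ?_
    rw [norm_mul, Real.norm_eq_abs, Real.norm_eq_abs]
    exact mul_le_mul_of_nonneg_left (hC _) (abs_nonneg _)
  · exact hm.integrable.abs.mul_const C
  · exact Filter.Eventually.of_forall fun w => by fun_prop

theorem av_sub (W : Wt h φ) (hg : Nice g) (y : V4) (s r : ℝ) :
    av φ r g y - av φ s g y = ∫ t in s..r, t / 2 * av h t (lap g) y := by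
  have hc : Continuous fun t : ℝ => t / 2 * av h t (lap g) y := by
    have h1 : Continuous fun t : ℝ => av h t (lap g) y :=
      (av_continuous W.hf hg.lap).comp (by fun_prop : Continuous fun t : ℝ => (t, y))
    fun_prop
  exact (intervalIntegral.integral_eq_sub_of_hasDerivAt (fun t _ => av_hasDerivAt W hg y t)
    (hc.intervalIntegrable s r)).symm

theorem av_zero (m g : V4 → ℝ) (y : V4) : av m 0 g y = (∫ w, m w) * g y := by
  unfold av
  simp only [zero_smul, add_zero]
  exact integral_mul_const (g y) m

end Pool.Agent.H.MP_df7994_gt.SD
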