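import Pool.Agent.H.MP_df7994_gt.SD.ParS
import Pool.Agent.H.MP_df7994_gt.SD.Ibp

/-!
SD / RadA: the radial identity
`d/dr ∫ φ(w) g(y + r w) dw = ∑ ∫ φ w_i (D_i g)(y + r w) = - 1/2 ∑ ∫ (D_i h) (D_i g)(y + r w) = (r/2) ∫ h (Δ g)(y + r w)`
(differentiation in `r` under the integral: `hasDerivAt_integral_of_dominated_loc_of_deriv_le`, the last step is
`av_D` for the weight `h`).
-/

set_option autoImplicit false

namespace Pool.Agent.H.MP_df7994_gt.SD

open Set Topology MeasureTheory Metric

variable {h φ m g : V4 → ℝ}

theorem av_hasDerivAt (W : Wt h φ) (hg : Nice g) (y : V4) (r : ℝ) :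
    HasDerivAt (fun r => av φ r g y) (r / 2 * av h r (lap g) y) r := by
  have hφ := W.φf
  have hgd : Differentiable ℝ g := hg.sm.diff
  have hgc : Continuous g := hg.sm.cont
  have hφc : Continuous φ := hφ.sm.cont
  have hfd : Continuous (fderiv ℝ g) := ContDiff.continuous_fderiv hg.sm (by simp)
  obtain ⟨C, hC⟩ := hg.bd 1
  have hC' : ∀ x, ‖fderiv ℝ g x‖ ≤ C := fun x => by
    rw [← norm_iteratedFDeriv_one]
    exact hC x
  have hC0 : 0 ≤ C := (norm_nonneg _).trans (hC' 0)
  -- differentiation under the integral
  have hder : HasDerivAt (fun r => ∫ w, φ w * g (y + r • w))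
      (∫ w, φ w * (fderiv ℝ g (y + r • w)) w) r := by
    refine (hasDerivAt_integral_of_dominated_loc_of_deriv_le (μ := volume)
      (F := fun r w => φ w * g (y + r • w))
      (F' := fun r w => φ w * (fderiv ℝ g (y + r • w)) w)
      (bound := fun w => |φ w| * C) (s := Set.univ) Filter.univ_mem ?_ ?_ ?_ ?_ ?_ ?_).2
    · refine Filter.Eventually.of_forall fun t => ?_
      exact (hφc.mul (hgc.comp (continuous_const.add (continuous_id.const_smul t)))).aestronglyMeasurable
    · exact av_int hφ hg r y
    · exact (hφc.mul ((hfd.comp (continuous_const.add (continuous_id.const_smul r))).clm_apply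
        continuous_id)).aestronglyMeasurable
    · refine Filter.Eventually.of_forall fun w t _ => ?_
      rw [Real.norm_eq_abs, abs_mul]
      rcases le_or_gt ‖w‖ 1 with hw | hw
      · refine mul_le_mul_of_nonneg_left ?_ (abs_nonneg _)
        rw [← Real.norm_eq_abs]
        calc ‖(fderiv ℝ g (y + t • w)) w‖ ≤ ‖fderiv ℝ g (y + t • w)‖ * ‖w‖ :=
              ContinuousLinearMap.le_opNorm _ _
          _ ≤ C * 1 := mul_le_mul (hC' _) hw (norm_nonneg _) hC0
          _ = C := mul_one C
      · rw [hφ.supp w hw, abs_zero, zero_mul, zero_mul]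
    · exact hφ.integrable.abs.mul_const C
    · refine Filter.Eventually.of_forall fun w t _ => ?_
      have h1 : HasDerivAt (fun t : ℝ => y + t • w) w t := by
        have h2 := ((hasDerivAt_id t).smul_const w).const_add y
        rw [one_smul] at h2
        exact h2
      have h3 := ((hgd (y + t • w)).hasFDerivAt.comp_hasDerivAt t h1).const_mul (φ w)
      exact h3
  -- the derivative
  have hlin : ∀ w : V4, φ w * (fderiv ℝ g (y + r • w)) w =
      ∑ i, -1 / 2 * (D i h w * D i g (y + r • w)) := by
    intro w
    have h1 : (fderiv ℝ g (y + r • w)) w = ∑ i, w i * D i g (y + r • w) := by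
      have h0 : w = ∑ i, w i • (Pi.single i 1 : V4) := by
        funext j
        rw [Finset.sum_apply, Finset.sum_eq_single j]
        · rw [Pi.smul_apply, Pi.single_eq_same, smul_eq_mul, mul_one]
        · intro i _ hij
          rw [Pi.smul_apply, Pi.single_eq_of_ne hij.symm, smul_zero]
        · intro hj
          exact absurd (Finset.mem_univ j) hj
      rw [show (fderiv ℝ g (y + r • w)) w =
        (fderiv ℝ g (y + r • w)) (∑ i, w i • (Pi.single i 1 : V4)) from
          congrArg (fderiv ℝ g (y + r • w)) h0, map_sum]
      refine Finset.sum_congr rfl fun i _ => ?_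
      rw [map_smul, smul_eq_mul]
      rfl
    rw [h1, Finset.mul_sum]
    refine Finset.sum_congr rfl fun i _ => ?_
    rw [W.grad i w]
    ring
  have hint : ∀ i, Integrable fun w => D i h w * D i g (y + r • w) := fun i =>
    av_int (W.hf.D i) (hg.D i) r y
  have hval : ∫ w, φ w * (fderiv ℝ g (y + r • w)) w = r / 2 * av h r (lap g) y := by
    have h2 : ∀ i, ∫ w, -1 / 2 * (D i h w * D i g (y + r • w)) =
        r / 2 * av h r (D i (D i g)) y := by
      intro i
      rw [integral_const_mul]
      have h3 := av_D W.hf (hg.D i).sm i r y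
      have h4 : ∫ w, D i h w * D i g (y + r • w) = av (D i h) r (D i g) y := rfl
      rw [h4]
      linarith
    have h5 : av h r (lap g) y = ∑ i, av h r (D i (D i g)) y := by
      unfold av
      rw [← integral_finsetSum]
      · refine integral_congr_ae (Filter.Eventually.of_forall fun w => ?_)
        show h w * lap g (y + r • w) = _
        unfold lap
        rw [Finset.mul_sum]
      · intro i _
        exact av_int W.hf ((hg.D i).D i) r y
    simp only [hlin]
    rw [integral_finsetSum, h5, Finset.mul_sum]
    · exact Finset.sum_congr rfl fun i _ => h2 i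
    · intro i _
      exact (hint i).const_mul _
  rw [← hval]
  exact hder

end Pool.Agent.H.MP_df7994_gt.SD
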