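import Pool.Agent.H.MP_df7994_gt.SD.Rad

/-!
SD / StepG: one step between scales, general form. `av_sub`, then for `t ∈ [s, 2 s]`:
`t / 2 * av h t (lap f) y = 1 / (2 t) * ∑_{j,a,b} τ^{ij}_{ab} av (D_b D_a h) t (g_j) y` (`av_DD`, linearity of `av` in the
function, `av_int`), `|τ| ≤ 2`, 48 terms, so `≤ 48 B / t ≤ 48 B / s`; the interval has length `s`
(`intervalIntegral.norm_integral_le_of_norm_le_const`).
-/

set_option autoImplicit false

namespace Pool.Agent.H.MP_df7994_gt.SD

open Set Topology MeasureTheory Metric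

variable {h φ : V4 → ℝ}

private theorem stepG_tau (i j : Fin 3) (a b : Fin 4) : |tau i j a b| ≤ 2 := by
  fin_cases i <;> fin_cases j <;> fin_cases a <;> fin_cases b <;> norm_num [tau]

private theorem stepG_lin (W : Wt h φ) {g : Fin 3 → V4 → ℝ} (hg : ∀ j, Nice (g j)) (i : Fin 3) (t : ℝ)
    (y : V4) : av h t (TT g i) y = ∑ j, ∑ a, ∑ b, tau i j a b * av h t (D a (D b (g j))) y := by
  have hi : ∀ j a b, Integrable fun w => tau i j a b * (h w * D a (D b (g j)) (y + t • w)) :=
    fun j a b => (av_int W.hf (((hg j).D b).D a) t y).const_mul _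
  have e1 : ∀ w, h w * TT g i (y + t • w) =
      ∑ j, ∑ a, ∑ b, tau i j a b * (h w * D a (D b (g j)) (y + t • w)) := by
    intro w
    simp only [TT, Finset.mul_sum]
    refine Finset.sum_congr rfl fun j _ => Finset.sum_congr rfl fun a _ =>
      Finset.sum_congr rfl fun b _ => by ring
  unfold av
  simp only [e1]
  rw [integral_finsetSum _ fun j _ => integrable_finsetSum _ fun a _ =>
    integrable_finsetSum _ fun b _ => hi j a b]
  refine Finset.sum_congr rfl fun j _ => ?_
  rw [integral_finsetSum _ fun a _ => integrable_finsetSum _ fun b _ => hi j a b]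
  refine Finset.sum_congr rfl fun a _ => ?_
  rw [integral_finsetSum _ fun b _ => hi j a b]
  refine Finset.sum_congr rfl fun b _ => ?_
  rw [integral_const_mul]

/-- one step, general form: `d/dt av h t f = (t/2) av h t (lap f) = (1/(2t)) ∑ τ av (D_b D_a h) t (g_j)` -/
theorem step_gen (W : Wt h φ) {f : V4 → ℝ} {g : Fin 3 → V4 → ℝ} (hf : Nice f) (hg : ∀ j, Nice (g j))
    {i : Fin 3} (heq : ∀ x, lap f x = TT g i x) {s B : ℝ} (hs : 0 < s) (y : V4)
    (hb : ∀ t ∈ Icc s (2 * s), ∀ (j : Fin 3) (a b : Fin 4), |av (D b (D a h)) t (g j) y| ≤ B) :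
    |av φ (2 * s) f y - av φ s f y| ≤ 48 * B := by
  have hB : 0 ≤ B := (abs_nonneg _).trans (hb s ⟨le_refl s, by linarith⟩ 0 0 0)
  have hlap : lap f = TT g i := funext heq
  rw [av_sub W hf y s (2 * s), hlap]
  have key : ∀ t ∈ Set.uIoc s (2 * s), ‖t / 2 * av h t (TT g i) y‖ ≤ 48 * B / s := by
    intro t ht
    rw [Set.uIoc_of_le (by linarith)] at ht
    have ht0 : 0 < t := hs.trans ht.1
    have e2 : t / 2 * av h t (TT g i) y =
        1 / (2 * t) * ∑ j, ∑ a, ∑ b, tau i j a b * av (D b (D a h)) t (g j) y := by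
      rw [stepG_lin W hg]
      have e3 : ∀ j a b, tau i j a b * av (D b (D a h)) t (g j) y =
          t ^ 2 * (tau i j a b * av h t (D a (D b (g j))) y) := by
        intro j a b
        rw [← av_DD W.hf (hg j).sm a b t y]
        ring
      simp only [e3, ← Finset.mul_sum]
      field_simp
    rw [e2, Real.norm_eq_abs, abs_mul, abs_of_pos (by positivity : 0 < 1 / (2 * t))]
    have e4 : |∑ j, ∑ a, ∑ b, tau i j a b * av (D b (D a h)) t (g j) y| ≤ 96 * B := by
      calc |∑ j, ∑ a, ∑ b, tau i j a b * av (D b (D a h)) t (g j) y|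
          ≤ ∑ j : Fin 3, ∑ a : Fin 4, ∑ b : Fin 4, |tau i j a b * av (D b (D a h)) t (g j) y| :=
            (Finset.abs_sum_le_sum_abs _ _).trans (Finset.sum_le_sum fun j _ =>
              (Finset.abs_sum_le_sum_abs _ _).trans (Finset.sum_le_sum fun a _ =>
                Finset.abs_sum_le_sum_abs _ _))
        _ ≤ ∑ _j : Fin 3, ∑ _a : Fin 4, ∑ _b : Fin 4, 2 * B := by
            refine Finset.sum_le_sum fun j _ => Finset.sum_le_sum fun a _ =>
              Finset.sum_le_sum fun b _ => ?_
            rw [abs_mul]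
            exact mul_le_mul (stepG_tau i j a b) (hb t ⟨ht.1.le, ht.2⟩ j a b) (abs_nonneg _) (by norm_num)
        _ = 96 * B := by
            simp only [Finset.sum_const, Finset.card_univ, Fintype.card_fin, nsmul_eq_mul]
            ring
    calc 1 / (2 * t) * |∑ j, ∑ a, ∑ b, tau i j a b * av (D b (D a h)) t (g j) y|
        ≤ 1 / (2 * t) * (96 * B) := mul_le_mul_of_nonneg_left e4 (by positivity)
      _ = 48 * B / t := by
          field_simp
          ring
      _ ≤ 48 * B / s := div_le_div_of_nonneg_left (by positivity) hs ht.1.le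
  have h5 := intervalIntegral.norm_integral_le_of_norm_le_const key
  rw [Real.norm_eq_abs] at h5
  refine h5.trans ?_
  have e6 : |2 * s - s| = s := by
    rw [show 2 * s - s = s by ring, abs_of_pos hs]
  rw [e6, div_mul_cancel₀ _ hs.ne']

end Pool.Agent.H.MP_df7994_gt.SD
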