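import Pool.Agent.H.MP_df7994_gt.SD.Defs

/-!
SD / Weight: the pair of radial weights exists.
`h w = expNegInvGlue (1 - ∑ w_i ^ 2)`, `φ w = deriv expNegInvGlue (1 - ∑ w_i ^ 2)`.
`deriv expNegInvGlue ≥ 0` (monotone function, or explicitly), smooth (`expNegInvGlue.contDiff`), zero on
`(-∞, 0]`; sup norm `‖w‖ > 1` gives `∑ w_i ^ 2 > 1`. Positivity of the integral: continuous, nonnegative,
nonzero somewhere (`Continuous.integral_pos_of_hasCompactSupport_nonneg_nonzero` or similar; if `φ = 0`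
then `D i h = 0`, `h` constant, but `h 0 > 0 = h (2,0,0,0)`).
Any other choice of `h`, `φ` is fine.
-/

set_option autoImplicit false

namespace Pool.Agent.H.MP_df7994_gt.SD

open Set Topology MeasureTheory Metric

/-- one minus the square of the Euclidean norm -/
private noncomputable def Weight_s (w : V4) : ℝ := 1 - ∑ i, w i ^ 2

private theorem Weight_s_smooth : ContDiff ℝ ((⊤ : ℕ∞) : WithTop ℕ∞) Weight_s := by
  unfold Weight_s
  refine contDiff_const.sub (ContDiff.sum fun i _ => ?_)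
  exact (contDiff_apply ℝ ℝ i).pow 2

private theorem Weight_s_neg {w : V4} (hw : 1 < ‖w‖) : Weight_s w < 0 := by
  by_contra hcon
  rw [not_lt] at hcon
  unfold Weight_s at hcon
  refine absurd hw (not_lt.2 ?_)
  rw [pi_norm_le_iff_of_nonneg zero_le_one]
  intro i
  have h1 : w i ^ 2 ≤ ∑ j, w j ^ 2 :=
    Finset.single_le_sum (f := fun j => w j ^ 2) (fun j _ => sq_nonneg (w j)) (Finset.mem_univ i)
  have h2 : w i ^ 2 ≤ 1 := by linarith
  rw [Real.norm_eq_abs]
  exact abs_le_one_iff_mul_self_le_one.2 (by nlinarith)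

private theorem Weight_e_smooth :
    ContDiff ℝ ((⊤ : ℕ∞) : WithTop ℕ∞) (deriv expNegInvGlue) :=
  (contDiff_infty_iff_deriv.1 (expNegInvGlue.contDiff (n := ⊤))).2

private theorem Weight_e_diff : Differentiable ℝ expNegInvGlue :=
  (contDiff_infty_iff_deriv.1 (expNegInvGlue.contDiff (n := ⊤))).1

private theorem Weight_e_neg {s : ℝ} (hs : s < 0) : deriv expNegInvGlue s = 0 := by
  have h1 : expNegInvGlue =ᶠ[𝓝 s] fun _ => (0 : ℝ) := by
    filter_upwards [Iio_mem_nhds hs] with x hx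
    exact expNegInvGlue.zero_of_nonpos (le_of_lt hx)
  rw [h1.deriv_eq]
  exact deriv_const _ _

private theorem Weight_e_nonneg (s : ℝ) : 0 ≤ deriv expNegInvGlue s := by
  have h1 := (Weight_e_diff s).hasDerivAt
  have h2 := h1.tendsto_slope
  have h3 : ∀ᶠ y in 𝓝[≠] s, 0 ≤ slope expNegInvGlue s y := by
    filter_upwards [self_mem_nhdsWithin] with y hy
    rw [slope_def_field]
    rcases lt_or_gt_of_ne hy with h | h
    · exact div_nonneg_of_nonpos (sub_nonpos.2 (expNegInvGlue.monotone h.le))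
        (sub_nonpos.2 h.le)
    · exact div_nonneg (sub_nonneg.2 (expNegInvGlue.monotone h.le)) (sub_nonneg.2 h.le)
  exact ge_of_tendsto h2 h3

private theorem Weight_e_one : deriv expNegInvGlue 1 ≠ 0 := by
  have h1 : expNegInvGlue =ᶠ[𝓝 (1 : ℝ)] fun x => Real.exp (-x⁻¹) := by
    filter_upwards [Ioi_mem_nhds (zero_lt_one (α := ℝ))] with x hx
    have hx' : ¬ x ≤ 0 := not_le.2 hx
    simp only [expNegInvGlue, if_neg hx']
  rw [h1.deriv_eq]
  have h2 : HasDerivAt (fun x : ℝ => Real.exp (-x⁻¹)) (Real.exp (-(1 : ℝ)⁻¹) * -(-((1 : ℝ) ^ 2)⁻¹)) 1 :=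
    ((hasDerivAt_inv (one_ne_zero (α := ℝ))).neg).exp
  rw [h2.deriv]
  norm_num

private theorem Weight_comp {f : ℝ → ℝ} (hf : ContDiff ℝ ((⊤ : ℕ∞) : WithTop ℕ∞) f)
    (h0 : ∀ s, s < 0 → f s = 0) : Wf fun w => f (Weight_s w) :=
  ⟨hf.comp Weight_s_smooth, fun _ hw => h0 _ (Weight_s_neg hw)⟩

private theorem Weight_grad (i : Fin 4) (w : V4) :
    D i (fun w => expNegInvGlue (Weight_s w)) w = -2 * deriv expNegInvGlue (Weight_s w) * w i := by
  have h1 : HasFDerivAt Weight_s
      (-∑ j, (2 * w j) • (ContinuousLinearMap.proj (R := ℝ) (φ := fun _ : Fin 4 => ℝ) j)) w := by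
    unfold Weight_s
    have h2 : ∀ j ∈ (Finset.univ : Finset (Fin 4)), HasFDerivAt (fun w : V4 => w j ^ 2)
        ((2 * w j) • (ContinuousLinearMap.proj (R := ℝ) (φ := fun _ : Fin 4 => ℝ) j)) w := by
      intro j _
      have h3 := (hasFDerivAt_apply (𝕜 := ℝ) j w).pow 2
      simpa using h3
    have h4 := (HasFDerivAt.fun_sum h2).const_sub 1
    exact h4
  have h5 : HasFDerivAt (fun w => expNegInvGlue (Weight_s w)) _ w :=
    (Weight_e_diff (Weight_s w)).hasDerivAt.comp_hasFDerivAt w h1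
  unfold D
  rw [h5.fderiv]
  simp only [ContinuousLinearMap.smul_apply, ContinuousLinearMap.neg_apply,
    ContinuousLinearMap.sum_apply, ContinuousLinearMap.proj_apply, smul_eq_mul]
  rw [Finset.sum_eq_single i]
  · rw [Pi.single_eq_same]
    ring
  · intro j _ hj
    rw [Pi.single_eq_of_ne hj, mul_zero]
  · intro h
    exact absurd (Finset.mem_univ i) h

theorem exists_wt : ∃ h φ : V4 → ℝ, Wt h φ := by
  have hφ : Wf fun w => deriv expNegInvGlue (Weight_s w) :=
    Weight_comp Weight_e_smooth fun s hs => Weight_e_neg hs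
  have hφc : Continuous fun w => deriv expNegInvGlue (Weight_s w) := hφ.sm.continuous
  refine ⟨fun w => expNegInvGlue (Weight_s w), fun w => deriv expNegInvGlue (Weight_s w),
    ⟨Weight_comp expNegInvGlue.contDiff fun s hs => expNegInvGlue.zero_of_nonpos hs.le, hφ,
      fun w => Weight_e_nonneg _, Weight_grad, ?_⟩⟩
  have hcs : HasCompactSupport fun w => deriv expNegInvGlue (Weight_s w) := by
    refine HasCompactSupport.intro (isCompact_closedBall (0 : V4) 1) fun w hw => ?_
    refine hφ.supp w ?_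
    rw [mem_closedBall_zero_iff, not_le] at hw
    exact hw
  refine hφc.integral_pos_of_hasCompactSupport_nonneg_nonzero hcs (fun w => Weight_e_nonneg _)
    (x := 0) ?_
  have h0 : Weight_s 0 = 1 := by
    unfold Weight_s
    simp
  show deriv expNegInvGlue (Weight_s 0) ≠ 0
  rw [h0]
  exact Weight_e_one

end Pool.Agent.H.MP_df7994_gt.SD
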