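import Pool.Agent.H.MP_df7994_gt.SD.ParS

/-!
SD / YoungA: `∫ (av φ R g)^2 ≤ c^2 ∫ g^2`, `c = ∫ φ`, `φ ≥ 0`: Cauchy-Schwarz
`(∫ φ(w) g(y + R w) dw)^2 ≤ c ∫ φ(w) g(y + R w)^2 dw` and Fubini with translation invariance.
-/

set_option autoImplicit false

namespace Pool.Agent.H.MP_df7994_gt.SD

open Set Topology MeasureTheory Metric

variable {φ g : V4 → ℝ}

private theorem youngA_ball (cg : HasCompactSupport g) : ∃ C : ℝ, ∀ x, C < ‖x‖ → g x = 0 := by
  obtain ⟨C, hC⟩ := cg.isCompact.isBounded.subset_closedBall (0 : V4)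
  refine ⟨C, fun x hx => ?_⟩
  by_contra h
  have h1 : x ∈ closedBall (0 : V4) C := hC (subset_tsupport g h)
  rw [mem_closedBall_zero_iff] at h1
  linarith

private theorem youngA_zero (hm : Wf φ) {C : ℝ} (hC : ∀ x, C < ‖x‖ → g x = 0) (R : ℝ) {y : V4}
    (hy : C + |R| < ‖y‖) (w : V4) (k : ℕ) (hk : k ≠ 0) : φ w * g (y + R • w) ^ k = 0 := by
  rcases lt_or_ge 1 ‖w‖ with h | h
  · rw [hm.supp w h, zero_mul]
  · have h1 : C < ‖y + R • w‖ := by
      have h2 : ‖y‖ ≤ ‖y + R • w‖ + ‖R • w‖ := by
        have := norm_sub_le (y + R • w) (R • w)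
        rwa [add_sub_cancel_right] at this
      have h3 : ‖R • w‖ ≤ |R| := by
        rw [norm_smul, Real.norm_eq_abs]
        exact mul_le_of_le_one_right (abs_nonneg R) h
      linarith
    rw [hC _ h1, zero_pow hk, mul_zero]

theorem av_compact (hm : Wf φ) (cg : HasCompactSupport g) (R : ℝ) : HasCompactSupport (av φ R g) := by
  obtain ⟨C, hC⟩ := youngA_ball cg
  refine HasCompactSupport.intro (isCompact_closedBall (0 : V4) (C + |R|)) fun y hy => ?_
  rw [mem_closedBall_zero_iff, not_le] at hy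
  unfold av
  rw [← integral_zero V4 ℝ]
  refine integral_congr_ae (Filter.Eventually.of_forall fun w => ?_)
  have := youngA_zero hm hC R hy w 1 one_ne_zero
  rwa [pow_one] at this

private theorem youngA_cs (hm : Wf φ) (h0 : ∀ w, 0 ≤ φ w) (hg : Sm g) (R : ℝ) (y : V4) :
    av φ R g y ^ 2 ≤ (∫ w, φ w) * ∫ w, φ w * g (y + R • w) ^ 2 := by
  have hi : Integrable φ := hm.integrable
  have hφc : Continuous φ := hm.sm.cont
  have hgc : Continuous g := hg.cont
  have c1 : Continuous fun w : V4 => φ w * g (y + R • w) := by fun_prop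
  have c2 : Continuous fun w : V4 => φ w * g (y + R • w) ^ 2 := by fun_prop
  have i1 : Integrable fun w : V4 => φ w * g (y + R • w) :=
    c1.integrable_of_hasCompactSupport (hm.compact.mul_right)
  have i2 : Integrable fun w : V4 => φ w * g (y + R • w) ^ 2 :=
    c2.integrable_of_hasCompactSupport (hm.compact.mul_right)
  have key : ∀ t : ℝ, 0 ≤ (∫ w, φ w) * (t * t) + (-2 * av φ R g y) * t +
      ∫ w, φ w * g (y + R • w) ^ 2 := by
    intro t
    have e : (∫ w, φ w) * (t * t) + (-2 * av φ R g y) * t + ∫ w, φ w * g (y + R • w) ^ 2 =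
        ∫ w, φ w * (g (y + R • w) - t) ^ 2 := by
      have e1 : (fun w : V4 => φ w * (g (y + R • w) - t) ^ 2) = fun w =>
          φ w * g (y + R • w) ^ 2 - 2 * t * (φ w * g (y + R • w)) + t * t * φ w := by
        funext w
        ring
      have i3 : Integrable fun w : V4 => 2 * t * (φ w * g (y + R • w)) := i1.const_mul _
      have i4 : Integrable fun w : V4 => φ w * g (y + R • w) ^ 2 - 2 * t * (φ w * g (y + R • w)) :=
        i2.sub i3
      have i5 : Integrable fun w : V4 => t * t * φ w := hi.const_mul _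
      rw [e1, integral_add i4 i5, integral_sub i2 i3, integral_const_mul, integral_const_mul]
      unfold av
      ring
    rw [e]
    exact integral_nonneg fun w => mul_nonneg (h0 w) (sq_nonneg _)
  have h := discrim_le_zero key
  unfold discrim at h
  nlinarith

private theorem youngA_prod (hm : Wf φ) (hg : Sm g) (cg : HasCompactSupport g) (R : ℝ) :
    Integrable (Function.uncurry fun (y w : V4) => φ w * g (y + R • w) ^ 2)
      (volume.prod volume) := by
  obtain ⟨C, hC⟩ := youngA_ball cg
  have hφc : Continuous φ := hm.sm.cont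
  have hgc : Continuous g := hg.cont
  have c1 : Continuous (Function.uncurry fun (y w : V4) => φ w * g (y + R • w) ^ 2) := by
    unfold Function.uncurry
    fun_prop
  refine c1.integrable_of_hasCompactSupport ?_
  refine HasCompactSupport.intro
    ((isCompact_closedBall (0 : V4) (C + |R|)).prod (isCompact_closedBall (0 : V4) 1))
    fun z hz => ?_
  rw [Set.mem_prod, not_and_or, mem_closedBall_zero_iff, mem_closedBall_zero_iff, not_le,
    not_le] at hz
  rcases hz with hz | hz
  · exact youngA_zero hm hC R hz z.2 2 two_ne_zero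
  · change φ z.2 * g (z.1 + R • z.2) ^ 2 = 0
    rw [hm.supp _ hz, zero_mul]

theorem young (hm : Wf φ) (h0 : ∀ w, 0 ≤ φ w) (hg : Sm g) (cg : HasCompactSupport g) (R : ℝ) :
    ∫ y, av φ R g y ^ 2 ≤ (∫ w, φ w) ^ 2 * ∫ y, g y ^ 2 := by
  have hp := youngA_prod hm hg cg R
  have i1 : Integrable fun y => av φ R g y ^ 2 := by
    have h1 : Continuous (av φ R g) := (av_sm hm (nice_of_compact hg cg) R).cont
    have h2 : HasCompactSupport fun y => av φ R g y ^ 2 := by
      have h3 : (fun y => av φ R g y ^ 2) = fun y => av φ R g y * av φ R g y := by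
        funext y
        ring
      rw [h3]
      exact (av_compact hm cg R).mul_right
    exact (h1.pow 2).integrable_of_hasCompactSupport h2
  have i2 : Integrable fun y : V4 => ∫ w, φ w * g (y + R • w) ^ 2 := hp.integral_prod_left
  have h1 : ∫ y, av φ R g y ^ 2 ≤ ∫ y, (∫ w, φ w) * ∫ w, φ w * g (y + R • w) ^ 2 :=
    integral_mono i1 (i2.const_mul _) fun y => youngA_cs hm h0 hg R y
  have h2 : ∫ y, ∫ w, φ w * g (y + R • w) ^ 2 = (∫ w, φ w) * ∫ y, g y ^ 2 := by
    rw [integral_integral_swap hp, ← integral_mul_const]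
    refine integral_congr_ae (Filter.Eventually.of_forall fun w => ?_)
    change ∫ y : V4, φ w * g (y + R • w) ^ 2 = φ w * ∫ y, g y ^ 2
    rw [integral_const_mul, integral_add_right_eq_self (fun y : V4 => g y ^ 2)]
  refine h1.trans (le_of_eq ?_)
  rw [integral_const_mul, h2]
  ring

end Pool.Agent.H.MP_df7994_gt.SD
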